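import Pool.Agent.E25.Dekking

/-!
Dekking descent for uniform substitutions whose block sums are `Q w + c` (affine form): the prefix points are
considered modulo the lattice generated by `(P, c)` and `(0, Q)`.
-/

set_option autoImplicit false

namespace Pool.Agent.E25

/-- Values of the sums of a fixed point. -/
lemma PS_block_aff {α : Type*} {w : α → ℤ} {u : ℕ → α} {f : α → ℕ → α} {P : ℕ} {Q c : ℤ}
    (hu : ∀ n r, r < P → u (P * n + r) = f (u n) r)
    (hsum : ∀ a, PS w (f a) P = Q * w a + c) (n r : ℕ) (hr : r ≤ P) :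
    PS w u (P * n + r) = Q * PS w u n + c * n + PS w (f (u n)) r := by
  have step : ∀ n : ℕ, PS w u (P * n) = Q * PS w u n + c * n →
      ∀ r, r ≤ P → PS w u (P * n + r) = Q * PS w u n + c * n + PS w (f (u n)) r := by
    intro n hn r
    induction r with
    | zero => intro _; simp [hn, PS_zero]
    | succ r ih =>
      intro hr
      rw [← add_assoc, PS_succ, ih (by omega), hu n r (by omega), PS_succ]; ring
  have base : ∀ n : ℕ, PS w u (P * n) = Q * PS w u n + c * n := by
    intro n
    induction n with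
    | zero => simp [PS_zero]
    | succ n ih =>
      have h := step n ih P le_rfl
      rw [Nat.mul_succ, h, hsum, PS_succ]; push_cast; ring
  exact step n (base n) r hr

/-- **Dekking descent**, affine form. -/
theorem no_cube_aff {α : Type*} {w : α → ℤ} {u : ℕ → α} {f : α → ℕ → α} {P : ℕ} {Q c : ℤ} (hP : 2 ≤ P)
    (hQ : Q ≠ 0) (hu : ∀ n r, r < P → u (P * n + r) = f (u n) r)
    (hsum : ∀ a, PS w (f a) P = Q * w a + c)
    (hsep : ∀ a b r, r < P → Q ∣ PS w (f a) r - PS w (f b) r → PS w (f a) r = PS w (f b) r)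
    (hAP : ∀ (a b d e : α) (r₀ r₁ r₂ r₃ : ℕ) (j k : ℤ), r₀ < P → r₁ < P → r₂ < P → r₃ < P →
      (r₀ : ℤ) + r₂ - 2 * r₁ = P * j → (r₁ : ℤ) + r₃ - 2 * r₂ = P * k →
      Q ∣ PS w (f a) r₀ + PS w (f d) r₂ - 2 * PS w (f b) r₁ - c * j →
      Q ∣ PS w (f b) r₁ + PS w (f e) r₃ - 2 * PS w (f d) r₂ - c * k →
      r₀ = r₁ ∧ Q ∣ PS w (f a) r₀ - PS w (f b) r₁) :
    ∀ l i : ℕ, 1 ≤ l →
      ¬ (PS w u i + PS w u (i + 2 * l) = 2 * PS w u (i + l) ∧
          PS w u (i + l) + PS w u (i + 3 * l) = 2 * PS w u (i + 2 * l)) := by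
  intro l
  induction l using Nat.strong_induction_on with
  | _ l ih =>
    rintro i hl ⟨h1, h2⟩
    have hP0 : 0 < P := by omega
    have dec : ∀ m : ℕ, PS w u m = Q * PS w u (m / P) + c * ((m / P : ℕ) : ℤ) + PS w (f (u (m / P))) (m % P) := by
      intro m
      conv_lhs => rw [← Nat.div_add_mod m P]
      exact PS_block_aff hu hsum _ _ (Nat.mod_lt _ hP0).le
    have hlt : ∀ m : ℕ, m % P < P := fun m => Nat.mod_lt _ hP0
    have hdm : ∀ m : ℕ, (m : ℤ) = P * ((m / P : ℕ) : ℤ) + ((m % P : ℕ) : ℤ) := fun m => by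
      exact_mod_cast (Nat.div_add_mod m P).symm
    have key : (i % P = (i + l) % P) ∧
        Q ∣ PS w (f (u (i / P))) (i % P) - PS w (f (u ((i + l) / P))) ((i + l) % P) := by
      have d0 := hdm i
      have d1 := hdm (i + l)
      have d2 := hdm (i + 2 * l)
      have d3 := hdm (i + 3 * l)
      have e0 := dec i
      have e1 := dec (i + l)
      have e2 := dec (i + 2 * l)
      have e3 := dec (i + 3 * l)
      simp only [Nat.cast_add, Nat.cast_mul, Nat.cast_ofNat] at d1 d2 d3
      refine hAP (u (i / P)) (u ((i + l) / P)) (u ((i + 2 * l) / P)) (u ((i + 3 * l) / P)) _ _ ((i + 2 * l) % P)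
        ((i + 3 * l) % P) (-(((i / P : ℕ) : ℤ) + ((i + 2 * l) / P : ℕ) - 2 * ((i + l) / P : ℕ)))
        (-((((i + l) / P : ℕ) : ℤ) + ((i + 3 * l) / P : ℕ) - 2 * ((i + 2 * l) / P : ℕ)))
        (hlt _) (hlt _) (hlt _) (hlt _) ?_ ?_ ?_ ?_
      · linear_combination - d0 - d2 + 2 * d1
      · linear_combination - d1 - d3 + 2 * d2
      · refine ⟨-(PS w u (i / P) + PS w u ((i + 2 * l) / P) - 2 * PS w u ((i + l) / P)), ?_⟩
        linear_combination h1 - e0 - e2 + 2 * e1
      · refine ⟨-(PS w u ((i + l) / P) + PS w u ((i + 3 * l) / P) - 2 * PS w u ((i + 2 * l) / P)), ?_⟩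
        linear_combination h2 - e1 - e3 + 2 * e2
    obtain ⟨hr, hs⟩ := key
    have hdvd : P ∣ l := by
      have h : i ≡ i + l [MOD P] := hr
      have := (Nat.modEq_iff_dvd' (by omega : i ≤ i + l)).mp h
      simpa using this
    obtain ⟨l', rfl⟩ := hdvd
    have hl' : 1 ≤ l' := by
      rcases Nat.eq_zero_or_pos l' with h | h
      · subst h; simp at hl
      · exact h
    have hlt' : l' < P * l' := by nlinarith
    have hr2 : ∀ k : ℕ, (i + k * (P * l')) % P = i % P := by
      intro k
      rw [show i + k * (P * l') = i + P * (k * l') by ring, Nat.add_mul_mod_self_left]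
    have hd2 : ∀ k : ℕ, (i + k * (P * l')) / P = i / P + k * l' := by
      intro k
      rw [show i + k * (P * l') = i + P * (k * l') by ring, Nat.add_mul_div_left _ _ hP0]
    have V : ∀ k : ℕ, PS w u (i + k * (P * l')) =
        Q * PS w u (i / P + k * l') + c * ((i / P : ℕ) + k * l') + PS w (f (u (i / P + k * l'))) (i % P) := by
      intro k
      have h := dec (i + k * (P * l'))
      rw [hr2, hd2] at h
      rw [h]; push_cast; ring
    have V0 : PS w u i = Q * PS w u (i / P) + c * (i / P : ℕ) + PS w (f (u (i / P))) (i % P) := dec i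
    have V1 := V 1
    have V2 := V 2
    have V3 := V 3
    rw [one_mul, one_mul] at V1
    have e01 : PS w (f (u (i / P))) (i % P) = PS w (f (u (i / P + l'))) (i % P) := by
      refine hsep _ _ _ (hlt i) ?_
      have h := hs
      have a1 : (i + P * l') / P = i / P + l' := by have := hd2 1; simpa using this
      have a2 : (i + P * l') % P = i % P := by simp
      rwa [a1, a2] at h
    have e12 : PS w (f (u (i / P + 2 * l'))) (i % P) = PS w (f (u (i / P + l'))) (i % P) := by
      refine hsep _ _ _ (hlt i) ?_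
      refine ⟨-(PS w u (i / P) + PS w u (i / P + 2 * l') - 2 * PS w u (i / P + l')), ?_⟩
      rw [V0, V1, V2, e01] at h1
      push_cast at h1 ⊢
      linarith
    have e23 : PS w (f (u (i / P + 3 * l'))) (i % P) = PS w (f (u (i / P + 2 * l'))) (i % P) := by
      refine hsep _ _ _ (hlt i) ?_
      refine ⟨-(PS w u (i / P + l') + PS w u (i / P + 3 * l') - 2 * PS w u (i / P + 2 * l')), ?_⟩
      rw [V1, V2, V3, e12] at h2
      rw [e12]
      push_cast at h2 ⊢
      linarith
    refine ih l' hlt' (i / P) hl' ⟨?_, ?_⟩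
    · rw [V0, V1, V2, e01, e12] at h1
      push_cast at h1
      have : Q * (PS w u (i / P) + PS w u (i / P + 2 * l') - 2 * PS w u (i / P + l')) = 0 := by linarith
      rcases mul_eq_zero.mp this with h | h
      · exact absurd h hQ
      · linarith
    · rw [V1, V2, V3, e23, e12] at h2
      push_cast at h2
      have : Q * (PS w u (i / P + l') + PS w u (i / P + 3 * l') - 2 * PS w u (i / P + 2 * l')) = 0 := by linarith
      rcases mul_eq_zero.mp this with h | h
      · exact absurd h hQ
      · linarith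

end Pool.Agent.E25
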