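import Pool.Agent.E25.KerD

/-!
From the checks to an infinite rich word without additive cubes.
-/

set_option autoImplicit false
set_option linter.unusedSectionVars false
set_option linter.unusedVariables false

namespace Pool.Agent.E25

open Rich3

/-- The fixed point that begins with `o`. -/
def fixw {α : Type*} (F : α → ℤ → α) (o : α) (P : ℕ) (hP : 2 ≤ P) : ℕ → α
  | 0 => o
  | n + 1 => F (fixw F o P hP ((n + 1) / P)) (((n + 1) % P : ℕ) : ℤ)
decreasing_by exact Nat.div_lt_self (by omega) (by omega)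

lemma fixw_spec {α : Type*} {F : α → ℤ → α} {o : α} {P : ℕ} (hP : 2 ≤ P) (h0 : F o 0 = o) (n r : ℕ) (hr : r < P) :
    fixw F o P hP (P * n + r) = F (fixw F o P hP n) r := by
  rcases Nat.eq_zero_or_pos (P * n + r) with h | h
  · have hn : n = 0 := by
      rcases Nat.eq_zero_or_pos n with h' | h'
      · exact h'
      · exfalso
        have : 0 < P * n := by positivity
        omega
    have hr0 : r = 0 := by omega
    subst hn; subst hr0
    rw [h, fixw]
    exact h0.symm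
  · obtain ⟨m, hm⟩ : ∃ m, P * n + r = m + 1 := ⟨P * n + r - 1, by omega⟩
    rw [hm, fixw, ← hm]
    have e1 : (P * n + r) / P = n := by
      rw [Nat.mul_add_div (by omega), Nat.div_eq_of_lt hr, add_zero]
    have e2 : (P * n + r) % P = r := by
      rw [Nat.mul_add_mod, Nat.mod_eq_of_lt hr]
    rw [e1, e2]

/-- The two sided word. -/
def two {α : Type*} (u : ℕ → α) (z : ℤ) : α := if 0 ≤ z then u z.toNat else u (-1 - z).toNat

lemma two_spec {α : Type*} {F : α → ℤ → α} {o : α} {P : ℕ} (hB : Blk F P o) {u : ℕ → α}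
    (hu : ∀ n r : ℕ, r < P → u (P * n + r) = F (u n) r) :
    ∀ n r : ℤ, -1 ≤ r → r ≤ P → two u (P * n + r) = F (two u n) r := by
  have hP := hB.hP
  have main : ∀ n r : ℤ, 0 ≤ r → r < P → two u (P * n + r) = F (two u n) r := by
    intro n r h0 h1
    obtain ⟨ρ, rfl⟩ : ∃ ρ : ℕ, r = ρ := ⟨r.toNat, by omega⟩
    rcases lt_or_ge n 0 with hn | hn
    · obtain ⟨m, rfl⟩ : ∃ m : ℕ, n = -1 - m := ⟨(-1 - n).toNat, by omega⟩
      have hneg : ¬ (0 : ℤ) ≤ (P : ℤ) * (-1 - m) + ρ := by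
        have : (0 : ℤ) ≤ (P : ℤ) * m := by positivity
        have e : (P : ℤ) * (-1 - m) + ρ = -(P : ℤ) - P * m + ρ := by ring
        omega
      have e1 : (-1 - ((P : ℤ) * (-1 - m) + ρ)).toNat = P * m + (P - 1 - ρ) := by
        have e : (-1 - ((P : ℤ) * (-1 - m) + ρ)) = ((P * m + (P - 1 - ρ) : ℕ) : ℤ) := by
          push_cast [Nat.cast_sub (show ρ ≤ P - 1 by omega), Nat.cast_sub (show 1 ≤ P by omega)]
          ring
        rw [e, Int.toNat_natCast]
      have e2 : (-1 - (-1 - (m : ℤ))).toNat = m := by omega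
      unfold two
      rw [if_neg hneg, if_neg (by omega), e1, e2, hu m (P - 1 - ρ) (by omega)]
      rw [← hB.pal (u m) ρ (by omega) (by omega)]
      congr 1
      push_cast [Nat.cast_sub (show ρ ≤ P - 1 by omega), Nat.cast_sub (show 1 ≤ P by omega)]
      ring
    · obtain ⟨m, rfl⟩ : ∃ m : ℕ, n = m := ⟨n.toNat, by omega⟩
      unfold two
      rw [if_pos (by positivity), if_pos (by positivity), Int.toNat_natCast]
      have : ((P : ℤ) * m + ρ).toNat = P * m + ρ := by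
        rw [show (P : ℤ) * m + ρ = ((P * m + ρ : ℕ) : ℤ) by push_cast; ring, Int.toNat_natCast]
      rw [this, hu m ρ (by omega)]
  intro n r h0 h1
  rcases eq_or_lt_of_le h0 with h | h
  · rw [← h, hB.left]
    have := main (n - 1) (P - 1) (by omega) (by omega)
    rw [hB.last] at this
    rw [← this]; congr 1; ring
  · rcases eq_or_lt_of_le h1 with h' | h'
    · rw [h', hB.right]
      have := main (n + 1) 0 (by omega) (by omega)
      rw [hB.zero] at this
      rw [← this]; congr 1; ring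
    · exact main n r (by omega) h'

lemma palFactors_map {α β : Type*} {g : α → β} (hg : Function.Injective g) (v : List α) :
    palFactors (v.map g) = List.map g '' palFactors v := by
  ext p
  constructor
  · rintro ⟨⟨s, t, h⟩, hp⟩
    have h' := h.symm
    rw [List.map_eq_append_iff] at h'
    obtain ⟨l1, l2, e1, e2, e3⟩ := h'
    rw [List.map_eq_append_iff] at e2
    obtain ⟨l3, l4, f1, f2, f3⟩ := e2
    refine ⟨l4, ⟨⟨l3, l2, ?_⟩, ?_⟩, f3⟩
    · rw [e1, f1]
    · apply List.map_injective_iff.mpr hg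
      rw [List.map_reverse, f3]; exact hp
  · rintro ⟨q, ⟨⟨s, t, h⟩, hq⟩, rfl⟩
    refine ⟨⟨s.map g, t.map g, ?_⟩, ?_⟩
    · rw [← List.map_append, ← List.map_append, h]
    · rw [← List.map_reverse, hq]

lemma rich_map {α β : Type*} {g : α → β} (hg : Function.Injective g) {u : ℕ → α} (hu : RichSeq u) :
    RichSeq (fun n => g (u n)) := by
  intro i n
  have e : factor (fun n => g (u n)) i n = (factor u i n).map g := by
    simp [factor, List.map_map, Function.comp_def]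
  unfold RichWord
  rw [e, palFactors_map hg, Set.ncard_image_of_injective _ (List.map_injective_iff.mpr hg), List.length_map]
  exact hu i n

lemma sum_factor (v : ℕ → ℤ) (i l : ℕ) : (factor v i l).sum = PS (fun x => x) v (i + l) - PS (fun x => x) v i := by
  induction l with
  | zero => simp [factor]
  | succ l ih =>
    have : factor v i (l + 1) = factor v i l ++ [v (i + l)] := by simp [factor, List.range_succ]
    rw [this, List.sum_append, ih, ← add_assoc, PS_succ]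
    simp; ring

namespace Ker.Num

variable {M : Num}

/-- The letters as integers. -/
def wz (M : Num) (a : Fin M.D.K) : ℤ := (M.wt a : ℤ)

/-- The blocks. -/
def fb (M : Num) [NeZero M.D.K] (a : Fin M.D.K) (r : ℕ) : Fin M.D.K := M.D.F a r

lemma ps_eq [NeZero M.D.K] (hA : M.D.chkA = true) (hS : M.chkS = true) (a : Fin M.D.K) :
    ∀ r, r ≤ M.D.P → PS M.wz (M.fb a) r = (M.ps a r : ℤ) := by
  unfold chkS at hS
  have h := allN_iff.mp hS a a.2
  rw [an_iff, an_iff] at h
  obtain ⟨h1, h2, h3⟩ := h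
  intro r
  induction r with
  | zero =>
    intro _
    rw [PS_zero, Nat.beq_eq.mp h1]; rfl
  | succ r ih =>
    intro hr
    have e := Nat.beq_eq.mp (allN_iff.mp h3 r (by omega))
    have e' : M.ps a (r + 1) = M.ps a r + M.wt (M.D.le a (r + 1)) := e
    rw [PS_succ, ih (by omega), e']
    have : M.wz (M.fb a r) = (M.wt (M.D.le a (r + 1)) : ℤ) := by
      unfold wz fb
      rw [Dat.F_val hA (by omega) (by omega)]
      congr 3
    rw [this]; push_cast; ring

/-- **The checks give a rich word without additive cubes.** -/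
theorem final [NeZero M.D.K] (hA : M.D.chkA = true) (hG : M.D.chkG = true) (hC : M.D.chkC = true)
    (hD : M.D.chkD = true) (hN : M.D.chkN = true) (hR : M.D.chkR = true) (hU : M.D.chkU = true)
    (hS : M.chkS = true) (hT : M.chkT = true) (hV : M.chkV = true) (hX : M.chkX = true)
    (hZ : M.D.chkZ = true) (hM : M.D.chkM = true) :
    ∃ (A : Finset ℤ) (v : ℕ → ℤ), (∀ i, v i ∈ A) ∧ RichSeq v ∧
      ∀ i l : ℕ, 1 ≤ l → ¬ ((factor v i l).sum = (factor v (i + l) l).sum ∧
        (factor v (i + l) l).sum = (factor v (i + 2 * l) l).sum) := by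
  have hB := Dat.blk hA hG hZ hM
  have hcert := Dat.cert hA hG hC hD hN hR hU
  obtain ⟨hP2, hP6⟩ := Dat.A_P hA
  -- conditions of chkT
  have hT' := hT
  unfold chkT at hT'
  rw [an_iff, an_iff, an_iff] at hT'
  obtain ⟨⟨t1, t2, t3⟩, t4⟩ := hT'
  have hQ1 : 1 ≤ M.Q := Nat.ble_eq.mp t1
  have hgcd : Nat.gcd M.al M.D.P = 1 := Nat.beq_eq.mp t2
  have hmod : (M.al + M.cp) % M.Q = M.cm % M.Q := Nat.beq_eq.mp t3
  have hpair : ∀ a b, a < M.D.K → b < a → (M.wt a ≠ M.wt b) ∧ ∀ r, 2 * r ≤ M.D.P →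
      M.ps a r % M.Q = M.ps b r % M.Q → M.ps a r = M.ps b r := by
    intro a b ha hb
    have h := allN_iff.mp (allN_iff.mp t4 a ha) b hb
    rw [an_iff, orr_iff, ng_iff] at h
    refine ⟨?_, ?_⟩
    · intro he
      rcases h.1 with h1 | h1
      · have := Nat.beq_eq.mp h1; omega
      · exact h1 (Nat.beq_eq.mpr he)
    · intro r hr he
      have h2 := allN_iff.mp h.2 r (by
        show r < M.D.P / 2 + 1
        omega)
      rw [fN_eq, fN_eq, orr_iff, ng_iff] at h2
      rcases h2 with h3 | h3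
      · exact Nat.beq_eq.mp h3
      · exact absurd (Nat.beq_eq.mpr he) h3
  have hinj : Function.Injective M.wz := by
    intro a b hab
    have hab' : M.wt a = M.wt b := by unfold wz at hab; exact_mod_cast hab
    by_contra hne
    have hne' : (a : ℕ) ≠ b := fun h => hne (Fin.ext h)
    rcases lt_or_gt_of_ne hne' with h | h
    · exact (hpair b a b.2 h).1 hab'.symm
    · exact (hpair a b a.2 h).1 hab'
  have hN0 : 0 < M.N := Nat.mul_pos (by omega) (by omega)
  have : NeZero M.N := ⟨by omega⟩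
  -- the fixed point
  set o : Fin M.D.K := Fin.ofNat M.D.K M.D.o with ho
  have h0 : M.D.F o 0 = o := hB.zero o
  set u : ℕ → Fin M.D.K := fixw M.D.F o M.D.P hP2 with hudef
  have hu : ∀ n r : ℕ, r < M.D.P → u (M.D.P * n + r) = M.D.F (u n) r := fun n r hr => fixw_spec hP2 h0 n r hr
  have hrich : RichSeq u := by
    refine richSeq hB (two_spec hB hu) hcert (U := two u) (fun n => ?_)
    unfold two
    rw [if_pos (by positivity), Int.toNat_natCast]
  have hsum : ∀ a, PS M.wz (M.fb a) M.D.P = (M.Q : ℤ) * M.wz a + ((M.cp : ℤ) - M.cm) := by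
    intro a
    rw [ps_eq hA hS a _ le_rfl]
    unfold chkS at hS
    have h := allN_iff.mp hS a a.2
    rw [an_iff, an_iff] at h
    have h2 : M.ps a M.D.P + M.cm = M.Q * M.wt a + M.cp := Nat.beq_eq.mp h.2.1
    have h3 : (M.ps a M.D.P : ℤ) + M.cm = M.Q * M.wt a + M.cp := by exact_mod_cast h2
    unfold wz
    linarith
  have hpal : ∀ a r, r < M.D.P → M.fb a (M.D.P - 1 - r) = M.fb a r := by
    intro a r hr
    have := hB.pal a r (by omega) (by omega)
    unfold fb
    rw [← this]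
    congr 1
    push_cast [Nat.cast_sub (show r ≤ M.D.P - 1 by omega), Nat.cast_sub (show 1 ≤ M.D.P by omega)]
    ring
  have hsep : ∀ a b r, 2 * r ≤ M.D.P → (M.Q : ℤ) ∣ PS M.wz (M.fb a) r - PS M.wz (M.fb b) r →
      PS M.wz (M.fb a) r = PS M.wz (M.fb b) r := by
    intro a b r hr hd
    rw [ps_eq hA hS a r (by omega), ps_eq hA hS b r (by omega)] at hd ⊢
    have hm : M.ps a r % M.Q = M.ps b r % M.Q := by
      have h1 : (M.ps a r : ℤ) % M.Q = (M.ps b r : ℤ) % M.Q :=
        Int.emod_eq_emod_iff_emod_sub_eq_zero.mpr (Int.emod_eq_zero_of_dvd hd)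
      exact_mod_cast h1
    rcases lt_trichotomy (a : ℕ) b with h | h | h
    · exact_mod_cast ((hpair b a b.2 h).2 r hr hm.symm).symm
    · rw [Fin.ext h]
    · exact_mod_cast (hpair a b a.2 h).2 r hr hm
  -- the value of a signed point
  have hval : ∀ (a : Fin M.D.K) (r : ℤ), -(M.D.P : ℤ) < 2 * r ∧ 2 * r ≤ M.D.P →
      (((M.al : ℤ) * r + M.D.P * ST M.wz M.fb a r : ℤ) : ZMod M.N) ∈ M.Pts := by
    intro a r hr
    rcases le_or_gt 0 r with h | h
    · obtain ⟨ρ, rfl⟩ : ∃ ρ : ℕ, r = ρ := ⟨r.toNat, by omega⟩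
      refine ⟨a, ρ, a.2, by omega, Or.inl ?_⟩
      unfold ST pt
      rw [if_pos h, Int.toNat_natCast, ps_eq hA hS a ρ (by omega)]
      push_cast; ring
    · obtain ⟨ρ, rfl⟩ : ∃ ρ : ℕ, r = -ρ := ⟨(-r).toNat, by omega⟩
      refine ⟨a, ρ, a.2, by omega, Or.inr ?_⟩
      unfold ST pt
      rw [if_neg (by omega), neg_neg, Int.toNat_natCast, ps_eq hA hS a ρ (by omega)]
      push_cast; ring
  -- multiples of the lattice vanish
  have hcQ : (M.Q : ℤ) ∣ (M.al : ℤ) + ((M.cp : ℤ) - M.cm) := by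
    have h1 : ((M.al + M.cp : ℕ) : ℤ) % M.Q = ((M.cm : ℕ) : ℤ) % M.Q := by exact_mod_cast hmod
    have h3 := Int.emod_eq_emod_iff_emod_sub_eq_zero.mp h1
    have h4 := Int.dvd_of_emod_eq_zero h3
    push_cast at h4
    have : (M.al : ℤ) + ((M.cp : ℤ) - M.cm) = M.al + M.cp - M.cm := by ring
    rw [this]; exact h4
  have hzero : ∀ x y j : ℤ, x = M.D.P * j → (M.Q : ℤ) ∣ y - ((M.cp : ℤ) - M.cm) * j →
      (((M.al : ℤ) * x + M.D.P * y : ℤ) : ZMod M.N) = 0 := by
    intro x y j hx hy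
    rw [ZMod.intCast_zmod_eq_zero_iff_dvd]
    obtain ⟨k, hk⟩ := hy
    obtain ⟨k', hk'⟩ := hcQ
    have hNz : (M.N : ℤ) = M.D.P * M.Q := by
      show ((M.D.P * M.Q : ℕ) : ℤ) = _
      push_cast; ring
    rw [hNz]
    refine ⟨k' * j + k, ?_⟩
    have hy' : y = M.Q * k + ((M.cp : ℤ) - M.cm) * j := by linarith
    rw [hx, hy']
    have : (M.al : ℤ) * (M.D.P * j) + M.D.P * (M.Q * k + ((M.cp : ℤ) - M.cm) * j) =
        M.D.P * (((M.al : ℤ) + ((M.cp : ℤ) - M.cm)) * j + M.Q * k) := by ring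
    rw [this, hk']; ring
  have hfin : ∀ (x y : ℤ), |x| < M.D.P → (((M.al : ℤ) * x + M.D.P * y : ℤ) : ZMod M.N) = 0 →
      x = 0 ∧ (M.Q : ℤ) ∣ y := by
    intro x y hx h
    rw [ZMod.intCast_zmod_eq_zero_iff_dvd] at h
    have hNz : (M.N : ℤ) = M.D.P * M.Q := by
      show ((M.D.P * M.Q : ℕ) : ℤ) = _
      push_cast; ring
    rw [hNz] at h
    have hPd : (M.D.P : ℤ) ∣ M.al * x := by
      have h1 : (M.D.P : ℤ) ∣ (M.al : ℤ) * x + M.D.P * y := (Dvd.intro _ rfl).trans h
      have h2 : (M.D.P : ℤ) ∣ (M.D.P : ℤ) * y := Dvd.intro _ rfl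
      exact (dvd_add_left h2).mp h1
    have hco : IsCoprime (M.D.P : ℤ) (M.al : ℤ) := by
      rw [Int.isCoprime_iff_gcd_eq_one, Int.gcd_natCast_natCast, Nat.gcd_comm]; exact hgcd
    have hPx : (M.D.P : ℤ) ∣ x := hco.dvd_of_dvd_mul_left hPd
    have hx0 : x = 0 := Int.eq_zero_of_abs_lt_dvd hPx hx
    refine ⟨hx0, ?_⟩
    rw [hx0, mul_zero, zero_add] at h
    exact Int.dvd_of_mul_dvd_mul_left (by omega) h
  have hAP : ∀ (a b d e : Fin M.D.K) (r₀ r₁ r₂ r₃ j k : ℤ), (-(M.D.P : ℤ) < 2 * r₀ ∧ 2 * r₀ ≤ M.D.P) →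
      (-(M.D.P : ℤ) < 2 * r₁ ∧ 2 * r₁ ≤ M.D.P) → (-(M.D.P : ℤ) < 2 * r₂ ∧ 2 * r₂ ≤ M.D.P) →
      (-(M.D.P : ℤ) < 2 * r₃ ∧ 2 * r₃ ≤ M.D.P) → r₀ + r₂ - 2 * r₁ = M.D.P * j → r₁ + r₃ - 2 * r₂ = M.D.P * k →
      (M.Q : ℤ) ∣ ST M.wz M.fb a r₀ + ST M.wz M.fb d r₂ - 2 * ST M.wz M.fb b r₁ - ((M.cp : ℤ) - M.cm) * j →
      (M.Q : ℤ) ∣ ST M.wz M.fb b r₁ + ST M.wz M.fb e r₃ - 2 * ST M.wz M.fb d r₂ - ((M.cp : ℤ) - M.cm) * k →
      r₀ = r₁ ∧ (M.Q : ℤ) ∣ ST M.wz M.fb a r₀ - ST M.wz M.fb b r₁ := by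
    intro a b d e r₀ r₁ r₂ r₃ j k i0 i1 i2 i3 hj hk hj' hk'
    set z0 : ZMod M.N := (((M.al : ℤ) * r₀ + M.D.P * ST M.wz M.fb a r₀ : ℤ) : ZMod M.N) with hz0
    set z1 : ZMod M.N := (((M.al : ℤ) * r₁ + M.D.P * ST M.wz M.fb b r₁ : ℤ) : ZMod M.N) with hz1
    set z2 : ZMod M.N := (((M.al : ℤ) * r₂ + M.D.P * ST M.wz M.fb d r₂ : ℤ) : ZMod M.N) with hz2
    set z3 : ZMod M.N := (((M.al : ℤ) * r₃ + M.D.P * ST M.wz M.fb e r₃ : ℤ) : ZMod M.N) with hz3
    have e1 : z0 + z2 - 2 * z1 = 0 := by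
      have := hzero _ _ j hj hj'
      rw [hz0, hz1, hz2]
      rw [← this]; push_cast; ring
    have e2 : z1 + z3 - 2 * z2 = 0 := by
      have := hzero _ _ k hk hk'
      rw [hz1, hz2, hz3]
      rw [← this]; push_cast; ring
    have hd : z2 - z1 = 0 := by
      refine noAP hN0 hV hX (z := z1) (hval b r₁ i1) ?_ ?_ ?_
      · have : z1 - (z2 - z1) = z0 := by linear_combination - e1
        rw [this]; exact hval a r₀ i0
      · have : z1 + (z2 - z1) = z2 := by ring
        rw [this]; exact hval d r₂ i2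
      · have : z1 + 2 * (z2 - z1) = z3 := by linear_combination - e2
        rw [this]; exact hval e r₃ i3
    have h01 : z0 - z1 = 0 := by linear_combination e1 - hd
    have h := hfin (r₀ - r₁) (ST M.wz M.fb a r₀ - ST M.wz M.fb b r₁) (by rw [abs_lt]; constructor <;> omega) (by
      rw [← h01, hz0, hz1]; push_cast; ring)
    exact ⟨by omega, h.2⟩
  have hcube := no_cube_signed (w := M.wz) (u := u) (f := M.fb) (P := M.D.P) (Q := (M.Q : ℤ))
    (c := (M.cp : ℤ) - M.cm) hP2 (by omega) hu hpal hsum hsep hAP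
  refine ⟨Finset.univ.image M.wz, fun n => M.wz (u n), fun i => Finset.mem_image_of_mem _ (Finset.mem_univ _),
    rich_map hinj hrich, ?_⟩
  intro i l hl hcon
  have hPS : ∀ n, PS (fun x => x) (fun n => M.wz (u n)) n = PS M.wz u n := fun n => rfl
  rw [sum_factor, sum_factor, sum_factor, hPS, hPS, hPS, hPS, hPS] at hcon
  refine hcube l i hl ⟨?_, ?_⟩
  · have := hcon.1
    rw [show i + l + l = i + 2 * l by ring] at this
    linarith
  · have := hcon.2
    rw [show i + l + l = i + 2 * l by ring, show i + 2 * l + l = i + 3 * l by ring] at this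
    linarith

end Ker.Num

end Pool.Agent.E25
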