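import Mathlib.Data.Int.ModEq
import Mathlib.Algebra.BigOperators.Intervals
import Mathlib.Tactic

/-!
Dekking descent for uniform substitutions with weights: if the prefix values of the images, taken modulo
`(P, Q)`, contain no nonconstant arithmetic progression with four terms and determine the exact values, then
the fixed points have no additive cube.
-/

set_option autoImplicit false

namespace Pool.Agent.E25

/-- The sum of the first `n` weights. -/
def PS {α : Type*} (w : α → ℤ) (u : ℕ → α) (n : ℕ) : ℤ := ∑ i ∈ Finset.range n, w (u i)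

lemma PS_zero {α : Type*} (w : α → ℤ) (u : ℕ → α) : PS w u 0 = 0 := by simp [PS]

lemma PS_succ {α : Type*} (w : α → ℤ) (u : ℕ → α) (n : ℕ) : PS w u (n + 1) = PS w u n + w (u n) := by
  simp [PS, Finset.sum_range_succ]

lemma meq {n a b : ℤ} (h : a = b) : a ≡ b [ZMOD n] := h ▸ Int.ModEq.refl _

/-- Values of the sums of a fixed point. -/
lemma PS_block {α : Type*} {w : α → ℤ} {u : ℕ → α} {f : α → ℕ → α} {P : ℕ} {Q : ℤ}
    (hu : ∀ n r, r < P → u (P * n + r) = f (u n) r)
    (hsum : ∀ a, PS w (f a) P = Q * w a) (n r : ℕ) (hr : r ≤ P) :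
    PS w u (P * n + r) = Q * PS w u n + PS w (f (u n)) r := by
  have step : ∀ n : ℕ, PS w u (P * n) = Q * PS w u n →
      ∀ r, r ≤ P → PS w u (P * n + r) = Q * PS w u n + PS w (f (u n)) r := by
    intro n hn r
    induction r with
    | zero => intro _; simp [hn, PS_zero]
    | succ r ih =>
      intro hr
      rw [← add_assoc, PS_succ, ih (by omega), hu n r (by omega), PS_succ]; ring
  have base : ∀ n : ℕ, PS w u (P * n) = Q * PS w u n := by
    intro n
    induction n with
    | zero => simp [PS_zero]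
    | succ n ih =>
      have h := step n ih P le_rfl
      rw [Nat.mul_succ, h, hsum, PS_succ]; ring
  exact step n (base n) r hr

/-- **Dekking descent.** -/
theorem no_cube {α : Type*} {w : α → ℤ} {u : ℕ → α} {f : α → ℕ → α} {P : ℕ} {Q : ℤ} (hP : 2 ≤ P) (hQ : Q ≠ 0)
    (hu : ∀ n r, r < P → u (P * n + r) = f (u n) r)
    (hsum : ∀ a, PS w (f a) P = Q * w a)
    (hsep : ∀ a b r, r < P → PS w (f a) r ≡ PS w (f b) r [ZMOD Q] → PS w (f a) r = PS w (f b) r)
    (hAP : ∀ (a b c d : α) (r₀ r₁ r₂ r₃ : ℕ), r₀ < P → r₁ < P → r₂ < P → r₃ < P →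
      (r₀ : ℤ) + r₂ ≡ 2 * r₁ [ZMOD P] → (r₁ : ℤ) + r₃ ≡ 2 * r₂ [ZMOD P] →
      PS w (f a) r₀ + PS w (f c) r₂ ≡ 2 * PS w (f b) r₁ [ZMOD Q] →
      PS w (f b) r₁ + PS w (f d) r₃ ≡ 2 * PS w (f c) r₂ [ZMOD Q] →
      r₀ = r₁ ∧ PS w (f a) r₀ ≡ PS w (f b) r₁ [ZMOD Q]) :
    ∀ l i : ℕ, 1 ≤ l →
      ¬ (PS w u i + PS w u (i + 2 * l) = 2 * PS w u (i + l) ∧
          PS w u (i + l) + PS w u (i + 3 * l) = 2 * PS w u (i + 2 * l)) := by
  intro l
  induction l using Nat.strong_induction_on with
  | _ l ih =>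
    rintro i hl ⟨h1, h2⟩
    have hP0 : 0 < P := by omega
    -- the four points
    have dec : ∀ m : ℕ, PS w u m = Q * PS w u (m / P) + PS w (f (u (m / P))) (m % P) := by
      intro m
      conv_lhs => rw [← Nat.div_add_mod m P]
      exact PS_block hu hsum _ _ (Nat.mod_lt _ hP0).le
    have hlt : ∀ m : ℕ, m % P < P := fun m => Nat.mod_lt _ hP0
    have hmod : ∀ m : ℕ, ((m % P : ℕ) : ℤ) ≡ (m : ℤ) [ZMOD P] := fun m => by
      rw [Int.natCast_mod]; exact Int.mod_modEq _ _
    have hmodQ : ∀ m : ℕ, PS w (f (u (m / P))) (m % P) ≡ PS w u m [ZMOD Q] := by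
      intro m
      rw [dec m]
      have : PS w (f (u (m / P))) (m % P) ≡ Q * PS w u (m / P) + PS w (f (u (m / P))) (m % P) [ZMOD Q] := by
        refine (Int.modEq_iff_dvd.mpr ⟨PS w u (m / P), ?_⟩); ring
      exact this
    -- differences mod P and mod Q
    have key : ∀ j : ℕ, PS w u j + PS w u (j + 2 * l) = 2 * PS w u (j + l) →
        PS w u (j + l) + PS w u (j + 3 * l) = 2 * PS w u (j + 2 * l) →
        j % P = (j + l) % P ∧
        PS w (f (u (j / P))) (j % P) ≡ PS w (f (u ((j + l) / P))) ((j + l) % P) [ZMOD Q] := by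
      intro j e1 e2
      refine hAP (u (j / P)) (u ((j + l) / P)) (u ((j + 2 * l) / P)) (u ((j + 3 * l) / P)) _ _ ((j + 2 * l) % P)
        ((j + 3 * l) % P) (hlt _) (hlt _) (hlt _) (hlt _) ?_ ?_ ?_ ?_
      · refine ((hmod j).add (hmod (j + 2 * l))).trans (Int.ModEq.trans ?_ ((hmod (j + l)).symm.mul_left 2))
        refine meq ?_; push_cast; ring
      · refine ((hmod (j + l)).add (hmod (j + 3 * l))).trans (Int.ModEq.trans ?_ ((hmod (j + 2 * l)).symm.mul_left 2))
        refine meq ?_; push_cast; ring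
      · refine ((hmodQ j).add (hmodQ (j + 2 * l))).trans (Int.ModEq.trans ?_ ((hmodQ (j + l)).symm.mul_left 2))
        exact meq e1
      · refine ((hmodQ (j + l)).add (hmodQ (j + 3 * l))).trans
          (Int.ModEq.trans ?_ ((hmodQ (j + 2 * l)).symm.mul_left 2))
        exact meq e2
    obtain ⟨hr, hs⟩ := key i h1 h2
    -- P divides l
    have hdvd : P ∣ l := by
      have h : i ≡ i + l [MOD P] := hr
      have := (Nat.modEq_iff_dvd' (by omega : i ≤ i + l)).mp h
      simpa using this
    obtain ⟨l', rfl⟩ := hdvd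
    have hl' : 1 ≤ l' := by
      rcases Nat.eq_zero_or_pos l' with h | h
      · subst h; simp at hl
      · exact h
    have hlt' : l' < P * l' := by nlinarith
    have hr2 : ∀ k : ℕ, (i + k * (P * l')) % P = i % P := by
      intro k
      rw [show i + k * (P * l') = i + P * (k * l') by ring, Nat.add_mul_mod_self_left]
    have hd2 : ∀ k : ℕ, (i + k * (P * l')) / P = i / P + k * l' := by
      intro k
      rw [show i + k * (P * l') = i + P * (k * l') by ring, Nat.add_mul_div_left _ _ hP0]
    -- the four exact block values agree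
    have V : ∀ k : ℕ, PS w u (i + k * (P * l')) =
        Q * PS w u (i / P + k * l') + PS w (f (u (i / P + k * l'))) (i % P) := by
      intro k
      have h := dec (i + k * (P * l'))
      rwa [hr2, hd2] at h
    have V0 : PS w u i = Q * PS w u (i / P) + PS w (f (u (i / P))) (i % P) := dec i
    have V1 := V 1
    have V2 := V 2
    have V3 := V 3
    rw [one_mul, one_mul] at V1
    have e01 : PS w (f (u (i / P))) (i % P) = PS w (f (u (i / P + l'))) (i % P) := by
      refine hsep _ _ _ (hlt i) ?_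
      have h := hs
      have a1 : (i + P * l') / P = i / P + l' := by have := hd2 1; simpa using this
      have a2 : (i + P * l') % P = i % P := by simp
      rwa [a1, a2] at h
    -- values mod Q of the other two
    have q0 := hmodQ i
    have q1 : PS w (f (u (i / P + l'))) (i % P) ≡ PS w u (i + P * l') [ZMOD Q] := by
      have := hmodQ (i + 1 * (P * l')); rw [hr2, hd2] at this; simpa using this
    have q2 : PS w (f (u (i / P + 2 * l'))) (i % P) ≡ PS w u (i + 2 * (P * l')) [ZMOD Q] := by
      have := hmodQ (i + 2 * (P * l')); rwa [hr2, hd2] at this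
    have q3 : PS w (f (u (i / P + 3 * l'))) (i % P) ≡ PS w u (i + 3 * (P * l')) [ZMOD Q] := by
      have := hmodQ (i + 3 * (P * l')); rwa [hr2, hd2] at this
    have hS01 : PS w u i ≡ PS w u (i + P * l') [ZMOD Q] :=
      q0.symm.trans ((meq e01).trans q1)
    have hS12 : PS w u (i + P * l') ≡ PS w u (i + 2 * (P * l')) [ZMOD Q] := by
      have h : PS w u (i + 2 * (P * l')) = 2 * PS w u (i + P * l') - PS w u i := by linarith
      rw [h]
      have h3 : (2 * PS w u (i + P * l') - PS w u i : ℤ) ≡ 2 * PS w u (i + P * l') - PS w u (i + P * l')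
          [ZMOD Q] := (Int.ModEq.refl _).sub hS01
      refine Int.ModEq.trans (meq ?_) h3.symm
      ring
    have hS23 : PS w u (i + 2 * (P * l')) ≡ PS w u (i + 3 * (P * l')) [ZMOD Q] := by
      have h : PS w u (i + 3 * (P * l')) = 2 * PS w u (i + 2 * (P * l')) - PS w u (i + P * l') := by linarith
      rw [h]
      have h3 : (2 * PS w u (i + 2 * (P * l')) - PS w u (i + P * l') : ℤ) ≡
          2 * PS w u (i + 2 * (P * l')) - PS w u (i + 2 * (P * l')) [ZMOD Q] := (Int.ModEq.refl _).sub hS12
      refine Int.ModEq.trans (meq ?_) h3.symm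
      ring
    have e12 : PS w (f (u (i / P + l'))) (i % P) = PS w (f (u (i / P + 2 * l'))) (i % P) :=
      hsep _ _ _ (hlt i) (q1.trans (hS12.trans q2.symm))
    have e23 : PS w (f (u (i / P + 2 * l'))) (i % P) = PS w (f (u (i / P + 3 * l'))) (i % P) :=
      hsep _ _ _ (hlt i) (q2.trans (hS23.trans q3.symm))
    refine ih l' hlt' (i / P) hl' ⟨?_, ?_⟩
    · have : Q * (PS w u (i / P) + PS w u (i / P + 2 * l')) = Q * (2 * PS w u (i / P + l')) := by
        rw [V0, V1, V2] at h1; linarith
      exact mul_left_cancel₀ hQ this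
    · have : Q * (PS w u (i / P + l') + PS w u (i / P + 3 * l')) = Q * (2 * PS w u (i / P + 2 * l')) := by
        rw [V1, V2, V3] at h2; linarith
      exact mul_left_cancel₀ hQ this

end Pool.Agent.E25
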