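import Pool.Agent.E25.Aff

/-!
Dekking descent for uniform substitutions with palindromic blocks, signed form: a boundary `P m + r` with `|r| ≤ P / 2` is
referred to the nearest block boundary, and the prefix points of the left halves of the blocks, together with their
negatives, are considered modulo the lattice generated by `(P, c)` and `(0, Q)`.
-/

set_option autoImplicit false

namespace Pool.Agent.E25

/-- The signed prefix sums of a block. -/
def ST {α : Type*} (w : α → ℤ) (f : α → ℕ → α) (a : α) (r : ℤ) : ℤ :=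
  if 0 ≤ r then PS w (f a) r.toNat else -PS w (f a) (-r).toNat

/-- The prefix and the suffix sums of a palindrome. -/
lemma PS_pal {α : Type*} {w : α → ℤ} {g : ℕ → α} {P : ℕ} (hpal : ∀ r, r < P → g (P - 1 - r) = g r) :
    ∀ r, r ≤ P → PS w g r + PS w g (P - r) = PS w g P := by
  intro r
  induction r with
  | zero => intro _; simp [PS_zero]
  | succ r ih =>
    intro hr
    have h1 := ih (by omega)
    have h2 : P - r = (P - (r + 1)) + 1 := by omega
    rw [h2, PS_succ] at h1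
    rw [PS_succ]
    have h3 : g (P - (r + 1)) = g r := by
      rw [show P - (r + 1) = P - 1 - r by omega]; exact hpal r (by omega)
    rw [h3] at h1
    linarith

/-- The decomposition of a boundary. -/
lemma signed_dec {α : Type*} {w : α → ℤ} {u : ℕ → α} {f : α → ℕ → α} {P : ℕ} {Q c : ℤ} (hP : 2 ≤ P)
    (hu : ∀ n r, r < P → u (P * n + r) = f (u n) r) (hpal : ∀ a r, r < P → f a (P - 1 - r) = f a r)
    (hsum : ∀ a, PS w (f a) P = Q * w a + c) (j : ℕ) :
    ∃ (m : ℕ) (r : ℤ) (a : α), (j : ℤ) = P * m + r ∧ (-(P : ℤ) < 2 * r ∧ 2 * r ≤ P) ∧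
      PS w u j = Q * PS w u m + c * m + ST w f a r := by
  have hP0 : 0 < P := by omega
  have hdm : (j : ℤ) = P * ((j / P : ℕ) : ℤ) + ((j % P : ℕ) : ℤ) := by exact_mod_cast (Nat.div_add_mod j P).symm
  have hlt : j % P < P := Nat.mod_lt _ hP0
  have hdec : PS w u j = Q * PS w u (j / P) + c * ((j / P : ℕ) : ℤ) + PS w (f (u (j / P))) (j % P) := by
    conv_lhs => rw [← Nat.div_add_mod j P]
    exact PS_block_aff hu hsum _ _ hlt.le
  rcases le_or_gt (2 * (j % P)) P with h | h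
  · refine ⟨j / P, ((j % P : ℕ) : ℤ), u (j / P), hdm, ⟨by omega, by omega⟩, ?_⟩
    rw [ST, if_pos (by positivity), Int.toNat_natCast]
    exact hdec
  · refine ⟨j / P + 1, ((j % P : ℕ) : ℤ) - P, u (j / P), ?_, ⟨by omega, by omega⟩, ?_⟩
    · push_cast
      push_cast at hdm
      linarith
    · have h1 := PS_pal (w := w) (hpal (u (j / P))) (j % P) hlt.le
      rw [hsum] at h1
      rw [ST, if_neg (by omega), show (-(((j % P : ℕ) : ℤ) - P)).toNat = P - j % P by omega, hdec, PS_succ]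
      push_cast
      linarith

/-- The decomposition is unique. -/
lemma signed_uniq {P : ℕ} {m m' r r' : ℤ} (hr : -(P : ℤ) < 2 * r ∧ 2 * r ≤ P)
    (hr' : -(P : ℤ) < 2 * r' ∧ 2 * r' ≤ P) (h : (P : ℤ) * m + r = P * m' + r') : m = m' ∧ r = r' := by
  have h1 : (P : ℤ) * (m - m') = r' - r := by linarith
  have h2 : m - m' = 0 := by
    rcases lt_trichotomy (m - m') 0 with h3 | h3 | h3
    · exfalso
      have h4 : (P : ℤ) * (m - m') ≤ -P := by nlinarith
      omega
    · exact h3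
    · exfalso
      have h4 : (P : ℤ) ≤ P * (m - m') := by nlinarith
      omega
  rw [h2, mul_zero] at h1
  exact ⟨by omega, by omega⟩

/-- **Dekking descent**, signed form. -/
theorem no_cube_signed {α : Type*} {w : α → ℤ} {u : ℕ → α} {f : α → ℕ → α} {P : ℕ} {Q c : ℤ} (hP : 2 ≤ P)
    (hQ : Q ≠ 0) (hu : ∀ n r, r < P → u (P * n + r) = f (u n) r)
    (hpal : ∀ a r, r < P → f a (P - 1 - r) = f a r)
    (hsum : ∀ a, PS w (f a) P = Q * w a + c)
    (hsep : ∀ a b r, 2 * r ≤ P → Q ∣ PS w (f a) r - PS w (f b) r → PS w (f a) r = PS w (f b) r)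
    (hAP : ∀ (a b d e : α) (r₀ r₁ r₂ r₃ j k : ℤ), (-(P : ℤ) < 2 * r₀ ∧ 2 * r₀ ≤ P) →
      (-(P : ℤ) < 2 * r₁ ∧ 2 * r₁ ≤ P) → (-(P : ℤ) < 2 * r₂ ∧ 2 * r₂ ≤ P) → (-(P : ℤ) < 2 * r₃ ∧ 2 * r₃ ≤ P) →
      r₀ + r₂ - 2 * r₁ = P * j → r₁ + r₃ - 2 * r₂ = P * k →
      Q ∣ ST w f a r₀ + ST w f d r₂ - 2 * ST w f b r₁ - c * j →
      Q ∣ ST w f b r₁ + ST w f e r₃ - 2 * ST w f d r₂ - c * k →
      r₀ = r₁ ∧ Q ∣ ST w f a r₀ - ST w f b r₁) :
    ∀ l i : ℕ, 1 ≤ l →
      ¬ (PS w u i + PS w u (i + 2 * l) = 2 * PS w u (i + l) ∧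
          PS w u (i + l) + PS w u (i + 3 * l) = 2 * PS w u (i + 2 * l)) := by
  -- separation of the signed sums
  have hsep' : ∀ (a b : α) (r : ℤ), (-(P : ℤ) < 2 * r ∧ 2 * r ≤ P) → Q ∣ ST w f a r - ST w f b r →
      ST w f a r = ST w f b r := by
    intro a b r hr hd
    unfold ST at hd ⊢
    split_ifs at hd ⊢ with h
    · exact hsep a b _ (by omega) hd
    · have h1 : Q ∣ PS w (f a) (-r).toNat - PS w (f b) (-r).toNat := by
        have := (dvd_neg (a := Q)).2 hd
        refine this.trans (dvd_of_eq (by ring))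
      rw [hsep a b _ (by omega) h1]
  intro l
  induction l using Nat.strong_induction_on with
  | _ l ih =>
    rintro i hl ⟨h1, h2⟩
    obtain ⟨m0, r0, a0, j0, b0, s0⟩ := signed_dec hP hu hpal hsum i
    obtain ⟨m1, r1, a1, j1, b1, s1⟩ := signed_dec hP hu hpal hsum (i + l)
    obtain ⟨m2, r2, a2, j2, b2, s2⟩ := signed_dec hP hu hpal hsum (i + 2 * l)
    obtain ⟨m3, r3, a3, j3, b3, s3⟩ := signed_dec hP hu hpal hsum (i + 3 * l)
    simp only [Nat.cast_add, Nat.cast_mul, Nat.cast_ofNat] at j1 j2 j3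
    obtain ⟨hr, hs⟩ : r0 = r1 ∧ Q ∣ ST w f a0 r0 - ST w f a1 r1 := by
      refine hAP a0 a1 a2 a3 r0 r1 r2 r3 (-((m0 : ℤ) + m2 - 2 * m1)) (-((m1 : ℤ) + m3 - 2 * m2)) b0 b1 b2 b3 ?_ ?_ ?_ ?_
      · linear_combination - j0 - j2 + 2 * j1
      · linear_combination - j1 - j3 + 2 * j2
      · refine ⟨-(PS w u m0 + PS w u m2 - 2 * PS w u m1), ?_⟩
        linear_combination h1 - s0 - s2 + 2 * s1
      · refine ⟨-(PS w u m1 + PS w u m3 - 2 * PS w u m2), ?_⟩
        linear_combination h2 - s1 - s3 + 2 * s2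
    subst hr
    -- the period is a multiple of `P`
    have hl0 : (l : ℤ) = P * ((m1 : ℤ) - m0) := by linear_combination j1 - j0
    have hP1 : (0 : ℤ) < P := by exact_mod_cast (by omega : 0 < P)
    have hm : (0 : ℤ) < (m1 : ℤ) - m0 := by
      by_contra hcon
      have h3 : (P : ℤ) * ((m1 : ℤ) - m0) ≤ 0 := mul_nonpos_of_nonneg_of_nonpos hP1.le (not_lt.1 hcon)
      omega
    obtain ⟨l', hl'⟩ : ∃ l' : ℕ, m1 = m0 + l' := ⟨m1 - m0, by omega⟩
    have hm2 : (m2 : ℤ) = m0 + 2 * l' ∧ r2 = r0 := by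
      refine signed_uniq b2 b0 ?_
      have e1 : (l : ℤ) = P * l' := by rw [hl0, hl']; push_cast; ring
      linear_combination - j2 + j0 + 2 * e1
    have hm3 : (m3 : ℤ) = m0 + 3 * l' ∧ r3 = r0 := by
      refine signed_uniq b3 b0 ?_
      have e1 : (l : ℤ) = P * l' := by rw [hl0, hl']; push_cast; ring
      linear_combination - j3 + j0 + 3 * e1
    obtain ⟨hm2, hr2⟩ := hm2
    obtain ⟨hm3, hr3⟩ := hm3
    have hm2' : m2 = m0 + 2 * l' := by omega
    have hm3' : m3 = m0 + 3 * l' := by omega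
    subst hl' hm2' hm3' hr2 hr3
    push_cast at s0 s1 s2 s3
    have e01 : ST w f a0 r3 = ST w f a1 r3 := hsep' _ _ _ b0 hs
    have e12 : ST w f a2 r3 = ST w f a1 r3 := by
      refine hsep' _ _ _ b0 ⟨-(PS w u m0 + PS w u (m0 + 2 * l') - 2 * PS w u (m0 + l')), ?_⟩
      rw [s0, s1, s2, e01] at h1
      linarith
    have e23 : ST w f a3 r3 = ST w f a1 r3 := by
      refine hsep' _ _ _ b0 ⟨-(PS w u (m0 + l') + PS w u (m0 + 3 * l') - 2 * PS w u (m0 + 2 * l')), ?_⟩
      rw [s1, s2, s3, e12] at h2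
      linarith
    have hl1 : 1 ≤ l' := by
      rcases Nat.eq_zero_or_pos l' with h | h
      · subst h; simp at hm
      · exact h
    have hlt' : l' < l := by
      have e1 : (l : ℤ) = P * l' := by rw [hl0]; push_cast; ring
      have h3 : (2 : ℤ) * l' ≤ P * l' := by
        have h4 : (2 : ℤ) ≤ P := by exact_mod_cast hP
        have h5 : (0 : ℤ) ≤ l' := by positivity
        nlinarith
      have h6 : (1 : ℤ) ≤ l' := by exact_mod_cast hl1
      omega
    refine ih l' hlt' m0 hl1 ⟨?_, ?_⟩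
    · have : Q * (PS w u m0 + PS w u (m0 + 2 * l')) = Q * (2 * PS w u (m0 + l')) := by
        rw [s0, s1, s2, e01, e12] at h1; linarith
      exact mul_left_cancel₀ hQ this
    · have : Q * (PS w u (m0 + l') + PS w u (m0 + 3 * l')) = Q * (2 * PS w u (m0 + 2 * l')) := by
        rw [s1, s2, s3, e12, e23] at h2; linarith
      exact mul_left_cancel₀ hQ this

end Pool.Agent.E25
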