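import Pool.Agent.E25.RichOf

/-!
A checker for the certificates of richness, by arithmetic of packed natural numbers.

`Y` contains the blocks in base 16, the block of the letter `a` extended by the marker on both sides occupies the
digits `a (P + 2), ..., a (P + 2) + P + 1`.
-/

set_option autoImplicit false

namespace Pool.Agent.E25.Ker

/-- Digit number `i` in base 16. -/
def dg (x i : ℕ) : ℕ := Nat.mod (Nat.shiftRight x (Nat.mul 4 i)) 16

/-- The word of length `l` at position `i`. -/
def nb (x i l : ℕ) : ℕ := Nat.mod (Nat.shiftRight x (Nat.mul 4 i)) (Nat.pow 16 l)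

/-- Entry number `i` of width `w`. -/
def tb (w x i : ℕ) : ℕ := Nat.mod (Nat.shiftRight x (Nat.mul w i)) (Nat.pow 2 w)

/-- Bit number `i`. -/
def bt (m i : ℕ) : Bool := Nat.beq (Nat.mod (Nat.shiftRight m i) 2) 1

/-- And. -/
noncomputable def an (a b : Bool) : Bool := Bool.rec false b a

/-- Implication. -/
noncomputable def im (a b : Bool) : Bool := Bool.rec true b a

/-- Or. -/
noncomputable def orr (a b : Bool) : Bool := Bool.rec b true a

/-- Not. -/
noncomputable def ng (a : Bool) : Bool := Bool.rec true false a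

lemma an_iff {a b : Bool} : an a b = true ↔ a = true ∧ b = true := by cases a <;> cases b <;> simp [an]

lemma im_iff {a b : Bool} : im a b = true ↔ (a = true → b = true) := by cases a <;> cases b <;> simp [im]

lemma orr_iff {a b : Bool} : orr a b = true ↔ (a = true ∨ b = true) := by cases a <;> cases b <;> simp [orr]

lemma ng_iff {a : Bool} : ng a = true ↔ ¬ a = true := by cases a <;> simp [ng]

/-- All numbers below `n`. -/
noncomputable def allN (p : ℕ → Bool) (n : ℕ) : Bool := Nat.rec true (fun k ih => an (p k) ih) n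

lemma allN_iff {p : ℕ → Bool} {n : ℕ} : allN p n = true ↔ ∀ i, i < n → p i = true := by
  induction n with
  | zero => simp [allN]
  | succ n ih =>
    have : allN p (n + 1) = an (p n) (allN p n) := rfl
    rw [this, an_iff, ih]
    constructor
    · rintro ⟨h1, h2⟩ i hi
      rcases Nat.lt_succ_iff_lt_or_eq.mp hi with h | h
      · exact h2 i h
      · rw [h]; exact h1
    · intro h
      exact ⟨h n (by omega), fun i hi => h i (by omega)⟩

/-- Evaluate a number before its use. -/
noncomputable def fN (n : ℕ) (k : ℕ → Bool) : Bool := Nat.rec (k 0) (fun m _ => k (Nat.succ m)) n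

@[simp] lemma fN_eq (n : ℕ) (k : ℕ → Bool) : fN n k = k n := by cases n <;> rfl

/-- All entries of a list. -/
noncomputable def allL {β : Type} (p : β → Bool) (l : List β) : Bool := List.rec true (fun x _ ih => an (p x) ih) l

lemma allL_iff {β : Type} {p : β → Bool} {l : List β} : allL p l = true ↔ ∀ x ∈ l, p x = true := by
  induction l with
  | nil => simp [allL]
  | cons x l ih =>
    have : allL p (x :: l) = an (p x) (allL p l) := rfl
    rw [this, an_iff, ih]; simp

/-- Some entry of a list. -/
noncomputable def anyL {β : Type} (p : β → Bool) (l : List β) : Bool :=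
  List.rec false (fun x _ ih => orr (p x) ih) l

lemma anyL_iff {β : Type} {p : β → Bool} {l : List β} : anyL p l = true ↔ ∃ x ∈ l, p x = true := by
  induction l with
  | nil => simp [anyL]
  | cons x l ih =>
    have : anyL p (x :: l) = orr (p x) (anyL p l) := rfl
    rw [this, orr_iff, ih]; simp

/-- The number with the bits `p`. -/
noncomputable def msk (p : ℕ → Bool) (n : ℕ) : ℕ :=
  Nat.rec 0 (fun e acc => Bool.rec acc (Nat.add (Nat.pow 2 e) acc) (p e)) n

lemma msk_succ (p : ℕ → Bool) (n : ℕ) : msk p (n + 1) = if p n = true then 2 ^ n + msk p n else msk p n := by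
  have : msk p (n + 1) = Bool.rec (msk p n) (Nat.add (Nat.pow 2 n) (msk p n)) (p n) := rfl
  rw [this]
  cases p n <;> simp

lemma msk_lt (p : ℕ → Bool) (n : ℕ) : msk p n < 2 ^ n := by
  induction n with
  | zero => simp [msk]
  | succ n ih =>
    rw [msk_succ, pow_succ]
    split_ifs <;> omega

lemma bt_eq (m i : ℕ) : bt m i = m.testBit i := by
  have h1 : (Nat.mod (Nat.shiftRight m i) 2 = 1) ↔ m.testBit i = true := by
    have : Nat.mod (Nat.shiftRight m i) 2 = (m >>> i) % 2 := rfl
    rw [this, Nat.testBit_eq_decide_div_mod_eq, Nat.shiftRight_eq_div_pow]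
    simp
  unfold bt
  rw [Bool.eq_iff_iff, ← h1, Nat.beq_eq]

lemma bt_msk {p : ℕ → Bool} {n e : ℕ} (he : e < n) : bt (msk p n) e = p e := by
  induction n with
  | zero => omega
  | succ n ih =>
    rw [bt_eq] at *
    rw [msk_succ]
    have hlt := msk_lt p n
    rcases Nat.lt_succ_iff_lt_or_eq.mp he with h | h
    · have := ih h
      split_ifs with hp
      · rw [Nat.testBit_two_pow_add_gt h]; exact this
      · exact this
    · subst h
      split_ifs with hp
      · rw [Nat.testBit_two_pow_add_eq, Nat.testBit_lt_two_pow hlt, hp]; rfl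
      · rw [Nat.testBit_lt_two_pow hlt]
        exact (Bool.eq_false_iff.mpr hp).symm

/-! ### Words -/

lemma dg_eq (x i : ℕ) : dg x i = x / 16 ^ i % 16 := by
  have : dg x i = (x >>> (4 * i)) % 16 := rfl
  rw [this, Nat.shiftRight_eq_div_pow, pow_mul]
  norm_num

lemma nb_eq (x i l : ℕ) : nb x i l = x / 16 ^ i % 16 ^ l := by
  have : nb x i l = (x >>> (4 * i)) % 16 ^ l := rfl
  rw [this, Nat.shiftRight_eq_div_pow, pow_mul]
  norm_num

lemma nb_succ (x i l : ℕ) : nb x i (l + 1) = nb x i l + 16 ^ l * dg x (i + l) := by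
  rw [nb_eq, nb_eq, dg_eq, Nat.mod_pow_succ, Nat.div_div_eq_div_mul, ← pow_add]

lemma dg_lt (x i : ℕ) : dg x i < 16 := by rw [dg_eq]; exact Nat.mod_lt _ (by norm_num)

lemma nb_lt (x i l : ℕ) : nb x i l < 16 ^ l := by rw [nb_eq]; exact Nat.mod_lt _ (by positivity)

lemma nb_congr {x y i j l : ℕ} (h : ∀ t, t < l → dg x (i + t) = dg y (j + t)) : nb x i l = nb y j l := by
  induction l with
  | zero => simp [nb_eq, Nat.mod_one]
  | succ l ih =>
    rw [nb_succ, nb_succ, ih (fun t ht => h t (by omega)), h l (by omega)]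

lemma dg_of_nb {x y i j l : ℕ} (h : nb x i l = nb y j l) : ∀ t, t < l → dg x (i + t) = dg y (j + t) := by
  induction l with
  | zero => intro t ht; omega
  | succ l ih =>
    rw [nb_succ, nb_succ] at h
    have h1 := nb_lt x i l
    have h2 := nb_lt y j l
    have e1 : nb x i l = nb y j l := by
      have := congrArg (· % 16 ^ l) h
      simp only [Nat.add_mul_mod_self_left] at this
      rwa [Nat.mod_eq_of_lt h1, Nat.mod_eq_of_lt h2] at this
    have e2 : dg x (i + l) = dg y (j + l) := by
      rw [e1] at h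
      have h3 : 16 ^ l * dg x (i + l) = 16 ^ l * dg y (j + l) := by omega
      exact Nat.eq_of_mul_eq_mul_left (by positivity) h3
    intro t ht
    rcases Nat.lt_succ_iff_lt_or_eq.mp ht with h' | h'
    · exact ih e1 t h'
    · rw [h']; exact e2

/-! ### The data -/

/-- The data belonging to a set of letters. -/
structure Row where
  /-- the set of letters -/
  m : ℕ
  /-- the position of the first letter of the set -/
  fp : ℕ
  /-- number of nodes -/
  n : ℕ
  /-- lengths -/
  L : ℕ
  /-- ranks -/
  rk : ℕ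
  /-- nodes in increasing order -/
  nd : ℕ

/-- The data. -/
structure Dat where
  /-- number of letters -/
  K : ℕ
  /-- length of the blocks -/
  P : ℕ
  /-- marker -/
  o : ℕ
  /-- blocks -/
  Y : ℕ
  /-- lengths of the common prefixes -/
  A : ℕ
  /-- sets of letters -/
  rows : List Row

namespace Dat

variable (D : Dat)

/-- Position of a digit. -/
def pos (a t : ℕ) : ℕ := Nat.add (Nat.mul a (Nat.add D.P 2)) t

/-- The letter number `t - 1` of the block of `a`. -/
def le (a t : ℕ) : ℕ := dg D.Y (D.pos a t)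

/-- Common prefix. -/
def ag (a b : ℕ) : ℕ := tb 16 D.A (Nat.add (Nat.mul a D.K) b)

/-- Length of the pattern. -/
def Lv (R : Row) (e r : ℕ) : ℕ := tb 16 R.L (Nat.add (Nat.mul e (Nat.succ D.P)) r)

/-- Rank of the pattern. -/
def rv (R : Row) (e r : ℕ) : ℕ := tb 16 R.rk (Nat.add (Nat.mul e (Nat.succ D.P)) r)

/-- Last letter below `n` in the class of a prefix. -/
noncomputable def repN (a r n : ℕ) : ℕ := Nat.rec a (fun e ih => Bool.rec ih e (Nat.ble r (D.ag a e))) n

/-- Representative. -/
noncomputable def rep (a r : ℕ) : ℕ := D.repN a r D.K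

/-- The class of a prefix. -/
noncomputable def cls (a r : ℕ) : ℕ := msk (fun e => Nat.ble r (D.ag a e)) D.K

/-- The class of a prefix, with a letter of a set behind it. -/
noncomputable def nx (R : Row) (a r : ℕ) : ℕ :=
  msk (fun e => an (Nat.ble r (D.ag a e)) (bt R.m (D.le e (Nat.succ r)))) D.K

/-- Is the set one of the sets of the list? -/
noncomputable def inR (x : ℕ) : Bool := anyL (fun R => Nat.beq R.m x) D.rows

/-- The key of a pattern. -/
def key (e r l : ℕ) : ℕ := Nat.add (nb D.Y (D.pos e (Nat.succ (Nat.sub r l))) l) (Nat.pow 16 l)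

/-- Continuation form of the key of a node. -/
noncomputable def keyK (R : Row) (i : ℕ) (k : ℕ → Bool) : Bool :=
  fN (tb 32 R.nd i) fun x => fN (Nat.div x 65536) fun e => fN (Nat.mod x 65536) fun r =>
    fN (D.Lv R e r) fun l => k (D.key e r l)

/-- Check of the pattern. -/
noncomputable def patt (R : Row) (a r e : ℕ) : Bool :=
  fN (D.Lv R e r) fun l => an (Nat.ble l r) (an (bt R.m (D.le a (Nat.sub r l)))
    (an (Nat.beq (nb D.Y (D.pos a (Nat.succ (Nat.sub r l))) l) (nb D.Y (D.pos a (Nat.succ (Nat.sub D.P r))) l))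
      (fN (D.rv R e r) fun k => an (Nat.ble (Nat.succ k) R.n)
        (Nat.beq (tb 32 R.nd k) (Nat.add (Nat.mul e 65536) r)))))

/-- Letters, palindromes, outer letter. -/
noncomputable def chkA : Bool :=
  an (an (Nat.ble (Nat.succ D.o) D.K) (an (Nat.ble 2 D.P) (Nat.ble D.P 65535))) (allN (fun a =>
    an (allN (fun t => an (Nat.ble (Nat.succ (D.le a t)) D.K)
        (Nat.beq (D.le a t) (D.le a (Nat.sub (Nat.succ D.P) t)))) (Nat.add D.P 2))
      (Nat.beq (D.le a 0) D.o)) D.K)

/-- The blocks begin with the outer letter. -/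
noncomputable def chkZ : Bool := allN (fun a => Nat.beq (D.le a 1) D.o) D.K

/-- The marker of two letters occurs at the boundaries only. -/
noncomputable def chkM : Bool :=
  allN (fun a => allN (fun t => ng (an (Nat.beq (D.le a (Nat.add t 1)) D.o) (Nat.beq (D.le a (Nat.add t 2)) D.o)))
    (Nat.sub D.P 1)) D.K

/-- Common prefixes. -/
noncomputable def chkG : Bool :=
  allN (fun a => allN (fun b => fN (D.ag a b) fun g =>
    an (Nat.beq (nb D.Y (D.pos a 0) (Nat.succ g)) (nb D.Y (D.pos b 0) (Nat.succ g)))
      (Bool.rec (an (Nat.ble (Nat.succ g) D.P) (ng (Nat.beq (D.le a (Nat.succ g)) (D.le b (Nat.succ g)))))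
        (Nat.beq g D.P) (Nat.beq a b))) D.K) D.K

/-- Closure. -/
noncomputable def chkC : Bool :=
  allN (fun a => allN (fun r => fN (D.cls a r) fun s0 => fN (D.cls a (Nat.succ r)) fun s1 =>
    Bool.rec (allL (fun R => im (bt R.m (D.le a (Nat.succ r))) (fN (D.nx R a r) D.inR)) D.rows)
      (D.inR s0) (Nat.beq s0 s1)) (Nat.succ D.P)) D.K

/-- Patterns. -/
noncomputable def chkD : Bool :=
  allN (fun a => allN (fun r => fN (D.rep a r) fun e => fN (D.le a (Nat.succ r)) fun y =>
    allL (fun R => im (bt R.m y) (orr (Nat.beq (Nat.succ r) R.fp)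
      (an (Nat.ble (Nat.succ R.fp) (Nat.succ r)) (D.patt R a r e)))) D.rows) (Nat.succ D.P)) D.K

/-- First occurrences. -/
noncomputable def chkN : Bool :=
  allL (fun R => an (im (bt R.m D.o) (Nat.beq R.fp 0)) (allN (fun a => im (bt R.m (D.le a R.fp))
    (allN (fun b => im (bt R.m (D.le b R.fp)) (Nat.ble R.fp (Nat.succ (D.ag a b)))) D.K)) D.K)) D.rows

/-- Order of the nodes. -/
noncomputable def chkR : Bool :=
  allL (fun R => allN (fun i => D.keyK R i fun k => D.keyK R (Nat.succ i) fun k' => Nat.ble (Nat.succ k) k')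
    (Nat.sub R.n 1)) D.rows

/-- The set of all letters. -/
noncomputable def chkU : Bool := anyL (fun R => allN (fun e => bt R.m e) D.K) D.rows

end Dat

end Pool.Agent.E25.Ker
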