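import Pool.Agent.E25.KerS
import Pool.Agent.E25.DekkingS
import Mathlib.Data.ZMod.Basic

/-!
The checker for the condition of Dekking in signed form.
-/

set_option autoImplicit false
set_option linter.unusedSectionVars false
set_option linter.unusedVariables false

namespace Pool.Agent.E25.Ker

/-- The numerical data. -/
structure Num where
  /-- blocks -/
  D : Dat
  /-- factor of the weights -/
  Q : ℕ
  /-- positive part of the constant -/
  cp : ℕ
  /-- negative part of the constant -/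
  cm : ℕ
  /-- weights -/
  W : ℕ
  /-- prefix sums -/
  S : ℕ
  /-- coefficient -/
  al : ℕ
  /-- the set of the points -/
  V : ℕ
  /-- halves of the even points -/
  E0 : ℕ
  /-- halves of the odd points -/
  E1 : ℕ

namespace Num

variable (M : Num)

/-- The order of the group. -/
def N : ℕ := Nat.mul M.D.P M.Q

/-- Weights. -/
def wt (a : ℕ) : ℕ := tb 32 M.W a

/-- Prefix sums. -/
def ps (a t : ℕ) : ℕ := tb 32 M.S (Nat.add (Nat.mul a (Nat.succ M.D.P)) t)

/-- The point. -/
def ph (a r : ℕ) : ℕ := Nat.mod (Nat.add (Nat.mul M.al r) (Nat.mul M.D.P (M.ps a r))) M.N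

/-- A number and its copy. -/
def dbl (x : ℕ) : ℕ := Nat.lor x (Nat.shiftLeft x M.N)

/-- Halves. -/
noncomputable def E (b : ℕ) : ℕ := Bool.rec M.E1 M.E0 (Nat.beq b 0)

/-- Membership of a point. -/
noncomputable def mem (x : ℕ) : Bool :=
  an (bt M.V x) (an (bt (M.E (Nat.mod x 2)) (Nat.div x 2))
    (bt (M.E (Nat.mod (Nat.add x M.N) 2)) (Nat.div (Nat.add x M.N) 2)))

/-- Prefix sums. -/
noncomputable def chkS : Bool :=
  allN (fun a => an (Nat.beq (M.ps a 0) 0) (an
    (Nat.beq (Nat.add (M.ps a M.D.P) M.cm) (Nat.add (Nat.mul M.Q (M.wt a)) M.cp))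
    (allN (fun t => Nat.beq (M.ps a (Nat.succ t)) (Nat.add (M.ps a t) (M.wt (M.D.le a (Nat.succ t))))) M.D.P)))
    M.D.K

/-- Separation, coefficients. -/
noncomputable def chkT : Bool :=
  an (an (Nat.ble 1 M.Q) (an (Nat.beq (Nat.gcd M.al M.D.P) 1)
      (Nat.beq (Nat.mod (Nat.add M.al M.cp) M.Q) (Nat.mod M.cm M.Q))))
    (allN (fun a => allN (fun b => an (orr (Nat.beq a b) (ng (Nat.beq (M.wt a) (M.wt b))))
      (allN (fun r => fN (M.ps a r) fun x => fN (M.ps b r) fun y =>
        orr (Nat.beq x y) (ng (Nat.beq (Nat.mod x M.Q) (Nat.mod y M.Q)))) (Nat.succ (Nat.div M.D.P 2)))) a) M.D.K)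

/-- Membership. -/
noncomputable def chkV : Bool :=
  allN (fun a => allN (fun r => fN (M.ph a r) fun x => an (M.mem x) (M.mem (Nat.mod (Nat.sub M.N x) M.N)))
    (Nat.succ (Nat.div M.D.P 2))) M.D.K

/-- No arithmetic progression. -/
noncomputable def chkX : Bool :=
  allN (fun a => allN (fun r => fN (M.ph a r) fun x =>
    Nat.beq (Nat.land (Nat.land (Nat.shiftRight (M.dbl M.V) x) (Nat.shiftRight (M.dbl M.V) (Nat.sub M.N x)))
      (Nat.land (Nat.shiftRight (M.dbl (M.E (Nat.mod x 2))) (Nat.div x 2)) (Nat.sub (Nat.pow 2 M.N) 1))) 1)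
    (Nat.succ (Nat.div M.D.P 2))) M.D.K

/-! ### Soundness -/

variable {M}

lemma bt_shift (x i j : ℕ) : bt (Nat.shiftRight x i) j = x.testBit (i + j) := by
  rw [bt_eq]
  show (x >>> i).testBit j = _
  rw [Nat.testBit_shiftRight]

lemma bt_dbl {x i : ℕ} (hi : i < 2 * M.N) (h : bt x (i % M.N) = true) : (M.dbl x).testBit i = true := by
  show (x ||| (x <<< M.N)).testBit i = true
  rw [bt_eq] at h
  rw [Nat.testBit_or, Nat.testBit_shiftLeft]
  rcases lt_or_ge i M.N with h' | h'
  · rw [Nat.mod_eq_of_lt h'] at h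
    rw [h]; rfl
  · have : i % M.N = i - M.N := by
      rw [Nat.mod_eq_sub_mod h', Nat.mod_eq_of_lt (by omega)]
    rw [this] at h
    rw [h]; simp [h']

/-- The value of a point. -/
def pt (M : Num) (a r : ℕ) : ZMod M.N := (M.al : ZMod M.N) * r + (M.D.P : ZMod M.N) * (M.ps a r : ZMod M.N)

lemma pt_eq (a r : ℕ) : M.pt a r = ((M.ph a r : ℕ) : ZMod M.N) := by
  have : M.ph a r = (M.al * r + M.D.P * M.ps a r) % M.N := rfl
  rw [this, ZMod.natCast_mod]
  unfold pt
  push_cast; ring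

lemma ph_lt (hN : 0 < M.N) (a r : ℕ) : M.ph a r < M.N := Nat.mod_lt _ hN

lemma pt_val (hN : 0 < M.N) (a r : ℕ) : (M.pt a r).val = M.ph a r := by
  have : NeZero M.N := ⟨by omega⟩
  rw [pt_eq, ZMod.val_natCast, Nat.mod_eq_of_lt (ph_lt hN a r)]

/-- The points. -/
def Pts (M : Num) : Set (ZMod M.N) :=
  {z | ∃ a r, a < M.D.K ∧ 2 * r ≤ M.D.P ∧ (z = M.pt a r ∨ z = -M.pt a r)}

lemma Pts_neg {z : ZMod M.N} (h : z ∈ M.Pts) : -z ∈ M.Pts := by
  obtain ⟨a, r, ha, hr, h | h⟩ := h
  · exact ⟨a, r, ha, hr, Or.inr (by rw [h])⟩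
  · exact ⟨a, r, ha, hr, Or.inl (by rw [h, neg_neg])⟩

lemma mem_val (hN : 0 < M.N) (hV : M.chkV = true) {z : ZMod M.N} (h : z ∈ M.Pts) : M.mem z.val = true := by
  have : NeZero M.N := ⟨by omega⟩
  obtain ⟨a, r, ha, hr, h⟩ := h
  unfold chkV at hV
  have h1 := allN_iff.mp (allN_iff.mp hV a ha) r (by
    show r < M.D.P / 2 + 1
    omega)
  rw [fN_eq, an_iff] at h1
  rcases h with h | h
  · rw [h, pt_val hN]; exact h1.1
  · have : z.val = (M.N - M.ph a r) % M.N := by
      rw [h, ← ZMod.val_natCast]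
      congr 1
      rw [Nat.cast_sub (ph_lt hN a r).le, pt_eq]
      simp
    rw [this]; exact h1.2

lemma mem_spec {x : ℕ} (h : M.mem x = true) :
    bt M.V x = true ∧ ∀ y, (y = x ∨ y = x + M.N) → bt (M.E (y % 2)) (y / 2) = true := by
  unfold mem at h
  rw [an_iff, an_iff] at h
  refine ⟨h.1, ?_⟩
  rintro y (rfl | rfl)
  · exact h.2.1
  · exact h.2.2

lemma noAP_pos (hN : 0 < M.N) (hV : M.chkV = true) (hX : M.chkX = true) {a r : ℕ} (ha : a < M.D.K)
    (hr : 2 * r ≤ M.D.P) {d : ZMod M.N} (h0 : M.pt a r - d ∈ M.Pts) (h2 : M.pt a r + d ∈ M.Pts)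
    (h3 : M.pt a r + 2 * d ∈ M.Pts) : d = 0 := by
  have : NeZero M.N := ⟨by omega⟩
  set x := M.ph a r with hx
  have hxN : x < M.N := ph_lt hN a r
  set δ := d.val with hδ
  have hδN : δ < M.N := ZMod.val_lt d
  have hd : ((δ : ℕ) : ZMod M.N) = d := ZMod.natCast_zmod_val d
  unfold chkX at hX
  have h1 := allN_iff.mp (allN_iff.mp hX a ha) r (by
    show r < M.D.P / 2 + 1
    omega)
  rw [fN_eq] at h1
  have h1' := Nat.beq_eq.mp h1
  -- the three bits
  have b1 : (Nat.shiftRight (M.dbl M.V) x).testBit δ = true := by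
    show ((M.dbl M.V) >>> x).testBit δ = true
    rw [Nat.testBit_shiftRight]
    refine bt_dbl (by omega) ?_
    have : (x + δ) % M.N = (M.pt a r + d).val := by
      rw [← ZMod.val_natCast]; congr 1
      push_cast
      rw [hd, pt_eq]
    rw [this]
    exact (mem_spec (mem_val hN hV h2)).1
  have b2 : (Nat.shiftRight (M.dbl M.V) (Nat.sub M.N x)).testBit δ = true := by
    show ((M.dbl M.V) >>> (M.N - x)).testBit δ = true
    rw [Nat.testBit_shiftRight]
    refine bt_dbl (by omega) ?_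
    have : (M.N - x + δ) % M.N = (-(M.pt a r - d)).val := by
      rw [← ZMod.val_natCast]; congr 1
      rw [Nat.cast_add, Nat.cast_sub hxN.le, hd, pt_eq, ← hx, ZMod.natCast_self]
      ring
    rw [this]
    exact (mem_spec (mem_val hN hV (Pts_neg h0))).1
  have b3 : (Nat.shiftRight (M.dbl (M.E (Nat.mod x 2))) (Nat.div x 2)).testBit δ = true := by
    show ((M.dbl (M.E (x % 2))) >>> (x / 2)).testBit δ = true
    rw [Nat.testBit_shiftRight]
    refine bt_dbl (by omega) ?_
    set e := (x / 2 + δ) % M.N with he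
    have heN : e < M.N := Nat.mod_lt _ hN
    have hy : ((2 * e + x % 2 : ℕ) : ZMod M.N) = M.pt a r + 2 * d := by
      push_cast
      rw [he, ZMod.natCast_mod]
      push_cast
      rw [hd, pt_eq, ← hx]
      have : ((x : ℕ) : ZMod M.N) = ((2 * (x / 2) + x % 2 : ℕ) : ZMod M.N) := by
        congr 1; omega
      rw [this]; push_cast; ring
    have hz : (2 * e + x % 2) % M.N = (M.pt a r + 2 * d).val := by
      rw [← ZMod.val_natCast, hy]
    obtain ⟨y, hyd⟩ : ∃ y, y = 2 * e + x % 2 := ⟨_, rfl⟩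
    have hy2 : y % 2 = x % 2 := by omega
    have hy3 : y / 2 = e := by omega
    have hlt : y < 2 * M.N := by omega
    rw [← hyd] at hz
    have hcase : y = (M.pt a r + 2 * d).val ∨ y = (M.pt a r + 2 * d).val + M.N := by
      rcases lt_or_ge y M.N with h | h
      · left; rw [← hz, Nat.mod_eq_of_lt h]
      · right
        have h4 : y % M.N = y - M.N := by rw [Nat.mod_eq_sub_mod h, Nat.mod_eq_of_lt (by omega)]
        rw [← hz, h4]
        omega
    have := (mem_spec (mem_val hN hV h3)).2 _ hcase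
    rw [hy2, hy3] at this
    exact this
  have b4 : (Nat.sub (Nat.pow 2 M.N) 1).testBit δ = true := by
    show (2 ^ M.N - 1).testBit δ = true
    rw [Nat.testBit_two_pow_sub_one]
    simpa using hδN
  have hall : (1 : ℕ).testBit δ = true := by
    rw [← h1']
    show (((Nat.shiftRight (M.dbl M.V) x) &&& (Nat.shiftRight (M.dbl M.V) (Nat.sub M.N x))) &&&
      ((Nat.shiftRight (M.dbl (M.E (Nat.mod x 2))) (Nat.div x 2)) &&& (Nat.sub (Nat.pow 2 M.N) 1))).testBit δ = true
    rw [Nat.testBit_and, Nat.testBit_and, Nat.testBit_and, b1, b2, b3, b4]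
    rfl
  have hδ0 : δ = 0 := by
    by_contra hne
    rw [Nat.testBit_one_eq_true_iff_self_eq_zero] at hall
    exact hne hall
  rw [← hd, hδ0]; simp

lemma noAP (hN : 0 < M.N) (hV : M.chkV = true) (hX : M.chkX = true) {z d : ZMod M.N} (hz : z ∈ M.Pts)
    (h0 : z - d ∈ M.Pts) (h2 : z + d ∈ M.Pts) (h3 : z + 2 * d ∈ M.Pts) : d = 0 := by
  obtain ⟨a, r, ha, hr, h | h⟩ := hz
  · subst h
    exact noAP_pos hN hV hX ha hr h0 h2 h3
  · have e0 : M.pt a r - (-d) ∈ M.Pts := by
      have := Pts_neg h0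
      rw [h] at this
      convert this using 1; ring
    have e2 : M.pt a r + (-d) ∈ M.Pts := by
      have := Pts_neg h2
      rw [h] at this
      convert this using 1; ring
    have e3 : M.pt a r + 2 * (-d) ∈ M.Pts := by
      have := Pts_neg h3
      rw [h] at this
      convert this using 1; ring
    have := noAP_pos hN hV hX ha hr e0 e2 e3
    simpa using this

end Num

end Pool.Agent.E25.Ker
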