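import Pool.Agent.E25.KerS

/-!
The checks of `Ker` in smaller parts (one letter, one row).
-/

set_option autoImplicit false

namespace Pool.Agent.E25.Ker.Dat

variable (D : Dat)

/-- Closure, one letter. -/
noncomputable def chkCa (a : ℕ) : Bool :=
  allN (fun r => fN (D.cls a r) fun s0 => fN (D.cls a (Nat.succ r)) fun s1 =>
    Bool.rec (allL (fun R => im (bt R.m (D.le a (Nat.succ r))) (fN (D.nx R a r) D.inR)) D.rows)
      (D.inR s0) (Nat.beq s0 s1)) (Nat.succ D.P)

/-- Patterns, one letter. -/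
noncomputable def chkDa (a : ℕ) : Bool :=
  allN (fun r => fN (D.rep a r) fun e => fN (D.le a (Nat.succ r)) fun y =>
    allL (fun R => im (bt R.m y) (orr (Nat.beq (Nat.succ r) R.fp)
      (an (Nat.ble (Nat.succ R.fp) (Nat.succ r)) (D.patt R a r e)))) D.rows) (Nat.succ D.P)

/-- Order of the nodes, one row. -/
noncomputable def chkRr (R : Row) : Bool :=
  allN (fun i => D.keyK R i fun k => D.keyK R (Nat.succ i) fun k' => Nat.ble (Nat.succ k) k') (Nat.sub R.n 1)

variable {D}

lemma chkC_of (h : ∀ a, a < D.K → D.chkCa a = true) : D.chkC = true := allN_iff.mpr h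

lemma chkD_of (h : ∀ a, a < D.K → D.chkDa a = true) : D.chkD = true := allN_iff.mpr h

lemma chkR_of (h : ∀ R ∈ D.rows, D.chkRr R = true) : D.chkR = true := allL_iff.mpr h

end Pool.Agent.E25.Ker.Dat
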