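import Pool.Agent.E25.RichOf

/-!
Complete returns in the bi-infinite fixed point, with margins: the blocks start with a common word `T` of `s + 1`
letters and end with its reversal, the blocks extended by the margins (`T` reversed on the left and `T` on the right)
are the functions `G c` on `[-1, P + 2 s]`, and the full marker (`T` reversed and `T`) occurs in them at the block
boundaries only.
-/

set_option autoImplicit false

namespace Pool.Agent.E25

variable {α : Type*} {G : α → ℤ → α} {P s : ℤ} {Fam : Set (Set α)} {L : Set α → α → ℤ → ℤ} {U : ℤ → α}

/-- The data of a substitution with margins. -/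
structure BlkM {α : Type*} (G : α → ℤ → α) (P s : ℤ) : Prop where
  hP : 2 ≤ P
  hs : 0 ≤ s
  pal : ∀ c r, -1 ≤ r → r ≤ P + 2 * s → G c (P + 2 * s - 1 - r) = G c r
  marg : ∀ c d r, -1 ≤ r → r ≤ 2 * s → G c r = G d r
  mpal : ∀ c r, -1 ≤ r → r ≤ 2 * s → G c (2 * s - 1 - r) = G c r
  mark : ∀ c q, 0 < q → q < P → ¬ (∀ t, -1 ≤ t → t ≤ 2 * s → G c (q + t) = G c t)
  inj : ∀ c d, Agr G c d (P + 2 * s) → c = d

section fix

variable (hB : BlkM G P s) (hU : ∀ n r : ℤ, -1 ≤ r → r ≤ P + 2 * s → U (P * n - s + r) = G (U n) r)

include hB hU

/-- Synchronisation. -/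
lemma sync {k : ℤ} {c : α} (h : ∀ t, -1 ≤ t → t ≤ 2 * s → U (k - s + t) = G c t) : ∃ n, k = P * n := by
  have hP := hB.hP
  have hs := hB.hs
  obtain ⟨m, a, ha0, haP, rfl⟩ := split hP k
  rcases eq_or_lt_of_le ha0 with h' | h'
  · exact ⟨m, by omega⟩
  · exfalso
    refine hB.mark (U m) a h' haP ?_
    intro t ht ht'
    rw [← hU m (a + t) (by omega) (by omega), ← hB.marg c (U m) t ht ht', ← h t ht ht']
    congr 1; ring

lemma lift_palM {m m' ρ : ℤ} (_hm : m < m') (hpal : Pal U (m + 1) m') (hagr : Agr G (U m) (U m') ρ)
    (h1 : ρ ≤ P + 2 * s) : Pal U (P * (m + 1) + s - ρ) (P * m' - s + ρ) := by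
  have hP := hB.hP
  have hs := hB.hs
  have key : ∀ x y : ℤ, P * (m + 1) + s - ρ ≤ x → P * (m + 1) + s - ρ ≤ y →
      x + y + 1 = P * (m + 1) + P * m' → P * m' - s - 1 ≤ y → U x = U y := by
    intro x y hx hy hxy hc
    have hPm : P * (m + 1) = P * m + P := by ring
    have ex := hU m (x - P * m + s) (by omega) (by omega)
    have ey := hU m' (y - P * m' + s) (by omega) (by omega)
    rw [show P * m - s + (x - P * m + s) = x by ring] at ex
    rw [show P * m' - s + (y - P * m' + s) = y by ring] at ey
    rw [ex, ey, show x - P * m + s = P + 2 * s - 1 - (y - P * m' + s) by omega,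
      hB.pal (U m) (y - P * m' + s) (by omega) (by omega)]
    rcases eq_or_lt_of_le (show -1 ≤ y - P * m' + s by omega) with h | h
    · rw [← h]; exact hB.marg _ _ _ (by omega) (by omega)
    · exact hagr _ (by omega) (by omega)
  intro x y hx hy hxy
  have hxy' : x + y + 1 = P * (m + 1) + P * m' := by linarith
  by_cases hcy : P * m' - s - 1 ≤ y
  · exact key x y hx hy hxy' hcy
  by_cases hcx : P * m' - s - 1 ≤ x
  · exact (key y x hy hx (by omega) hcx).symm
  push Not at hcy hcx
  obtain ⟨n, r, hr0, hrP, rfl⟩ := split hP x
  obtain ⟨n', r', hr0', hrP', rfl⟩ := split hP y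
  have hq : P * (m + m' + 1 - n - n') = r + r' + 1 := by linarith
  have hq1 : m + m' + 1 - n - n' = 1 := by
    have hpos : 0 < P * (m + m' + 1 - n - n') := by omega
    have hlt : P * (m + m' + 1 - n - n') < P * 2 := by omega
    have h1 : 0 < m + m' + 1 - n - n' := by
      by_contra hcon
      push Not at hcon
      nlinarith
    have h2 : m + m' + 1 - n - n' < 2 := by
      by_contra hcon
      push Not at hcon
      nlinarith
    omega
  rw [hq1, mul_one] at hq
  have hn : m + 1 ≤ n := by
    by_contra hcon
    push Not at hcon
    have : P * (n + 1) ≤ P * (m + 1) := by nlinarith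
    have : P * (n + 1) = P * n + P := by ring
    omega
  have hn' : m + 1 ≤ n' := by
    by_contra hcon
    push Not at hcon
    have : P * (n' + 1) ≤ P * (m + 1) := by nlinarith
    have : P * (n' + 1) = P * n' + P := by ring
    omega
  have ex := hU n (r + s) (by omega) (by omega)
  have ey := hU n' (r' + s) (by omega) (by omega)
  rw [show P * n - s + (r + s) = P * n + r by ring] at ex
  rw [show P * n' - s + (r' + s) = P * n' + r' by ring] at ey
  have hUU := hpal n n' (by omega) (by omega) (by omega)
  rw [ex, ey, hUU, show r + s = P + 2 * s - 1 - (r' + s) by omega, hB.pal _ _ (by omega) (by omega)]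

/-- Returns to a set of letters. -/
lemma retM (hC : Cert G (P + 2 * s) Fam L) :
    ∀ n : ℕ, ∀ B ∈ Fam, ∀ i j : ℤ, j - i = n → i < j → U i ∈ B → U j ∈ B → (∀ k, i < k → k < j → U k ∉ B) →
      Pal U (i + 1) j := by
  have hP := hB.hP
  have hs := hB.hs
  intro n
  induction n using Nat.strong_induction_on with
  | _ n ih =>
    intro B hBF i j hn hij hi hj hcons
    obtain ⟨m, a, ha0, haP, rfl⟩ := split hP i
    obtain ⟨m', b, hb0, hbP, rfl⟩ := split hP j
    have hmm : m ≤ m' := by
      by_contra hcon
      push Not at hcon
      have : P * (m' + 1) ≤ P * m := by nlinarith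
      nlinarith
    have cI : ∀ n t, -s - 1 ≤ t → t ≤ P + s → U (P * n + t) = G (U n) (t + s) := by
      intro n t h0 h1
      rw [← hU n (t + s) (by omega) (by omega)]
      congr 1; ring
    rcases eq_or_lt_of_le hmm with h | h
    · subst h
      rw [cI m a (by omega) (by omega)] at hi
      rw [cI m b (by omega) (by omega)] at hj
      have hbs : 0 ≤ b + s := by omega
      have hp := ret_block hC hBF (U m) (b + s).toNat (b + s) (Int.toNat_of_nonneg hbs).symm (by omega) hj (a + s)
        (by omega) (by omega) hi (fun k hk hk' => by
          have := cI m (k - s) (by omega) (by omega)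
          rw [show k - s + s = k by ring] at this
          rw [← this]
          exact hcons _ (by omega) (by omega))
      intro x y hx hy hxy
      have e1 := cI m (x - P * m) (by omega) (by omega)
      have e2 := cI m (y - P * m) (by omega) (by omega)
      rw [show P * m + (x - P * m) = x by ring] at e1
      rw [show P * m + (y - P * m) = y by ring] at e2
      rw [e1, e2]
      exact hp _ _ (by omega) (by omega) (by omega)
    · have hPm : P * (m + 1) ≤ P * m' := by nlinarith
      have hPm' : P * (m + 1) = P * m + P := by ring
      by_cases hoB : ∃ t : ℕ, (t : ℤ) ≤ s ∧ G (U m) (s + t) ∈ B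
      · -- a letter of the margin
        classical
        obtain ⟨g1, g2⟩ := Nat.find_spec hoB
        set t0 := Nat.find hoB with ht0
        have hmin : ∀ t : ℕ, t < t0 → ¬ ((t : ℤ) ≤ s ∧ G (U m) (s + t) ∈ B) := fun t ht => Nat.find_min hoB ht
        have mR : ∀ t : ℤ, 0 ≤ t → t ≤ s → U (P * (m + 1) + t) = G (U m) (s + t) := by
          intro t h0 h1
          rw [cI (m + 1) t (by omega) (by omega), hB.marg (U m) (U (m + 1)) (s + t) (by omega) (by omega)]
          congr 1; ring
        have mL : ∀ t : ℤ, 0 ≤ t → t ≤ s → U (P * (m + 1) - 1 - t) = G (U m) (s + t) := by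
          intro t h0 h1
          rw [show P * (m + 1) - 1 - t = P * (m + 1) + (-1 - t) by ring, cI (m + 1) (-1 - t) (by omega) (by omega),
            hB.marg (U m) (U (m + 1)) (s + t) (by omega) (by omega), ← hB.mpal (U (m + 1)) (s + t) (by omega) (by omega)]
          congr 1; ring
        have hi' : P * m + a = P * (m + 1) - 1 - t0 := by
          have h1 : P * (m + 1) - 1 - t0 ≤ P * m + a := by
            by_contra hne
            push Not at hne
            exact hcons (P * (m + 1) - 1 - t0) (by omega) (by omega) (by rw [mL _ (by omega) g1]; exact g2)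
          by_contra hne
          obtain ⟨t, ht⟩ : ∃ t : ℕ, P * m + a = P * (m + 1) - 1 - t :=
            ⟨(P * (m + 1) - 1 - (P * m + a)).toNat, by omega⟩
          rw [ht, mL _ (by omega) (by omega)] at hi
          exact hmin t (by omega) ⟨by omega, hi⟩
        have hj' : P * m' + b = P * (m + 1) + t0 := by
          have h1 : P * m' + b ≤ P * (m + 1) + t0 := by
            by_contra hne
            push Not at hne
            exact hcons (P * (m + 1) + t0) (by omega) (by omega) (by rw [mR _ (by omega) g1]; exact g2)
          by_contra hne
          obtain ⟨t, ht⟩ : ∃ t : ℕ, P * m' + b = P * (m + 1) + t :=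
            ⟨(P * m' + b - P * (m + 1)).toNat, by omega⟩
          rw [ht, mR _ (by omega) (by omega)] at hj
          exact hmin t (by omega) ⟨by omega, hj⟩
        rw [hi', hj']
        have key : ∀ x y : ℤ, P * (m + 1) - t0 ≤ x → P * (m + 1) ≤ y → x + y + 1 = P * (m + 1) + P * (m + 1) →
            U x = U y := by
          intro x y hx hy hxy
          have e1 := mL (y - P * (m + 1)) (by omega) (by omega)
          have e2 := mR (y - P * (m + 1)) (by omega) (by omega)
          rw [show P * (m + 1) - 1 - (y - P * (m + 1)) = x by omega] at e1
          rw [show P * (m + 1) + (y - P * (m + 1)) = y by ring] at e2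
          rw [e1, e2]
        intro x y hx hy hxy
        by_cases hc : P * (m + 1) ≤ y
        · exact key x y (by omega) hc (by omega)
        · exact (key y x (by omega) (by omega) (by omega)).symm
      · -- no letter of the margin
        push Not at hoB
        have mB : ∀ c, ∀ t : ℤ, -1 ≤ t → t ≤ 2 * s → G c t ∉ B := by
          intro c t ht ht'
          rw [hB.marg c (U m) t ht ht']
          rcases le_or_gt s t with hst | hst
          · have := hoB (t - s).toNat (by omega)
            rw [Int.toNat_of_nonneg (by omega), show s + (t - s) = t by ring] at this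
            exact this
          · rw [← hB.mpal (U m) t ht ht']
            have := hoB (s - 1 - t).toNat (by omega)
            rw [Int.toNat_of_nonneg (by omega), show s + (s - 1 - t) = 2 * s - 1 - t by ring] at this
            exact this
        have hi0 := hi
        have hj0 := hj
        rw [cI m a (by omega) (by omega)] at hi
        rw [cI m' b (by omega) (by omega)] at hj
        have hd : ∀ t, -1 ≤ t → t < b + s → G (U m') t ∉ B := by
          intro t ht ht'
          rcases le_or_gt t (2 * s) with h' | h'
          · exact mB _ t ht h'
          · rw [← hU m' t (by omega) (by omega)]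
            exact hcons _ (by omega) (by omega)
        have hc : ∀ t, -1 ≤ t → t < P + s - 1 - a → G (U m) t ∉ B := by
          intro t ht ht'
          rcases le_or_gt t (2 * s) with h' | h'
          · exact mB _ t ht h'
          · rw [← hB.pal (U m) t (by omega) (by omega), ← hU m (P + 2 * s - 1 - t) (by omega) (by omega)]
            exact hcons _ (by omega) (by omega)
        have hca : G (U m) (P + s - 1 - a) ∈ B := by
          rw [← hB.pal (U m) (P + s - 1 - a) (by omega) (by omega),
            show P + 2 * s - 1 - (P + s - 1 - a) = a + s by ring]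
          exact hi
        obtain ⟨hab, hagr⟩ := hC.none B hBF (U m) (U m') (P + s - 1 - a) (b + s) (by omega) (by omega) (by omega)
          (by omega) hca hj hc hd
        rw [hab] at hagr hca
        have hbs : s < b := by
          by_contra hcon
          push Not at hcon
          exact mB _ (b + s) (by omega) (by omega) hj
        have hCF : Nx G (U m') (b + s) B ∈ Fam := hC.closed B hBF (U m') (b + s) (by omega) (by omega) hj
        have hpal : Pal U (m + 1) m' := by
          have hlt : m' - m < P * m' + b - (P * m + a) := by
            have : 2 * (m' - m - 1) ≤ P * (m' - m - 1) := by nlinarith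
            nlinarith
          refine ih (m' - m).toNat (by omega) _ hCF m m' (Int.toNat_of_nonneg (by omega)).symm h
            ⟨hagr.symm, hca⟩ ⟨fun _ _ _ => rfl, hj⟩ ?_
          intro k hk hk' hkC
          have h1 : G (U k) (b + s) ∈ B := hkC.2
          rw [← cI k b (by omega) (by omega)] at h1
          have h2 : P * (m + 1) ≤ P * k := by nlinarith
          have h3 : P * (k + 1) ≤ P * m' := by nlinarith
          exact hcons (P * k + b) (by omega) (by nlinarith) h1
        have := lift_palM hB hU h hpal hagr (by omega)
        have e : P * (m + 1) + s - (b + s) = P * m + a + 1 := by rw [hPm']; omega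
        rw [e, show P * m' - s + (b + s) = P * m' + b by ring] at this
        exact this

lemma coarseM {m n l' ρ : ℤ} (hl : 0 ≤ l') (h0 : s + 1 ≤ ρ) (h1 : ρ ≤ P + s)
    (hS : Same U U (P * m - ρ) (P * n - ρ) (P * l' + 2 * ρ)) :
    Agr G (U (m - 1)) (U (n - 1)) (ρ + s) ∧ Same U U m n l' ∧ Agr G (U (m + l')) (U (n + l')) (ρ + s) := by
  have hP := hB.hP
  have hs := hB.hs
  have hPl : 0 ≤ P * l' := by positivity
  refine ⟨?_, ?_, ?_⟩
  · intro t ht ht'
    have e := hS (ρ + s - 1 - t) (by omega) (by omega)
    have e1 := hU (m - 1) (P + 2 * s - 1 - t) (by omega) (by omega)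
    have e2 := hU (n - 1) (P + 2 * s - 1 - t) (by omega) (by omega)
    rw [hB.pal _ t (by omega) (by omega)] at e1 e2
    rw [← e1, ← e2, show P * (m - 1) - s + (P + 2 * s - 1 - t) = P * m - ρ + (ρ + s - 1 - t) by ring,
      show P * (n - 1) - s + (P + 2 * s - 1 - t) = P * n - ρ + (ρ + s - 1 - t) by ring]
    exact e
  · intro x hx0 hx1
    refine hB.inj _ _ ?_
    intro t ht ht'
    have hle : P * x + P ≤ P * l' := by nlinarith
    have hPs : 0 ≤ P * x := by positivity
    have e := hS (ρ - s + P * x + t) (by omega) (by omega)
    rw [← hU (m + x) t (by omega) (by omega), ← hU (n + x) t (by omega) (by omega),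
      show P * (m + x) - s + t = P * m - ρ + (ρ - s + P * x + t) by ring,
      show P * (n + x) - s + t = P * n - ρ + (ρ - s + P * x + t) by ring]
    exact e
  · intro t ht ht'
    have e := hS (ρ - s + P * l' + t) (by omega) (by omega)
    rw [← hU (m + l') t (by omega) (by omega), ← hU (n + l') t (by omega) (by omega),
      show P * (m + l') - s + t = P * m - ρ + (ρ - s + P * l' + t) by ring,
      show P * (n + l') - s + t = P * n - ρ + (ρ - s + P * l' + t) by ring]
    exact e

lemma fineM {m n l' ρ : ℤ} (h0 : s + 1 ≤ ρ) (h1 : ρ ≤ P + s)
    (ha : Agr G (U (m - 1)) (U (n - 1)) (ρ + s)) (hS : Same U U m n l')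
    (hb : Agr G (U (m + l')) (U (n + l')) (ρ + s)) :
    Same U U (P * m - ρ) (P * n - ρ) (P * l' + 2 * ρ) := by
  have hP := hB.hP
  have hs := hB.hs
  intro t ht ht'
  rcases lt_or_ge t (ρ + s) with h | h
  · have e1 := hU (m - 1) (P + s - ρ + t) (by omega) (by omega)
    have e2 := hU (n - 1) (P + s - ρ + t) (by omega) (by omega)
    rw [show P * m - ρ + t = P * (m - 1) - s + (P + s - ρ + t) by ring,
      show P * n - ρ + t = P * (n - 1) - s + (P + s - ρ + t) by ring, e1, e2,
      show P + s - ρ + t = P + 2 * s - 1 - (ρ + s - 1 - t) by ring, hB.pal _ (ρ + s - 1 - t) (by omega) (by omega),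
      hB.pal _ (ρ + s - 1 - t) (by omega) (by omega)]
    exact ha _ (by omega) (by omega)
  · rcases lt_or_ge (t - ρ + s) (P * l') with h' | h'
    · obtain ⟨x, r, hr0, hrP, hsr⟩ := split hP (t - ρ + s)
      have hx0 : 0 ≤ x := by
        by_contra hcon
        push Not at hcon
        nlinarith
      have hx1 : x < l' := by
        by_contra hcon
        push Not at hcon
        have : P * l' ≤ P * x := by nlinarith
        omega
      rw [show P * m - ρ + t = P * (m + x) - s + r by linarith, show P * n - ρ + t = P * (n + x) - s + r by linarith,
        hU _ r (by omega) (by omega), hU _ r (by omega) (by omega), hS x hx0 hx1]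
    · rw [show P * m - ρ + t = P * (m + l') - s + (t - ρ + s - P * l') by ring,
        show P * n - ρ + t = P * (n + l') - s + (t - ρ + s - P * l') by ring,
        hU _ _ (by omega) (by omega), hU _ _ (by omega) (by omega)]
      exact hb _ (by omega) (by omega)

/-- **Complete returns to palindromic patterns.** -/
theorem crM (hC : Cert G (P + 2 * s) Fam L) :
    ∀ l : ℕ, ∀ B ∈ Fam, ∀ i j : ℤ, i < j → Pal U i (i + l) → Same U U i j l → U (i - 1) ∈ B → U (i + l) ∈ B →
      U (j - 1) ∈ B → U (j + l) ∈ B →
      (∀ k, i < k → k < j → U (k - 1) ∈ B → U (k + l) ∈ B → ¬ Same U U i k l) → Pal U i (j + l) := by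
  have hP := hB.hP
  have hs := hB.hs
  intro l
  induction l using Nat.strong_induction_on with
  | _ l ih =>
    intro B hBF i j hij hpal hsame hi1 hi2 hj1 hj2 hcons
    obtain ⟨m, a, ha0, haP, hia⟩ := split hP (i + s)
    obtain rfl : i = P * m - s + a := by omega
    have hPm1 : P * (m + 1) = P * m + P := by ring
    by_cases hin : P + 2 * s < a + l
    · -- a full marker inside
      set ρ := P + s - a with hρ
      have hρ0 : s + 1 ≤ ρ := by omega
      have hρ1 : ρ ≤ P + s := by omega
      have hiρ : P * m - s + a = P * (m + 1) - ρ := by omega
      rw [hiρ] at hij hpal hsame hi1 hi2 hcons ⊢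
      set M := m + 1 with hM
      have hlρ : ρ + s < l := by omega
      -- the last full marker
      obtain ⟨M2, hM2⟩ : ∃ M2, P * M - ρ + l - ρ = P * M2 := by
        refine sync hB hU (c := U M) ?_
        intro t ht ht'
        rw [hpal (P * M - ρ + l - ρ - s + t) (P * M - s + (2 * s - 1 - t)) (by omega) (by omega) (by omega),
          hU M _ (by omega) (by omega)]
        exact hB.mpal _ t ht ht'
      have hMM : M ≤ M2 := by
        by_contra hcon
        push Not at hcon
        have h1 : P * (M2 + 1) ≤ P * M := by nlinarith
        have h2 : P * (M2 + 1) = P * M2 + P := by ring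
        omega
      obtain ⟨l', hl', rfl⟩ : ∃ l' : ℤ, 0 ≤ l' ∧ M2 = M + l' := ⟨M2 - M, by omega, by ring⟩
      have hPl : 0 ≤ P * l' := by positivity
      have hleq : (l : ℤ) = P * l' + 2 * ρ := by linarith
      -- the second occurrence
      obtain ⟨N, hN⟩ : ∃ N, j + ρ = P * N := by
        refine sync hB hU (c := U M) ?_
        intro t ht ht'
        have := hsame (ρ - s + t) (by omega) (by omega)
        rw [show j + ρ - s + t = j + (ρ - s + t) by ring, ← this,
          show P * M - ρ + (ρ - s + t) = P * M - s + t by ring]
        exact hU M t ht (by omega)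
      obtain rfl : j = P * N - ρ := by omega
      have hMN : M < N := by
        by_contra hcon
        push Not at hcon
        nlinarith
      rw [hleq] at hpal hsame hi2 hj2 hcons ⊢
      obtain ⟨g1, g2, g3⟩ := coarseM hB hU hl' hρ0 hρ1 hsame
      have hPM : P * (2 * M + l') = P * M + P * (M + l') := by ring
      have hPMl : P * (M + l') = P * M + P * l' := by ring
      have hPM1 : P * (M - 1) = P * M - P := by ring
      have hagr : Agr G (U (M - 1)) (U (M + l')) (ρ + s) := by
        intro t ht ht'
        have e1 := hU (M - 1) (P + 2 * s - 1 - t) (by omega) (by omega)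
        have e2 := hU (M + l') t (by omega) (by omega)
        rw [hB.pal _ t (by omega) (by omega)] at e1
        rw [← e1, ← e2]
        exact hpal _ _ (by omega) (by omega) (by omega)
      have hpalc : Pal U M (M + l') := by
        intro x y hx hy hxy
        refine hB.inj _ _ ?_
        intro t ht ht'
        rw [← hU x t (by omega) (by omega), ← hB.pal (U y) t (by omega) (by omega),
          ← hU y (P + 2 * s - 1 - t) (by omega) (by omega)]
        have h1 : P * M ≤ P * x := by nlinarith
        have h2 : P * M ≤ P * y := by nlinarith
        have h3 : P * (x + y + 1) = P * (M + (M + l')) := by rw [hxy]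
        refine hpal _ _ (by omega) (by omega) ?_
        linarith
      -- contexts
      have ctx1 : ∀ k : ℤ, U (P * k - ρ - 1) = G (U (k - 1)) (ρ + s) := by
        intro k
        rw [show P * k - ρ - 1 = P * (k - 1) - s + (P + 2 * s - 1 - (ρ + s)) by ring, hU _ _ (by omega) (by omega),
          hB.pal _ (ρ + s) (by omega) (by omega)]
      have ctx2 : ∀ k : ℤ, U (P * k - ρ + (P * l' + 2 * ρ)) = G (U (k + l')) (ρ + s) := by
        intro k
        rw [show P * k - ρ + (P * l' + 2 * ρ) = P * (k + l') - s + (ρ + s) by ring, hU _ _ (by omega) (by omega)]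
      rw [ctx1] at hi1 hj1
      rw [ctx2] at hi2 hj2
      have hCF : Nx G (U (M - 1)) (ρ + s) B ∈ Fam := hC.closed B hBF _ (ρ + s) (by omega) (by omega) hi1
      have hl'l : l'.toNat < l := by
        have : l' ≤ P * l' := by nlinarith
        omega
      have hcast : ((l'.toNat : ℕ) : ℤ) = l' := Int.toNat_of_nonneg hl'
      have key := ih l'.toNat hl'l _ hCF M N hMN (by rw [hcast]; exact hpalc) (by rw [hcast]; exact g2)
        ⟨fun _ _ _ => rfl, hi1⟩ (by rw [hcast]; exact ⟨hagr, hi2⟩) ⟨g1, hj1⟩
        (by rw [hcast]; exact ⟨hagr.trans g3, hj2⟩)
        (by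
          rw [hcast]
          intro k hk hk' hk1 hk2 hks
          have h2 : P * (M + 1) ≤ P * k := by nlinarith
          have h3 : P * (k + 1) ≤ P * N := by nlinarith
          refine hcons (P * k - ρ) (by nlinarith) (by nlinarith) ?_ ?_ ?_
          · rw [ctx1]; exact hk1.2
          · rw [ctx2]; exact hk2.2
          · exact fineM hB hU hρ0 hρ1 hk1.1 hks (hagr.symm.trans hk2.1))
      rw [hcast] at key
      have e := lift_palM hB hU (m := M - 1) (m' := N + l') (ρ := ρ + s) (by omega)
        (by rw [show M - 1 + 1 = M by ring]; exact key) (hagr.trans g3) (by omega)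
      rw [show P * (M - 1 + 1) + s - (ρ + s) = P * M - ρ by ring,
        show P * (N + l') - s + (ρ + s) = P * N - ρ + (P * l' + 2 * ρ) by ring] at e
      exact e
    · push Not at hin
      -- the block of the second occurrence
      obtain ⟨n, b, hb0, hbP, hjb⟩ := split hP (j + s)
      obtain rfl : j = P * n - s + b := by omega
      have hPn1 : P * (n + 1) = P * n + P := by ring
      have hbl : b + l ≤ P + 2 * s := by
        by_contra hcon
        push Not at hcon
        obtain ⟨q, hq⟩ : ∃ q, P * m + a + P - b = P * q := by
          refine sync hB hU (c := U (n + 1)) ?_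
          intro t ht ht'
          have := hsame (P - b + t) (by omega) (by omega)
          rw [show P * m + a + P - b - s + t = P * m - s + a + (P - b + t) by ring, this,
            show P * n - s + b + (P - b + t) = P * (n + 1) - s + t by ring]
          exact hU (n + 1) t ht (by omega)
        have h1 : m < q := by
          by_contra hcon2
          push Not at hcon2
          have : P * q ≤ P * m := by nlinarith
          omega
        have h2 : P * (m + 1) ≤ P * q := by nlinarith
        omega
      have hmn : m ≤ n := by
        by_contra hcon
        push Not at hcon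
        have : P * (n + 1) ≤ P * m := by nlinarith
        omega
      -- patterns in the blocks
      have cI : ∀ t, -1 ≤ t → t ≤ P + 2 * s → U (P * m - s + t) = G (U m) t := hU m
      have cJ : ∀ t, -1 ≤ t → t ≤ P + 2 * s → U (P * n - s + t) = G (U n) t := hU n
      have hc1 : G (U m) (a - 1) ∈ B := by
        rw [← cI _ (by omega) (by omega), show P * m - s + (a - 1) = P * m - s + a - 1 by ring]; exact hi1
      have hc2 : G (U m) (a + l) ∈ B := by
        rw [← cI _ (by omega) (by omega), ← add_assoc]; exact hi2
      have palI : Pal (G (U m)) a (a + l) := by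
        intro x y hx hy hxy
        rw [← cI _ (by omega) (by omega), ← cI _ (by omega) (by omega)]
        exact hpal _ _ (by omega) (by omega) (by omega)
      have patI : Pat (G (U m)) B (a + l) l :=
        ⟨by omega, by omega, by rw [show a + (l : ℤ) - l - 1 = a - 1 by ring]; exact hc1, hc2,
          by rw [show a + (l : ℤ) - l = a by ring]; exact palI⟩
      by_cases hB1 : P * n - s + b + l ≤ P * (m + 1) + s
      · -- both occurrences in the extended block `m`
        set b1 := P * n + b - P * m with hb1
        have hb1' : P * n - s + b = P * m - s + b1 := by omega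
        rw [hb1'] at hij hsame hj1 hj2 hcons hB1 ⊢
        have hab : a < b1 := by omega
        have hb1l : b1 + l ≤ P + 2 * s := by omega
        have sameJ : Same (G (U m)) (G (U m)) a b1 l := by
          intro t ht ht'
          have := hsame t ht ht'
          rw [← cI _ (by omega) (by omega), ← cI _ (by omega) (by omega), ← add_assoc, ← add_assoc]
          exact this
        have palJ : Pal (G (U m)) b1 (b1 + l) := by
          intro x y hx hy hxy
          have h1 := sameJ (x - b1) (by omega) (by omega)
          have h2 := sameJ (y - b1) (by omega) (by omega)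
          rw [show b1 + (x - b1) = x by ring] at h1
          rw [show b1 + (y - b1) = y by ring] at h2
          rw [← h1, ← h2]
          exact palI _ _ (by omega) (by omega) (by omega)
        have hd1 : G (U m) (b1 - 1) ∈ B := by
          rw [← cI _ (by omega) (by omega), show P * m - s + (b1 - 1) = P * m - s + b1 - 1 by ring]; exact hj1
        have hd2 : G (U m) (b1 + l) ∈ B := by
          rw [← cI _ (by omega) (by omega), ← add_assoc]; exact hj2
        have patJ : Pat (G (U m)) B (b1 + l) l :=
          ⟨by omega, by omega, by rw [show b1 + (l : ℤ) - l - 1 = b1 - 1 by ring]; exact hd1, hd2,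
            by rw [show b1 + (l : ℤ) - l = b1 by ring]; exact palJ⟩
        have hnn : 0 ≤ b1 + l := by omega
        have key := cr_block hC hBF (U m) l (b1 + l).toNat (b1 + l) (Int.toNat_of_nonneg hnn).symm hb1l patJ (a + l)
          (by omega) patI
          (by
            intro t ht ht'
            rw [show a + (l : ℤ) - l + t = a + t by ring, show b1 + (l : ℤ) - l + t = b1 + t by ring]
            exact (sameJ t ht ht').symm)
          (by
            intro k hk hk' hpk hsk
            have hk1 := hpk.2.1
            refine hcons (P * m - s + (k - l)) (by omega) (by omega) ?_ ?_ ?_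
            · rw [show P * m - s + (k - l) - 1 = P * m - s + (k - l - 1) by ring, cI _ (by omega) (by omega)]
              exact hpk.2.2.1
            · rw [show P * m - s + (k - l) + l = P * m - s + k by ring, cI _ (by omega) (by omega)]
              exact hpk.2.2.2.1
            · intro t ht ht'
              have h1 := hsk t ht ht'
              have h2 := sameJ t ht ht'
              rw [show b1 + (l : ℤ) - l + t = b1 + t by ring] at h1
              rw [add_assoc, add_assoc, cI _ (by omega) (by omega), cI _ (by omega) (by omega), h2, h1])
        rw [show a + (l : ℤ) - l = a by ring] at key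
        intro x y hx hy hxy
        have e1 := cI (x - (P * m - s)) (by omega) (by omega)
        have e2 := cI (y - (P * m - s)) (by omega) (by omega)
        rw [show P * m - s + (x - (P * m - s)) = x by ring] at e1
        rw [show P * m - s + (y - (P * m - s)) = y by ring] at e2
        rw [e1, e2]
        exact key _ _ (by omega) (by omega) (by omega)
      · push Not at hB1
        have h : m < n := by
          rcases eq_or_lt_of_le hmn with h' | h'
          · subst h'; omega
          · exact h'
        have hPmn : P * (m + 1) ≤ P * n := by nlinarith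
        have sameJ : Same (G (U m)) (G (U n)) a b l := by
          intro t ht ht'
          have := hsame t ht ht'
          rw [← cI _ (by omega) (by omega), ← cJ _ (by omega) (by omega), ← add_assoc, ← add_assoc]
          exact this
        have palJ : Pal (G (U n)) b (b + l) := by
          intro x y hx hy hxy
          have h1 := sameJ (x - b) (by omega) (by omega)
          have h2 := sameJ (y - b) (by omega) (by omega)
          rw [show b + (x - b) = x by ring] at h1
          rw [show b + (y - b) = y by ring] at h2
          rw [← h1, ← h2]
          exact palI _ _ (by omega) (by omega) (by omega)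
        have hd1 : G (U n) (b - 1) ∈ B := by
          rw [← cJ _ (by omega) (by omega), show P * n - s + (b - 1) = P * n - s + b - 1 by ring]; exact hj1
        have hd2 : G (U n) (b + l) ∈ B := by
          rw [← cJ _ (by omega) (by omega), ← add_assoc]; exact hj2
        have patJ : Pat (G (U n)) B (b + l) l :=
          ⟨by omega, by omega, by rw [show b + (l : ℤ) - l - 1 = b - 1 by ring]; exact hd1, hd2,
            by rw [show b + (l : ℤ) - l = b by ring]; exact palJ⟩
        have pc := hB.pal (U m)
        have mirI : ∀ t, -1 ≤ t → t ≤ P + 2 * s → G (U m) t = G (U m) (P + 2 * s - 1 - t) :=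
          fun t h1 h2 => (pc t h1 h2).symm
        have patC : Pat (G (U m)) B (P + 2 * s - a) l := by
          refine ⟨by omega, by omega, ?_, ?_, ?_⟩
          · rw [mirI _ (by omega) (by omega), show P + 2 * s - 1 - (P + 2 * s - a - l - 1) = a + l by ring]; exact hc2
          · rw [mirI _ (by omega) (by omega), show P + 2 * s - 1 - (P + 2 * s - a) = a - 1 by ring]; exact hc1
          · intro x y hx hy hxy
            rw [mirI x (by omega) (by omega), mirI y (by omega) (by omega)]
            exact palI _ _ (by omega) (by omega) (by omega)
        have sameC : Same (G (U m)) (G (U n)) (P + 2 * s - a - l) (b + l - l) l := by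
          intro t ht ht'
          rw [mirI _ (by omega) (by omega), show P + 2 * s - 1 - (P + 2 * s - a - l + t) = a + (l - 1 - t) by ring,
            palI (a + (l - 1 - t)) (a + t) (by omega) (by omega) (by omega),
            show b + (l : ℤ) - l + t = b + t by ring]
          exact sameJ t ht ht'
        have cross := cross_pat hC hBF (c := U m) (d := U n) (r := P + 2 * s - a) (s := b + l) (l := l) (by omega) hbl
          patC patJ sameC
          (by
            intro r' hr' hpr hsr
            have hr1 := hpr.2.1
            have hr0 := hpr.1
            refine hcons (P * m - s + (P + 2 * s - r')) (by omega) (by omega) ?_ ?_ ?_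
            · rw [show P * m - s + (P + 2 * s - r') - 1 = P * m - s + (P + 2 * s - 1 - r') by ring,
                cI _ (by omega) (by omega), pc r' (by omega) (by omega)]
              exact hpr.2.2.2.1
            · rw [show P * m - s + (P + 2 * s - r') + l = P * m - s + (P + 2 * s - r' + l) by ring,
                cI _ (by omega) (by omega), mirI _ (by omega) (by omega),
                show P + 2 * s - 1 - (P + 2 * s - r' + l) = r' - l - 1 by ring]
              exact hpr.2.2.1
            · intro t ht ht'
              have h1 := hsr (l - 1 - t) (by omega) (by omega)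
              rw [show P * m - s + (P + 2 * s - r') + t = P * m - s + (P + 2 * s - r' + t) by ring, add_assoc,
                cI _ (by omega) (by omega), cI _ (by omega) (by omega), mirI (P + 2 * s - r' + t) (by omega) (by omega),
                show P + 2 * s - 1 - (P + 2 * s - r' + t) = r' - l + (l - 1 - t) by ring, ← h1,
                mirI (P + 2 * s - a - l + (l - 1 - t)) (by omega) (by omega)]
              congr 1; ring)
          (by
            intro r' hr' hpr hsr
            have hr1 := hpr.2.1
            have hr0 := hpr.1
            refine hcons (P * n - s + (r' - l)) (by omega) (by omega) ?_ ?_ ?_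
            · rw [show P * n - s + (r' - l) - 1 = P * n - s + (r' - l - 1) by ring, cJ _ (by omega) (by omega)]
              exact hpr.2.2.1
            · rw [show P * n - s + (r' - l) + l = P * n - s + r' by ring, cJ _ (by omega) (by omega)]
              exact hpr.2.2.2.1
            · intro t ht ht'
              have h1 := hsr t ht ht'
              have h2 := sameJ t ht ht'
              rw [show b + (l : ℤ) - l + t = b + t by ring] at h1
              rw [add_assoc, add_assoc, cI _ (by omega) (by omega), cJ _ (by omega) (by omega), h2, h1])
        obtain ⟨hae, hagr⟩ := cross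
        rw [hae] at hagr
        have hce : G (U m) (b + l) ∈ B := by rw [← hae]; exact patC.2.2.2.1
        have hCF : Nx G (U n) (b + l) B ∈ Fam := hC.closed B hBF (U n) (b + l) (by omega) hbl hd2
        have hret := retM hB hU hC (n - m).toNat _ hCF m n (Int.toNat_of_nonneg (by omega)).symm h
          ⟨hagr.symm, hce⟩ ⟨fun _ _ _ => rfl, hd2⟩
          (by
            intro k hk hk' hkC
            have h2 : P * (m + 1) ≤ P * k := by nlinarith
            have h3 : P * (k + 1) ≤ P * n := by nlinarith
            have h4 : P * (k + 1) = P * k + P := by ring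
            have hkA : ∀ t, 0 ≤ t → t < b + l → G (U n) t = G (U k) t := hkC.1
            refine hcons (P * k - s + b) (by omega) (by omega) ?_ ?_ ?_
            · rw [show P * k - s + b - 1 = P * k - s + (b - 1) by ring, hU k _ (by omega) (by omega)]
              rcases eq_or_lt_of_le hb0 with h' | h'
              · rw [← h', show (0 : ℤ) - 1 = -1 by ring, hB.marg (U k) (U n) (-1) le_rfl (by omega)]
                rw [← h', show (0 : ℤ) - 1 = -1 by ring] at hd1
                exact hd1
              · rw [← hkA _ (by omega) (by omega)]; exact hd1
            · rw [show P * k - s + b + l = P * k - s + (b + l) by ring, hU k _ (by omega) (by omega)]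
              exact hkC.2
            · intro t ht ht'
              have h2 := sameJ t ht ht'
              rw [add_assoc, add_assoc, cI _ (by omega) (by omega), hU k _ (by omega) (by omega), h2]
              exact hkA _ (by omega) (by omega))
        have hl := lift_palM hB hU h hret hagr hbl
        rw [show P * (m + 1) + s - (b + l) = P * m - s + a by omega,
          show P * n - s + (b + l) = P * n - s + b + l by ring] at hl
        exact hl

end fix

/-- The one-sided restriction of a fixed point with a certificate with margins is rich. -/
theorem richSeqM {α : Type*} {G : α → ℤ → α} {P s : ℤ} {Fam : Set (Set α)} {L : Set α → α → ℤ → ℤ} {U : ℤ → α}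
    (hB : BlkM G P s) (hU : ∀ n r : ℤ, -1 ≤ r → r ≤ P + 2 * s → U (P * n - s + r) = G (U n) r)
    (hC : Cert G (P + 2 * s) Fam L) {u : ℕ → α} (hu : ∀ n : ℕ, u n = U n) : Pool.Agent.Rich3.RichSeq u := by
  have h := rich_of_returns (U := U) (fun l i j hij hp hs hk =>
    crM hB hU hC l Set.univ hC.univ i j hij hp hs trivial trivial trivial trivial
      (fun k h1 h2 _ _ => hk k h1 h2))
  intro i n
  have := h i n
  have e : Pool.Agent.Rich3.factor u i n = fac U i n := by
    simp only [Pool.Agent.Rich3.factor, fac]
    refine List.map_congr_left ?_
    intro k _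
    rw [hu]; push_cast; rfl
  rw [e]; exact this

end Pool.Agent.E25
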