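import Pool.Agent.E25.KerRT
import Pool.Agent.E25.MFix

/-!
The checks of the certificate with margins, and the final theorem.

`E` contains the extended blocks (the block with `s` more letters on both sides, and the outer letters as in `Ker`).
-/

set_option autoImplicit false
set_option linter.unusedSectionVars false
set_option linter.unusedVariables false

namespace Pool.Agent.E25.Ker

namespace Dat

variable (D E : Dat) (s : ℕ)

/-- Consistency of the blocks and the extended blocks, margins. -/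
noncomputable def chkW : Bool :=
  an (an (Nat.beq E.K D.K) (an (Nat.beq E.P (Nat.add D.P (Nat.mul 2 s))) (Nat.ble (Nat.succ s) D.P)))
    (an (allN (fun t => Nat.beq (E.le 0 t) (E.le 0 (Nat.sub (Nat.succ (Nat.mul 2 s)) t))) (Nat.add (Nat.mul 2 s) 2))
    (allN (fun a => an (Nat.beq (nb E.Y (E.pos a (Nat.succ s)) D.P) (nb D.Y (D.pos a 1) D.P))
      (Nat.beq (nb E.Y (E.pos a 0) (Nat.add (Nat.mul 2 s) 2)) (nb E.Y (E.pos 0 0) (Nat.add (Nat.mul 2 s) 2)))) D.K))

/-- The full marker occurs at the boundaries only. -/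
noncomputable def chkQ : Bool :=
  fN (nb E.Y (E.pos 0 0) (Nat.add (Nat.mul 2 s) 2)) fun m =>
    allN (fun a => allN (fun q => ng (Nat.beq (nb E.Y (E.pos a (Nat.succ q)) (Nat.add (Nat.mul 2 s) 2)) m))
      (Nat.sub D.P 1)) D.K

variable {D E s}

lemma pos_add (D : Dat) (a i j : ℕ) : D.pos a i + j = D.pos a (i + j) := Nat.add_assoc _ _ _

lemma W_spec (h : chkW D E s = true) : E.K = D.K ∧ E.P = D.P + 2 * s ∧ s + 1 ≤ D.P ∧
    (∀ t, t < 2 * s + 2 → E.le 0 t = E.le 0 (2 * s + 1 - t)) ∧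
    (∀ a, a < D.K → ∀ q, q < D.P → E.le a (s + 1 + q) = D.le a (1 + q)) ∧
    (∀ a, a < D.K → ∀ t, t < 2 * s + 2 → E.le a t = E.le 0 t) := by
  unfold chkW at h
  simp only [an_iff] at h
  obtain ⟨⟨h1, h2, h3⟩, h4, h5⟩ := h
  refine ⟨Nat.beq_eq.mp h1, Nat.beq_eq.mp h2, Nat.ble_eq.mp h3, ?_, ?_, ?_⟩
  · intro t ht
    exact Nat.beq_eq.mp (allN_iff.mp h4 t ht)
  · intro a ha q hq
    have := allN_iff.mp h5 a ha
    rw [an_iff] at this
    have h6 := dg_of_nb (Nat.beq_eq.mp this.1) q hq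
    rw [pos_add, pos_add] at h6
    exact h6
  · intro a ha t ht
    have := allN_iff.mp h5 a ha
    rw [an_iff] at this
    have h6 : nb E.Y (E.pos a 0) (2 * s + 2) = nb E.Y (E.pos 0 0) (2 * s + 2) := Nat.beq_eq.mp this.2
    have h7 := dg_of_nb h6 t ht
    rw [pos_add, pos_add, Nat.zero_add] at h7
    exact h7

lemma Q_spec (h : chkQ D E s = true) {a q : ℕ} (ha : a < D.K) (h0 : 0 < q) (hq : q < D.P) :
    ¬ ∀ t, t < 2 * s + 2 → E.le a (q + t) = E.le 0 t := by
  unfold chkQ at h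
  rw [fN_eq] at h
  obtain ⟨q', rfl⟩ : ∃ q', q = q' + 1 := ⟨q - 1, by omega⟩
  have h1 := allN_iff.mp (allN_iff.mp h a ha) q' (by show q' < D.P - 1; omega)
  rw [ng_iff] at h1
  intro hall
  refine h1 (Nat.beq_eq.mpr ?_)
  refine nb_congr ?_
  intro t ht
  rw [pos_add, pos_add, Nat.zero_add]
  exact hall t ht

end Dat

section margins

variable {D E : Dat} {s : ℕ} [NeZero D.K] [NeZero E.K]

lemma blkM (hA : E.chkA = true) (hG : E.chkG = true) (hW : Dat.chkW D E s = true) (hQ : Dat.chkQ D E s = true) :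
    BlkM E.F D.P s := by
  obtain ⟨w1, w2, w3, w4, w5, w6⟩ := Dat.W_spec hW
  have hP := Dat.A_P hA
  have hEP : (E.P : ℤ) = D.P + 2 * s := by exact_mod_cast w2
  have hKpos : 0 < E.K := Nat.pos_of_ne_zero (NeZero.ne _)
  have val : ∀ (c : Fin E.K) (r : ℤ), -1 ≤ r → r ≤ 2 * s → (E.F c r : ℕ) = E.le 0 (r + 1).toNat := by
    intro c r h0 h1
    rw [Dat.F_val hA h0 (by omega)]
    exact w6 c (by rw [← w1]; exact c.2) _ (by omega)
  refine ⟨?_, by omega, ?_, ?_, ?_, ?_, ?_⟩
  · -- 2 ≤ P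
    by_contra hcon
    push Not at hcon
    have hP1 : D.P = 1 := by omega
    have hs0 : s = 0 := by omega
    have := hP.1
    omega
  · intro c r h0 h1
    rw [← hEP]
    exact Dat.F_pal hA h0 (by omega)
  · intro c d r h0 h1
    rw [Fin.ext_iff, val c r h0 h1, val d r h0 h1]
  · intro c r h0 h1
    rw [Fin.ext_iff, val c r h0 h1, val c _ (by omega) (by omega), w4 _ (by omega)]
    congr 1; omega
  · intro c q h0 h1 hall
    obtain ⟨q', rfl⟩ : ∃ q' : ℕ, q = q' := ⟨q.toNat, by omega⟩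
    refine Dat.Q_spec hQ (a := c) (q := q') (by rw [← w1]; exact c.2) (by omega) (by omega) ?_
    intro t ht
    have h := hall (t - 1) (by omega) (by omega)
    rw [Fin.ext_iff, Dat.F_val hA (by omega) (by omega), val c _ (by omega) (by omega)] at h
    rw [show ((q' : ℤ) + (t - 1) + 1).toNat = q' + t by omega, show ((t : ℤ) - 1 + 1).toNat = t by omega] at h
    exact h
  · intro c d h
    rw [← hEP, Dat.agr_iff hA hG (by omega) le_rfl] at h
    by_contra hcd
    obtain ⟨g1, g2, g3⟩ := Dat.ag_spec hG c.2 d.2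
    have := (g3 (fun h => hcd (Fin.ext h))).1
    omega

end margins

end Ker

/-- The two sided fixed point and the extended blocks. -/
lemma two_specM {α : Type*} {F G : α → ℤ → α} {P s : ℕ} (hB : BlkM G P s) (hsP : s + 1 ≤ P)
    (hFG : ∀ c, ∀ q : ℤ, 0 ≤ q → q < P → F c q = G c (q + s)) {u : ℕ → α}
    (hu : ∀ n r : ℕ, r < P → u (P * n + r) = F (u n) r) :
    ∀ n r : ℤ, -1 ≤ r → r ≤ P + 2 * s → two u (P * n - s + r) = G (two u n) r := by
  have hP := hB.hP
  have hs := hB.hs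
  have palF : ∀ c, ∀ q : ℤ, 0 ≤ q → q < P → F c (P - 1 - q) = F c q := by
    intro c q h0 h1
    rw [hFG c q h0 h1, hFG c _ (by omega) (by omega), ← hB.pal c (q + s) (by omega) (by omega)]
    congr 1; ring
  have main : ∀ n r : ℤ, 0 ≤ r → r < P → two u (P * n + r) = F (two u n) r := by
    intro n r h0 h1
    obtain ⟨ρ, rfl⟩ : ∃ ρ : ℕ, r = ρ := ⟨r.toNat, by omega⟩
    rcases lt_or_ge n 0 with hn | hn
    · obtain ⟨m, rfl⟩ : ∃ m : ℕ, n = -1 - m := ⟨(-1 - n).toNat, by omega⟩
      have hneg : ¬ (0 : ℤ) ≤ (P : ℤ) * (-1 - m) + ρ := by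
        have : (0 : ℤ) ≤ (P : ℤ) * m := by positivity
        have e : (P : ℤ) * (-1 - m) + ρ = -(P : ℤ) - P * m + ρ := by ring
        omega
      have e1 : (-1 - ((P : ℤ) * (-1 - m) + ρ)).toNat = P * m + (P - 1 - ρ) := by
        have e : (-1 - ((P : ℤ) * (-1 - m) + ρ)) = ((P * m + (P - 1 - ρ) : ℕ) : ℤ) := by
          push_cast [Nat.cast_sub (show ρ ≤ P - 1 by omega), Nat.cast_sub (show 1 ≤ P by omega)]
          ring
        rw [e, Int.toNat_natCast]
      have e2 : (-1 - (-1 - (m : ℤ))).toNat = m := by omega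
      unfold two
      rw [if_neg hneg, if_neg (by omega), e1, e2, hu m (P - 1 - ρ) (by omega)]
      rw [← palF (u m) ρ (by omega) (by omega)]
      congr 1
      push_cast [Nat.cast_sub (show ρ ≤ P - 1 by omega), Nat.cast_sub (show 1 ≤ P by omega)]
      ring
    · obtain ⟨m, rfl⟩ : ∃ m : ℕ, n = m := ⟨n.toNat, by omega⟩
      unfold two
      rw [if_pos (by positivity), if_pos (by positivity), Int.toNat_natCast]
      have : ((P : ℤ) * m + ρ).toNat = P * m + ρ := by
        rw [show (P : ℤ) * m + ρ = ((P * m + ρ : ℕ) : ℤ) by push_cast; ring, Int.toNat_natCast]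
      rw [this, hu m ρ (by omega)]
  have mainG : ∀ n q : ℤ, 0 ≤ q → q < P → two u (P * n + q) = G (two u n) (q + s) := by
    intro n q h0 h1
    rw [main n q h0 h1, hFG _ q h0 h1]
  intro n r h0 h1
  rcases lt_or_ge r s with h | h
  · rw [show (P : ℤ) * n - s + r = P * (n - 1) + (P - s + r) by ring, mainG (n - 1) _ (by omega) (by omega),
      show (P : ℤ) - s + r + s = P + 2 * s - 1 - (2 * s - 1 - r) by ring, hB.pal _ _ (by omega) (by omega),
      hB.mpal _ r (by omega) (by omega)]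
    exact hB.marg _ _ r (by omega) (by omega)
  · rcases lt_or_ge (r - s) (P : ℤ) with h' | h'
    · have := mainG n (r - s) (by omega) h'
      rw [show (P : ℤ) * n - s + r = P * n + (r - s) by ring, this]
      congr 1; ring
    · rw [show (P : ℤ) * n - s + r = P * (n + 1) + (r - s - P) by ring, mainG (n + 1) _ (by omega) (by omega),
        show r - s - P + s = r - (P : ℤ) by ring, hB.marg _ (two u n) (r - P) (by omega) (by omega),
        ← hB.mpal _ (r - P) (by omega) (by omega), ← hB.pal _ r (by omega) (by omega)]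
      congr 1; ring

namespace Ker.NumR

variable {M : NumR}

/-- **The checks give a rich word without additive cubes** (certificate with margins). -/
theorem finalM (C : M.Chk) (hZ : M.D.chkZ = true) (E : Dat) (s : ℕ) (hW : Dat.chkW M.D E s = true)
    (hQ : Dat.chkQ M.D E s = true) (hA : E.chkA = true) (hG : E.chkG = true) (hC : E.chkC = true)
    (hD : E.chkD = true) (hNN : E.chkN = true) (hRR : E.chkR = true) (hU : E.chkU = true) :
    ∃ (A : Finset ℤ) (v : ℕ → ℤ), (∀ i, v i ∈ A) ∧ Rich3.RichSeq v ∧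
      ∀ i l : ℕ, 1 ≤ l → ¬ ((Rich3.factor v i l).sum = (Rich3.factor v (i + l) l).sum ∧
        (Rich3.factor v (i + l) l).sum = (Rich3.factor v (i + 2 * l) l).sum) := by
  have hKpos := K_pos C
  have : NeZero M.D.K := ⟨by omega⟩
  refine finalW C hZ ?_
  intro u hu
  obtain ⟨w1, w2, w3, w4, w5, w6⟩ := Dat.W_spec hW
  obtain ⟨EK, EP, Eo, EY, EA, Er⟩ := E
  dsimp only at w1
  subst w1
  have hB := blkM hA hG hW hQ
  have hcert := Dat.cert hA hG hC hD hNN hRR hU
  have hEP : (EP : ℤ) = M.D.P + 2 * s := by exact_mod_cast w2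
  have hcert' : Cert (Dat.F ⟨M.D.K, EP, Eo, EY, EA, Er⟩) ((M.D.P : ℤ) + 2 * s) _ _ := hEP ▸ hcert
  have hFG : ∀ c, ∀ q : ℤ, 0 ≤ q → q < M.D.P →
      M.D.F c q = Dat.F ⟨M.D.K, EP, Eo, EY, EA, Er⟩ c (q + s) := by
    intro c q h0 h1
    rw [Fin.ext_iff, Dat.F_val C.A (by omega) (by omega), Dat.F_val hA (by omega) (by show q + s ≤ (EP : ℤ); omega)]
    have := w5 c c.2 q.toNat (by omega)
    rw [show (q + 1).toNat = 1 + q.toNat by omega, ← this]
    congr 1; omega
  refine richSeqM hB (two_specM hB w3 hFG hu) hcert' (U := Pool.Agent.E25.two u) (fun n => ?_)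
  unfold Pool.Agent.E25.two
  rw [if_pos (by positivity), Int.toNat_natCast]

end Ker.NumR

end Pool.Agent.E25
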