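import Pool.Agent.E25.DekkingS

/-!
Refined Dekking descent.  Half points `g` (boundaries for even `g`, centres of letters for odd `g`) of the fixed point of
a substitution with palindromic blocks of odd length descend to half points `h` by `g = P h + t`; the progressions that
are not exact have types in a set `X`, and `X` is closed under the exact ones.
-/

set_option autoImplicit false

namespace Pool.Agent.E25

/-- Second differences in the lattice generated by `(2 P, 2 c)` and `(0, 2 Q)`. -/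
def InL (P : ℕ) (Q c a b : ℤ) : Prop := ∃ x y : ℤ, a = 2 * P * x ∧ b = 2 * c * x + 2 * Q * y

/-- Four values in arithmetic progression. -/
def AP4 (a b c d : ℤ) : Prop := a + c = 2 * b ∧ b + d = 2 * c

/-- **Descent with exceptions.**  `D k t e σ η β l`: position `t` and value `e` relative to a half point of label `k`,
position `σ` and value `η` relative to a boundary of label `β`, own label `l`. -/
theorem descent {L : Type*} {lab : ℕ → L} {E : ℕ → ℤ} {P : ℕ} {Q c : ℤ} (hP : 3 ≤ P) (hQ : Q ≠ 0)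
    {D : L → ℤ → ℤ → ℤ → ℤ → L → L → Prop} {X : L → L → L → L → Prop} {IsB : L → Prop}
    (hdec : ∀ g : ℕ, ∃ (h m : ℕ) (t e σ η : ℤ), (g : ℤ) = P * h + t ∧ E g = Q * E h + c * h + e ∧
      (g : ℤ) = 2 * P * m + σ ∧ E g = Q * E (2 * m) + 2 * c * m + η ∧ D (lab h) t e σ η (lab (2 * m)) (lab g))
    (hE : ∀ m, ∃ y : ℤ, E (2 * m) = 2 * y) (hB : ∀ m, IsB (lab (2 * m)))
    (hW : ∀ k t e σ η β l, D k t e σ η β l → |t| < P ∧ |σ| ≤ P)
    (H : ∀ (k₀ k₁ k₂ k₃ : L) (t₀ t₁ t₂ t₃ e₀ e₁ e₂ e₃ σ₀ σ₁ σ₂ σ₃ η₀ η₁ η₂ η₃ : ℤ) (β₀ β₁ β₂ β₃ l₀ l₁ l₂ l₃ : L),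
      D k₀ t₀ e₀ σ₀ η₀ β₀ l₀ → D k₁ t₁ e₁ σ₁ η₁ β₁ l₁ → D k₂ t₂ e₂ σ₂ η₂ β₂ l₂ → D k₃ t₃ e₃ σ₃ η₃ β₃ l₃ →
      InL P Q c (σ₀ + σ₂ - 2 * σ₁) (η₀ + η₂ - 2 * η₁) → InL P Q c (σ₁ + σ₃ - 2 * σ₂) (η₁ + η₃ - 2 * η₂) →
      X l₀ l₁ l₂ l₃ ∨
      (AP4 t₀ t₁ t₂ t₃ ∧ AP4 e₀ e₁ e₂ e₃ ∧ (t₀ ≠ t₁ → k₀ = k₁ → k₁ = k₂ → k₂ = k₃ → X l₀ l₁ l₂ l₃) ∧
        (X k₀ k₁ k₂ k₃ → X l₀ l₁ l₂ l₃)) ∨
      (AP4 σ₀ σ₁ σ₂ σ₃ ∧ AP4 η₀ η₁ η₂ η₃ ∧ (σ₀ ≠ σ₁ → β₀ = β₁ → β₁ = β₂ → β₂ = β₃ → X l₀ l₁ l₂ l₃)))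
    (hF : ∀ β₀ β₁ β₂ β₃, IsB β₀ → IsB β₁ → IsB β₂ → IsB β₃ → ¬ X β₀ β₁ β₂ β₃) :
    ∀ d g : ℕ, 1 ≤ d → E g + E (g + 2 * d) = 2 * E (g + d) → E (g + d) + E (g + 3 * d) = 2 * E (g + 2 * d) →
      X (lab g) (lab (g + d)) (lab (g + 2 * d)) (lab (g + 3 * d)) := by
  intro d
  induction d using Nat.strong_induction_on with
  | _ d ih =>
    intro g hd a1 a2
    have hP1 : (3 : ℤ) ≤ P := by exact_mod_cast hP
    obtain ⟨h0, m0, t0, e0, σ0, η0, j0, s0, u0, v0, D0⟩ := hdec g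
    obtain ⟨h1, m1, t1, e1, σ1, η1, j1, s1, u1, v1, D1⟩ := hdec (g + d)
    obtain ⟨h2, m2, t2, e2, σ2, η2, j2, s2, u2, v2, D2⟩ := hdec (g + 2 * d)
    obtain ⟨h3, m3, t3, e3, σ3, η3, j3, s3, u3, v3, D3⟩ := hdec (g + 3 * d)
    obtain ⟨y0, hy0⟩ := hE m0
    obtain ⟨y1, hy1⟩ := hE m1
    obtain ⟨y2, hy2⟩ := hE m2
    obtain ⟨y3, hy3⟩ := hE m3
    simp only [Nat.cast_add, Nat.cast_mul, Nat.cast_ofNat] at j1 j2 j3 u1 u2 u3
    have L1 : InL P Q c (σ0 + σ2 - 2 * σ1) (η0 + η2 - 2 * η1) := by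
      refine ⟨-((m0 : ℤ) + m2 - 2 * m1), -(y0 + y2 - 2 * y1), ?_, ?_⟩
      · linear_combination - u0 - u2 + 2 * u1
      · linear_combination a1 - v0 - v2 + 2 * v1 - Q * hy0 - Q * hy2 + 2 * Q * hy1
    have L2 : InL P Q c (σ1 + σ3 - 2 * σ2) (η1 + η3 - 2 * η2) := by
      refine ⟨-((m1 : ℤ) + m3 - 2 * m2), -(y1 + y3 - 2 * y2), ?_, ?_⟩
      · linear_combination - u1 - u3 + 2 * u2
      · linear_combination a2 - v1 - v3 + 2 * v2 - Q * hy1 - Q * hy3 + 2 * Q * hy2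
    have w0 := hW _ _ _ _ _ _ _ D0
    have w3 := hW _ _ _ _ _ _ _ D3
    have w0t := abs_lt.mp w0.1
    have w3t := abs_lt.mp w3.1
    have w0s := abs_le.mp w0.2
    have w3s := abs_le.mp w3.2
    rcases H _ _ _ _ _ _ _ _ _ _ _ _ _ _ _ _ _ _ _ _ _ _ _ _ _ _ _ _ D0 D1 D2 D3 L1 L2 with hx | hx | hx
    · exact hx
    · obtain ⟨⟨z1, z2⟩, ⟨z3, z4⟩, hDD, hCC⟩ := hx
      have hh1 : (h0 : ℤ) + h2 - 2 * h1 = 0 := by
        have : (P : ℤ) * ((h0 : ℤ) + h2 - 2 * h1) = 0 := by linear_combination - j0 - j2 + 2 * j1 - z1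
        rcases mul_eq_zero.mp this with h | h
        · omega
        · exact h
      have hh2 : (h1 : ℤ) + h3 - 2 * h2 = 0 := by
        have : (P : ℤ) * ((h1 : ℤ) + h3 - 2 * h2) = 0 := by linear_combination - j1 - j3 + 2 * j2 - z2
        rcases mul_eq_zero.mp this with h | h
        · omega
        · exact h
      have hE1 : E h0 + E h2 = 2 * E h1 := by
        have : Q * (E h0 + E h2) = Q * (2 * E h1) := by
          linear_combination a1 - s0 - s2 + 2 * s1 - c * hh1 - z3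
        exact mul_left_cancel₀ hQ this
      have hE2 : E h1 + E h3 = 2 * E h2 := by
        have : Q * (E h1 + E h3) = Q * (2 * E h2) := by
          linear_combination a2 - s1 - s3 + 2 * s2 - c * hh2 - z4
        exact mul_left_cancel₀ hQ this
      have hdd : (d : ℤ) = P * ((h1 : ℤ) - h0) + (t1 - t0) := by linear_combination j1 - j0
      have hnn : (0 : ℤ) ≤ (h1 : ℤ) - h0 := by
        by_contra hcon
        have h4 : (P : ℤ) * ((h1 : ℤ) - h0) ≤ P * (-1) := mul_le_mul_of_nonneg_left (by omega) (by omega)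
        omega
      obtain ⟨d', hd'⟩ : ∃ d' : ℕ, h1 = h0 + d' := ⟨h1 - h0, by omega⟩
      have e2' : h2 = h0 + 2 * d' := by omega
      have e3' : h3 = h0 + 3 * d' := by omega
      have hdd' : (d : ℤ) = P * d' + (t1 - t0) := by rw [hdd, hd']; push_cast; ring
      rcases Nat.eq_zero_or_pos d' with h | h
      · rw [h] at hd' e2' e3' hdd'
        simp only [mul_zero, add_zero, Nat.cast_zero, zero_add] at hd' e2' e3' hdd'
        exact hDD (by omega) (by rw [hd']) (by rw [hd', e2']) (by rw [e2', e3'])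
      · refine hCC ?_
        rw [hd', e2'] at hE1
        rw [hd', e2', e3'] at hE2
        rw [hd', e2', e3']
        refine ih d' ?_ h0 h hE1 hE2
        have h6 : (1 : ℤ) ≤ d' := by exact_mod_cast h
        have h7 : (3 : ℤ) * d' ≤ P * d' := mul_le_mul_of_nonneg_right hP1 (by omega)
        have h8 : (P : ℤ) * 1 ≤ P * d' := mul_le_mul_of_nonneg_left h6 (by omega)
        have : (d' : ℤ) < d := by omega
        exact_mod_cast this
    · obtain ⟨⟨z1, z2⟩, ⟨z3, z4⟩, hDD⟩ := hx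
      have hm1 : (m0 : ℤ) + m2 - 2 * m1 = 0 := by
        have : (2 * (P : ℤ)) * ((m0 : ℤ) + m2 - 2 * m1) = 0 := by linear_combination - u0 - u2 + 2 * u1 - z1
        rcases mul_eq_zero.mp this with h | h
        · omega
        · exact h
      have hm2 : (m1 : ℤ) + m3 - 2 * m2 = 0 := by
        have : (2 * (P : ℤ)) * ((m1 : ℤ) + m3 - 2 * m2) = 0 := by linear_combination - u1 - u3 + 2 * u2 - z2
        rcases mul_eq_zero.mp this with h | h
        · omega
        · exact h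
      have hE1 : E (2 * m0) + E (2 * m2) = 2 * E (2 * m1) := by
        have : Q * (E (2 * m0) + E (2 * m2)) = Q * (2 * E (2 * m1)) := by
          linear_combination a1 - v0 - v2 + 2 * v1 - 2 * c * hm1 - z3
        exact mul_left_cancel₀ hQ this
      have hE2 : E (2 * m1) + E (2 * m3) = 2 * E (2 * m2) := by
        have : Q * (E (2 * m1) + E (2 * m3)) = Q * (2 * E (2 * m2)) := by
          linear_combination a2 - v1 - v3 + 2 * v2 - 2 * c * hm2 - z4
        exact mul_left_cancel₀ hQ this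
      have hdd : (d : ℤ) = 2 * P * ((m1 : ℤ) - m0) + (σ1 - σ0) := by linear_combination u1 - u0
      have hnn : (0 : ℤ) ≤ (m1 : ℤ) - m0 := by
        by_contra hcon
        have h4 : (2 * (P : ℤ)) * ((m1 : ℤ) - m0) ≤ (2 * (P : ℤ)) * (-1) :=
          mul_le_mul_of_nonneg_left (by omega) (by omega)
        omega
      obtain ⟨d', hd'⟩ : ∃ d' : ℕ, m1 = m0 + d' := ⟨m1 - m0, by omega⟩
      have e2' : m2 = m0 + 2 * d' := by omega
      have e3' : m3 = m0 + 3 * d' := by omega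
      have hdd' : (d : ℤ) = 2 * P * d' + (σ1 - σ0) := by rw [hdd, hd']; push_cast; ring
      rcases Nat.eq_zero_or_pos d' with h | h
      · rw [h] at hd' e2' e3' hdd'
        simp only [mul_zero, add_zero, Nat.cast_zero, zero_add] at hd' e2' e3' hdd'
        exact hDD (by omega) (by rw [hd']) (by rw [hd', e2']) (by rw [e2', e3'])
      · exfalso
        have h6 : (1 : ℤ) ≤ d' := by exact_mod_cast h
        have h7 : (3 : ℤ) * d' ≤ P * d' := mul_le_mul_of_nonneg_right hP1 (by omega)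
        have h8 : (P : ℤ) * 1 ≤ P * d' := mul_le_mul_of_nonneg_left h6 (by omega)
        have h9 : 2 * (P : ℤ) * d' = 2 * (P * d') := by ring
        have hlt : 2 * d' < d := by
          have : (2 * d' : ℤ) < d := by omega
          exact_mod_cast this
        have hX := ih (2 * d') hlt (2 * m0) (by omega)
          (by
            rw [show 2 * m0 + 2 * (2 * d') = 2 * m2 by omega, show 2 * m0 + 2 * d' = 2 * m1 by omega]
            exact hE1)
          (by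
            rw [show 2 * m0 + 2 * (2 * d') = 2 * m2 by omega, show 2 * m0 + 2 * d' = 2 * m1 by omega,
              show 2 * m0 + 3 * (2 * d') = 2 * m3 by omega]
            exact hE2)
        rw [show 2 * m0 + 2 * (2 * d') = 2 * m2 by omega, show 2 * m0 + 2 * d' = 2 * m1 by omega,
          show 2 * m0 + 3 * (2 * d') = 2 * m3 by omega] at hX
        exact hF _ _ _ _ (hB m0) (hB m1) (hB m2) (hB m3) hX

/-! ### Half points of a fixed point -/

/-- Labels of the half points. -/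
inductive Lab (α : Type*) where
  /-- the centre of a letter -/
  | C (a : α) : Lab α
  /-- the boundary between two letters -/
  | B (b a : α) : Lab α

/-- The mirror image of a label. -/
def Lab.mir {α : Type*} : Lab α → Lab α
  | .C a => .C a
  | .B b a => .B a b

/-- The label of a half point. -/
def lab {α : Type*} (u : ℕ → α) (g : ℕ) : Lab α :=
  if g % 2 = 1 then .C (u (g / 2)) else .B (u (g / 2 - 1)) (u (g / 2))

/-- Twice the sum in front of a half point. -/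
def HE {α : Type*} (w : α → ℤ) (u : ℕ → α) (g : ℕ) : ℤ := PS w u (g / 2) + PS w u ((g + 1) / 2)

/-- The points of the blocks: near the boundary `s + T a < P` in the frame of the boundary, otherwise in the frame of the
centre.  The arguments are: label of the half point `h`, `t`, `e` (relative to `h`), `σ`, `η` (relative to the nearer end
of the block), label of this end, label. -/
inductive Pt {α : Type*} (w : α → ℤ) (f : α → ℕ → α) (T : α → ℕ) (P : ℕ) (R : α → α → Prop) :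
    Lab α → ℤ → ℤ → ℤ → ℤ → Lab α → Lab α → Prop
  | br (b a : α) (s : ℕ) (hR : R b a) (h : s + T a < P) :
      Pt w f T P R (.B b a) s (HE w (f a) s) s (HE w (f a) s) (.B b a) (lab (f a) s)
  | bl (b a : α) (s : ℕ) (hR : R b a) (h : s + T b < P) :
      Pt w f T P R (.B b a) (-s) (-HE w (f b) s) (-s) (-HE w (f b) s) (.B b a) (lab (f b) s).mir
  | cl (b a : α) (s : ℕ) (hR : R b a) (h : P ≤ s + T a) (h' : s ≤ P) :
      Pt w f T P R (.C a) (-(P - s)) (-(PS w (f a) P - HE w (f a) s)) s (HE w (f a) s) (.B b a) (lab (f a) s)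
  | cr (b a : α) (s : ℕ) (hR : R b a) (h : P ≤ s + T b) (h' : s ≤ P) :
      Pt w f T P R (.C b) (P - s) (PS w (f b) P - HE w (f b) s) (-s) (-HE w (f b) s) (.B b a) (lab (f b) s).mir

section Sub

variable {α : Type*} {w : α → ℤ} {u : ℕ → α} {f : α → ℕ → α} {T : α → ℕ} {P : ℕ} {Q c : ℤ} {R : α → α → Prop}

lemma HE_block (hu : ∀ n r, r < P → u (P * n + r) = f (u n) r) (hsum : ∀ a, PS w (f a) P = Q * w a + c) (m s : ℕ)
    (hs : s ≤ 2 * P) : HE w u (2 * (P * m) + s) = 2 * (Q * PS w u m + c * m) + HE w (f (u m)) s := by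
  unfold HE
  rw [show (2 * (P * m) + s) / 2 = P * m + s / 2 by omega, show (2 * (P * m) + s + 1) / 2 = P * m + (s + 1) / 2 by omega,
    PS_block_aff hu hsum m (s / 2) (by omega), PS_block_aff hu hsum m ((s + 1) / 2) (by omega)]
  ring

lemma HE_even (m : ℕ) : HE w u (2 * m) = 2 * PS w u m := by
  unfold HE
  rw [show 2 * m / 2 = m by omega, show (2 * m + 1) / 2 = m by omega]; ring

lemma HE_odd (m : ℕ) : HE w u (2 * m + 1) = 2 * PS w u m + w (u m) := by
  unfold HE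
  rw [show (2 * m + 1) / 2 = m by omega, show (2 * m + 1 + 1) / 2 = m + 1 by omega, PS_succ]; ring

lemma HE_mir (hpal : ∀ a r, r < P → f a (P - 1 - r) = f a r) (a : α) (s : ℕ) (hs : s ≤ P) :
    HE w (f a) (2 * P - s) = 2 * PS w (f a) P - HE w (f a) s := by
  unfold HE
  have h1 := PS_pal (w := w) (hpal a) (s / 2) (by omega)
  have h2 := PS_pal (w := w) (hpal a) ((s + 1) / 2) (by omega)
  rw [show (2 * P - s) / 2 = P - (s + 1) / 2 by omega, show (2 * P - s + 1) / 2 = P - s / 2 by omega]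
  linarith

lemma lab_block (hu : ∀ n r, r < P → u (P * n + r) = f (u n) r) (m s : ℕ) (hs : 1 ≤ s) (hs' : s < 2 * P) :
    lab u (2 * (P * m) + s) = lab (f (u m)) s := by
  unfold lab
  rw [show (2 * (P * m) + s) % 2 = s % 2 by omega, show (2 * (P * m) + s) / 2 = P * m + s / 2 by omega]
  split_ifs with h
  · rw [hu m (s / 2) (by omega)]
  · rw [show P * m + s / 2 - 1 = P * m + (s / 2 - 1) by omega, hu m (s / 2) (by omega), hu m (s / 2 - 1) (by omega)]

lemma lab_zero (hP : 1 ≤ P) (hu : ∀ n r, r < P → u (P * n + r) = f (u n) r)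
    (hpal : ∀ a r, r < P → f a (P - 1 - r) = f a r) {o : α} (ho : ∀ a, f a 0 = o) (m : ℕ) :
    lab u (2 * (P * m)) = lab (f (u m)) 0 := by
  have e : ∀ m : ℕ, u (P * m) = o := by
    intro m
    have := hu m 0 (by omega)
    rw [add_zero] at this
    rw [this, ho]
  have e1 : u (P * m - 1) = o := by
    rcases Nat.eq_zero_or_pos m with h | h
    · rw [h, mul_zero]
      have := e 0
      rwa [mul_zero] at this
    · obtain ⟨n, rfl⟩ : ∃ n, m = n + 1 := ⟨m - 1, by omega⟩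
      rw [show P * (n + 1) - 1 = P * n + (P - 1) by rw [Nat.mul_succ]; omega, hu n (P - 1) (by omega)]
      have := hpal (u n) 0 (by omega)
      rw [Nat.sub_zero] at this
      rw [this, ho]
  unfold lab
  rw [show (2 * (P * m)) % 2 = 0 by omega, show (2 * (P * m)) / 2 = P * m by omega, e1, e]
  simp [ho]

lemma lab_mir (hpal : ∀ a r, r < P → f a (P - 1 - r) = f a r) (a : α) (s : ℕ) (hs : 1 ≤ s) (hs' : s < P) :
    lab (f a) (2 * P - s) = (lab (f a) s).mir := by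
  unfold lab
  rcases Nat.mod_two_eq_zero_or_one s with h | h
  · rw [if_neg (by omega), if_neg (by omega), show (2 * P - s) / 2 = P - 1 - (s / 2 - 1) by omega,
      show P - 1 - (s / 2 - 1) - 1 = P - 1 - s / 2 by omega, hpal a _ (by omega), hpal a _ (by omega)]
    rfl
  · rw [if_pos (by omega), if_pos h, show (2 * P - s) / 2 = P - 1 - s / 2 by omega, hpal a _ (by omega)]
    rfl

/-- The decomposition of the half points. -/
lemma half_dec (hP : 2 ≤ P) (hu : ∀ n r, r < P → u (P * n + r) = f (u n) r)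
    (hpal : ∀ a r, r < P → f a (P - 1 - r) = f a r) (hsum : ∀ a, PS w (f a) P = Q * w a + c)
    {o : α} (ho : ∀ a, f a 0 = o) (hR : ∀ m, R (u (m - 1)) (u m)) (g : ℕ) :
    ∃ (h m : ℕ) (t e σ η : ℤ), (g : ℤ) = P * h + t ∧ HE w u g = Q * HE w u h + c * h + e ∧
      (g : ℤ) = 2 * P * m + σ ∧ HE w u g = Q * HE w u (2 * m) + 2 * c * m + η ∧
      Pt w f T P R (lab u h) t e σ η (lab u (2 * m)) (lab u g) := by
  obtain ⟨m, s, hs, hg⟩ : ∃ m s : ℕ, s < 2 * P ∧ g = 2 * (P * m) + s :=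
    ⟨g / (2 * P), g % (2 * P), Nat.mod_lt _ (by omega), by rw [← mul_assoc]; exact (Nat.div_add_mod g (2 * P)).symm⟩
  have hlabe : ∀ m, lab u (2 * m) = .B (u (m - 1)) (u m) := by
    intro m
    unfold lab
    rw [if_neg (by omega), show 2 * m / 2 = m by omega]
  have hlabo : lab u (2 * m + 1) = .C (u m) := by
    unfold lab
    rw [if_pos (by omega), show (2 * m + 1) / 2 = m by omega]
  have hEg := HE_block (w := w) hu hsum m s hs.le
  rw [← hg] at hEg
  have hlg : lab u g = lab (f (u m)) s := by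
    rw [hg]
    rcases Nat.eq_zero_or_pos s with h | h
    · rw [h, add_zero]; exact lab_zero (by omega) hu hpal ho m
    · exact lab_block hu m s h hs
  rcases le_or_gt s P with h1 | h1
  · rcases lt_or_ge (s + T (u m)) P with h2 | h2
    · refine ⟨2 * m, m, s, HE w (f (u m)) s, s, HE w (f (u m)) s, ?_, ?_, ?_, ?_, ?_⟩
      · rw [hg]; push_cast; ring
      · rw [hEg, HE_even]; push_cast; ring
      · rw [hg]; push_cast; ring
      · rw [hEg, HE_even]; ring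
      · rw [hlabe, hlg]
        exact Pt.br _ _ s (hR m) h2
    · refine ⟨2 * m + 1, m, -(P - s), -(PS w (f (u m)) P - HE w (f (u m)) s), s, HE w (f (u m)) s,
        ?_, ?_, ?_, ?_, ?_⟩
      · rw [hg]; push_cast; ring
      · rw [hEg, HE_odd, hsum]; push_cast; ring
      · rw [hg]; push_cast; ring
      · rw [hEg, HE_even]; ring
      · rw [hlabo, hlabe, hlg]
        exact Pt.cl _ _ s (hR m) h2 h1
  · obtain ⟨s', hs', rfl⟩ : ∃ s' : ℕ, s' < P ∧ s = 2 * P - s' := ⟨2 * P - s, by omega, by omega⟩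
    have h1' : 1 ≤ s' := by omega
    rw [HE_mir hpal _ _ hs'.le] at hEg
    rw [lab_mir hpal _ _ h1' hs'] at hlg
    have hgz : (g : ℤ) = 2 * (P * m) + (2 * P - s') := by
      rw [hg]
      push_cast [Nat.cast_sub (show s' ≤ 2 * P by omega)]
      ring
    rcases lt_or_ge (s' + T (u m)) P with h2 | h2
    · refine ⟨2 * (m + 1), m + 1, -s', -HE w (f (u m)) s', -s', -HE w (f (u m)) s',
        ?_, ?_, ?_, ?_, ?_⟩
      · rw [hgz]; push_cast; ring
      · rw [hEg, HE_even, PS_succ, hsum]; push_cast; ring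
      · rw [hgz]; push_cast; ring
      · rw [hEg, HE_even, PS_succ, hsum]; push_cast; ring
      · rw [hlabe, hlg]
        exact Pt.bl _ _ s' (hR (m + 1)) h2
    · refine ⟨2 * m + 1, m + 1, P - s', PS w (f (u m)) P - HE w (f (u m)) s', -s',
        -HE w (f (u m)) s', ?_, ?_, ?_, ?_, ?_⟩
      · rw [hgz]; push_cast; ring
      · rw [hEg, HE_odd, hsum]; push_cast; ring
      · rw [hgz]; push_cast; ring
      · rw [hEg, HE_even, PS_succ, hsum]; push_cast; ring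
      · rw [hlabo, hlabe, hlg]
        exact Pt.cr _ _ s' (hR (m + 1)) h2 hs'.le

lemma Pt_lt (hT : ∀ a, T a < P) {k : Lab α} {t e σ η : ℤ} {β l : Lab α} (h : Pt w f T P R k t e σ η β l) :
    |t| < P ∧ |σ| ≤ P := by
  cases h with
  | br b a s hR h => rw [abs_lt, abs_le]; omega
  | bl b a s hR h => rw [abs_lt, abs_le]; omega
  | cl b a s hR h h' => have := hT a; rw [abs_lt, abs_le]; omega
  | cr b a s hR h h' => have := hT b; rw [abs_lt, abs_le]; omega

/-- **The refined criterion of Dekking.** -/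
theorem no_cube_ref (hP : 3 ≤ P) (hQ : Q ≠ 0) (hu : ∀ n r, r < P → u (P * n + r) = f (u n) r)
    (hpal : ∀ a r, r < P → f a (P - 1 - r) = f a r) (hsum : ∀ a, PS w (f a) P = Q * w a + c)
    {o : α} (ho : ∀ a, f a 0 = o) (hT : ∀ a, T a < P) (hR : ∀ m, R (u (m - 1)) (u m))
    {X : Lab α → Lab α → Lab α → Lab α → Prop}
    (H : ∀ (k₀ k₁ k₂ k₃ : Lab α) (t₀ t₁ t₂ t₃ e₀ e₁ e₂ e₃ σ₀ σ₁ σ₂ σ₃ η₀ η₁ η₂ η₃ : ℤ)
      (β₀ β₁ β₂ β₃ l₀ l₁ l₂ l₃ : Lab α),
      Pt w f T P R k₀ t₀ e₀ σ₀ η₀ β₀ l₀ → Pt w f T P R k₁ t₁ e₁ σ₁ η₁ β₁ l₁ →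
      Pt w f T P R k₂ t₂ e₂ σ₂ η₂ β₂ l₂ → Pt w f T P R k₃ t₃ e₃ σ₃ η₃ β₃ l₃ →
      InL P Q c (σ₀ + σ₂ - 2 * σ₁) (η₀ + η₂ - 2 * η₁) → InL P Q c (σ₁ + σ₃ - 2 * σ₂) (η₁ + η₃ - 2 * η₂) →
      X l₀ l₁ l₂ l₃ ∨
      (AP4 t₀ t₁ t₂ t₃ ∧ AP4 e₀ e₁ e₂ e₃ ∧ (t₀ ≠ t₁ → k₀ = k₁ → k₁ = k₂ → k₂ = k₃ → X l₀ l₁ l₂ l₃) ∧
        (X k₀ k₁ k₂ k₃ → X l₀ l₁ l₂ l₃)) ∨
      (AP4 σ₀ σ₁ σ₂ σ₃ ∧ AP4 η₀ η₁ η₂ η₃ ∧ (σ₀ ≠ σ₁ → β₀ = β₁ → β₁ = β₂ → β₂ = β₃ → X l₀ l₁ l₂ l₃)))
    (hF : ∀ b₀ a₀ b₁ a₁ b₂ a₂ b₃ a₃ : α, ¬ X (.B b₀ a₀) (.B b₁ a₁) (.B b₂ a₂) (.B b₃ a₃)) :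
    ∀ l i : ℕ, 1 ≤ l →
      ¬ (PS w u i + PS w u (i + 2 * l) = 2 * PS w u (i + l) ∧
          PS w u (i + l) + PS w u (i + 3 * l) = 2 * PS w u (i + 2 * l)) := by
  rintro l i hl ⟨h1, h2⟩
  have hlabe : ∀ m, lab u (2 * m) = .B (u (m - 1)) (u m) := by
    intro m
    unfold lab
    rw [if_neg (by omega), show 2 * m / 2 = m by omega]
  have h := descent (lab := lab u) (E := HE w u) hP hQ (D := Pt w f T P R) (X := X)
    (IsB := fun L => ∃ b a, L = .B b a)
    (half_dec (by omega) hu hpal hsum ho hR) (fun m => ⟨PS w u m, HE_even m⟩) (fun m => ⟨_, _, hlabe m⟩)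
    (fun k t e σ η β k' h => Pt_lt hT h) H (by
      rintro _ _ _ _ ⟨b0, a0, rfl⟩ ⟨b1, a1, rfl⟩ ⟨b2, a2, rfl⟩ ⟨b3, a3, rfl⟩
      exact hF _ _ _ _ _ _ _ _) (2 * l) (2 * i) (by omega)
    (by
      rw [show 2 * i + 2 * (2 * l) = 2 * (i + 2 * l) by ring, show 2 * i + 2 * l = 2 * (i + l) by ring, HE_even, HE_even,
        HE_even]
      linarith)
    (by
      rw [show 2 * i + 2 * (2 * l) = 2 * (i + 2 * l) by ring, show 2 * i + 2 * l = 2 * (i + l) by ring,
        show 2 * i + 3 * (2 * l) = 2 * (i + 3 * l) by ring, HE_even, HE_even, HE_even]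
      linarith)
  rw [show 2 * i + 2 * (2 * l) = 2 * (i + 2 * l) by ring, show 2 * i + 2 * l = 2 * (i + l) by ring,
    show 2 * i + 3 * (2 * l) = 2 * (i + 3 * l) by ring] at h
  rw [hlabe, hlabe, hlabe, hlabe] at h
  exact hF _ _ _ _ _ _ _ _ h

end Sub

end Pool.Agent.E25
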