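import Pool.Agent.E25.KerS
import Pool.Agent.E25.Ref
import Mathlib.Data.ZMod.Basic

/-!
The checker for the refined criterion of Dekking (`no_cube_ref`).

The group `ℤ² / ⟨(2 P, 2 c), (0, 2 Q)⟩` has four cosets `(σ mod 2, η mod 2)` of a group with `N = P Q` elements; only
`κ = 0 : (0, 0)`, `κ = 1 : (1, 0)` and `κ = 2 : (1, 1)` contain points.  The signed points of the blocks are listed in
increasing order of `κ N + z`, where `z = al x + P y` modulo `N` is the class of `(σ, η) = (σ₀ + 2 x, η₀ + 2 y)`.  An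
entry is a number of 512 bits: `z` (32), `t + P` (16), mask of the types (16), mask of the blocks (16), `κ` (16), index
of the negative (16), `σ + P` (16), `e + OF` (128), the types in the 16 frames (4 bits each), flag (16, then 48 bits of
zeros; `1` if `(σ, η)` is not unique), `η + OF` (128).  The types are the letters and the number `K` (boundary).
-/

set_option autoImplicit false
set_option linter.unusedSectionVars false
set_option linter.unusedVariables false

namespace Pool.Agent.E25.Ker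

/-- Pack numbers of width `w`. -/
noncomputable def pk (w : ℕ) (l : List ℕ) : ℕ := List.rec 0 (fun c _ ih => Nat.add c (Nat.shiftLeft ih w)) l

/-- Evaluate a number before its use. -/
noncomputable def gN (n : ℕ) (k : ℕ → ℕ) : ℕ := Nat.rec (k 0) (fun m _ => k (Nat.succ m)) n

@[simp] lemma gN_eq (n : ℕ) (k : ℕ → ℕ) : gN n k = k n := by cases n <;> rfl

/-- Entry number `i` of width `w`, in two steps. -/
def tv (w x i : ℕ) : ℕ := tb w (tb (Nat.mul w 128) x (Nat.div i 128)) (Nat.mod i 128)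

/-- Continuation form. -/
noncomputable def tk (w x i : ℕ) (k : ℕ → Bool) : Bool :=
  fN (Nat.div i 128) fun j => fN (tb (Nat.mul w 128) x j) fun c => fN (tb w c (Nat.mod i 128)) k

@[simp] lemma tk_eq (w x i : ℕ) (k : ℕ → Bool) : tk w x i k = k (tv w x i) := by
  unfold tk tv; simp

/-- The union of the sets `p i`, `i < n`. -/
noncomputable def bld (pos val : ℕ → ℕ) (d : ℕ) : ℕ → ℕ :=
  Nat.rec (fun lo => val lo) (fun d ih lo => gN (Nat.add lo (Nat.pow 2 d)) fun m =>
    Nat.lor (ih lo) (Nat.shiftLeft (ih m) (Nat.sub (pos m) (pos lo)))) d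

lemma bld_succ (pos val : ℕ → ℕ) (d lo : ℕ) :
    bld pos val (d + 1) lo = bld pos val d lo ||| (bld pos val d (lo + 2 ^ d)) <<< (pos (lo + 2 ^ d) - pos lo) := by
  have : bld pos val (d + 1) lo = gN (Nat.add lo (Nat.pow 2 d)) fun m =>
    Nat.lor (bld pos val d lo) (Nat.shiftLeft (bld pos val d m) (Nat.sub (pos m) (pos lo))) := rfl
  rw [this, gN_eq]; rfl

lemma bld_spec {pos val : ℕ → ℕ} {n : ℕ} (hm : ∀ i j, i ≤ j → j < n → pos i ≤ pos j) :
    ∀ (d lo i : ℕ), lo ≤ i → i < lo + 2 ^ d → i < n → (val i).testBit 0 = true →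
      (bld pos val d lo).testBit (pos i - pos lo) = true := by
  intro d
  induction d with
  | zero =>
    intro lo i h1 h2 h3 h4
    have : i = lo := by simp at h2; omega
    subst this
    simpa [bld] using h4
  | succ d ih =>
    intro lo i h1 h2 h3 h4
    rw [bld_succ, Nat.testBit_or, Nat.testBit_shiftLeft]
    rcases lt_or_ge i (lo + 2 ^ d) with h | h
    · rw [ih lo i h1 h h3 h4]; rfl
    · have e1 := ih (lo + 2 ^ d) i h (by rw [pow_succ] at h2; omega) h3 h4
      have m1 := hm lo (lo + 2 ^ d) (by omega) (by omega)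
      have m2 := hm (lo + 2 ^ d) i h h3
      have e2 : pos i - pos lo - (pos (lo + 2 ^ d) - pos lo) = pos i - pos (lo + 2 ^ d) := by omega
      rw [e2, e1]
      have e3 : pos (lo + 2 ^ d) - pos lo ≤ pos i - pos lo := by omega
      simp [e3]

/-! ### Fields of an entry -/

/-- class -/
def eZ (e : ℕ) : ℕ := Nat.mod e (Nat.pow 2 32)

/-- position -/
def eT (e : ℕ) : ℕ := tb 16 e 2

/-- types -/
def eM (e : ℕ) : ℕ := tb 16 e 3

/-- blocks -/
def eA (e : ℕ) : ℕ := tb 16 e 4

/-- coset -/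
def eK (e : ℕ) : ℕ := tb 16 e 5

/-- index of the negative -/
def eN (e : ℕ) : ℕ := tb 16 e 6

/-- position relative to the boundary -/
def eS (e : ℕ) : ℕ := tb 16 e 7

/-- value -/
def eE (e : ℕ) : ℕ := tb 128 e 1

/-- value relative to the boundary -/
def eH (e : ℕ) : ℕ := tb 128 e 3

/-- flag -/
def eF (e : ℕ) : ℕ := tb 16 e 20

/-- type in the frame `k` -/
def nib (e k : ℕ) : ℕ := tb 4 e (Nat.add 64 k)

/-- The code of a quadruple of types. -/
def cd (a b c d : ℕ) : ℕ := Nat.add (Nat.mul (Nat.add (Nat.mul (Nat.add (Nat.mul a 16) b) 16) c) 16) d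

/-- Selection. -/
noncomputable def sel3 (k a b c : ℕ) : ℕ := Bool.rec (Bool.rec c b (Nat.beq k 1)) a (Nat.beq k 0)

/-- The data. -/
structure NumR where
  /-- blocks -/
  D : Dat
  /-- factor of the weights -/
  Q : ℕ
  /-- positive part of the constant -/
  cp : ℕ
  /-- negative part of the constant -/
  cm : ℕ
  /-- weights -/
  W : ℕ
  /-- prefix sums -/
  S : ℕ
  /-- coefficient -/
  al : ℕ
  /-- cuts -/
  T : ℕ
  /-- pairs of letters -/
  R : ℕ
  /-- number of the signed points -/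
  n : ℕ
  /-- depth -/
  dp : ℕ
  /-- entries -/
  EN : ℕ
  /-- offset of the values -/
  OF : ℕ
  /-- indices of the points -/
  IX : ℕ
  /-- exceptional quadruples of types -/
  XL : List ℕ
  /-- classes of the points of a coset -/
  V : ℕ → ℕ
  /-- halves -/
  H : ℕ → ℕ → ℕ

namespace NumR

variable (M : NumR)

/-- The order of the group. -/
def N : ℕ := Nat.mul M.D.P M.Q

/-- Weights. -/
def wt (a : ℕ) : ℕ := tb 64 M.W a

/-- Prefix sums. -/
def ps (a t : ℕ) : ℕ := tv 96 M.S (Nat.add (Nat.mul a (Nat.succ M.D.P)) t)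

/-- Continuation form. -/
noncomputable def psK (a t : ℕ) (k : ℕ → Bool) : Bool := tk 96 M.S (Nat.add (Nat.mul a (Nat.succ M.D.P)) t) k

/-- Values at half points. -/
def hs (a s : ℕ) : ℕ := Nat.add (M.ps a (Nat.div s 2)) (M.ps a (Nat.div (Nat.succ s) 2))

/-- Continuation form. -/
noncomputable def hsK (a s : ℕ) (k : ℕ → Bool) : Bool :=
  M.psK a (Nat.div s 2) fun x => M.psK a (Nat.div (Nat.succ s) 2) fun y => fN (Nat.add x y) k

/-- Cuts. -/
def cut (a : ℕ) : ℕ := tb 16 M.T a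

/-- Is the half point in the frame of the boundary? -/
def frb (a s : ℕ) : Bool := Nat.ble (Nat.succ (Nat.add s (M.cut a))) M.D.P

/-- Entry. -/
def en (i : ℕ) : ℕ := tv 512 M.EN i

/-- Continuation form. -/
noncomputable def enK (i : ℕ) (k : ℕ → Bool) : Bool := tk 512 M.EN i k

/-- Type of a half point. -/
noncomputable def ty (a s : ℕ) : ℕ := Bool.rec M.D.K (M.D.le a (Nat.succ (Nat.div s 2))) (Nat.beq (Nat.mod s 2) 1)

/-- Coset of a point. -/
noncomputable def kap (s h : ℕ) : ℕ := Bool.rec 0 (Bool.rec 1 2 (Nat.beq (Nat.mod h 2) 1)) (Nat.beq (Nat.mod s 2) 1)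

/-- Class of a point. -/
def zz (s h : ℕ) : ℕ := Nat.mod (Nat.add (Nat.mul M.al (Nat.div s 2)) (Nat.mul M.D.P (Nat.div h 2))) M.N

/-- Class of the representative of a coset. -/
noncomputable def th (k : ℕ) : ℕ := sel3 k 0 M.al (Nat.add M.al M.D.P)

/-- Class of the negative. -/
noncomputable def ngz (k z : ℕ) : ℕ := Nat.mod (Nat.sub M.N (Nat.mod (Nat.add z (M.th k)) M.N)) M.N

/-- Check of the two entries of a point; `e` belongs to the position `t`, `e'` to `-t`. -/
noncomputable def chkE (t v fr y ka z z' i j e e' : ℕ) : Bool :=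
  fN (eM e) fun m => fN (eM e') fun m' =>
    an (Nat.beq (eZ e) z) (an (Nat.beq (eT e) (Nat.add M.D.P t)) (an (Nat.beq (eE e) (Nat.add M.OF v))
    (an (Nat.beq (eZ e') z') (an (Nat.beq (Nat.add (eT e') t) M.D.P)
    (an (Nat.beq (Nat.add (eE e') v) M.OF) (an (bt m y) (an (bt m' y)
    (an (Nat.beq (nib e fr) y) (an (Nat.beq (nib e' fr) y) (an (Nat.beq (eK e) ka) (an (Nat.beq (eK e') ka)
    (an (Nat.beq (eN e) j) (Nat.beq (eN e') i)))))))))))))

/-- Check of the boundary coordinates `(s, h)` of `e` and `(-s, -h)` of `e'`. -/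
noncomputable def chkB (a s h e e' : ℕ) : Bool :=
  an (orr (Nat.beq (eF e) 1) (an (Nat.beq (eS e) (Nat.add M.D.P s)) (an (Nat.beq (eH e) (Nat.add M.OF h)) (bt (eA e) a))))
    (orr (Nat.beq (eF e') 1) (an (Nat.beq (Nat.add (eS e') s) M.D.P) (an (Nat.beq (Nat.add (eH e') h) M.OF)
      (bt (eA e') a))))

/-- Check of a half point. -/
noncomputable def chkP (a s : ℕ) : Bool :=
  M.hsK a s fun h => fN (M.ty a s) fun y => fN (kap s h) fun ka => fN (M.zz s h) fun z => fN (M.ngz ka z) fun z' =>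
    tk 32 M.IX (Nat.add (Nat.mul a (Nat.succ M.D.P)) s) fun x =>
      fN (Nat.mod x 65536) fun i => fN (Nat.div x 65536) fun j =>
        an (Nat.ble (Nat.succ i) M.n) (an (Nat.ble (Nat.succ j) M.n)
          (M.enK i fun e => M.enK j fun e' =>
            Bool.rec
              (M.psK a M.D.P fun p => an (Nat.ble h p) (an
                (M.chkE (Nat.sub M.D.P s) (Nat.sub p h) a y ka z' z i j e e') (M.chkB a s h e' e)))
              (an (M.chkE s h M.D.K y ka z z' i j e e') (M.chkB a s h e e')) (M.frb a s)))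

/-- All half points of a block. -/
noncomputable def chkI (a : ℕ) : Bool := allN (fun s => M.chkP a s) (Nat.succ M.D.P)

/-- Key of an entry. -/
def kyE (e : ℕ) : ℕ := Nat.add (Nat.mul (eK e) M.N) (eZ e)

/-- Order. -/
noncomputable def chkO : Bool :=
  an (an (Nat.ble 1 M.n) (Nat.ble M.n (Nat.pow 2 M.dp))) (an
    (allN (fun i => M.enK i fun e => an (Nat.ble (Nat.succ (eZ e)) M.N) (Nat.ble (eK e) 2)) M.n)
    (allN (fun i => M.enK i fun e => M.enK (Nat.succ i) fun e' => Nat.ble (Nat.succ (M.kyE e)) (M.kyE e'))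
      (Nat.sub M.n 1)))

/-- Key of an entry. -/
noncomputable def ky (i : ℕ) : ℕ :=
  gN (Nat.div i 128) fun j => gN (tb (Nat.mul 512 128) M.EN j) fun c => gN (tb 512 c (Nat.mod i 128)) fun e => M.kyE e

lemma ky_eq (i : ℕ) : M.ky i = M.kyE (M.en i) := by
  unfold ky en tv; simp

/-- Coset of an entry. -/
noncomputable def kk (i : ℕ) : ℕ :=
  gN (Nat.div i 128) fun j => gN (tb (Nat.mul 512 128) M.EN j) fun c => gN (tb 512 c (Nat.mod i 128)) fun e => eK e

lemma kk_eq (i : ℕ) : M.kk i = eK (M.en i) := by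
  unfold kk en tv; simp

/-- The classes of a coset. -/
noncomputable def Vb (k : ℕ) : ℕ :=
  Nat.shiftRight (Nat.shiftLeft (bld M.ky (fun i => Bool.rec 0 (Bool.rec 0 1 (Nat.beq (M.kk i) k))
    (Nat.ble (Nat.succ i) M.n)) M.dp 0) (M.ky 0)) (Nat.mul k M.N)

/-- Shift. -/
def wsh (k z : ℕ) : ℕ := Nat.sub (Nat.add (Nat.mul 2 M.N) z) (Nat.mul k M.N)

/-- Halves of the numbers `z + ze` of parity `b`, `z` a class of the coset `k`. -/
noncomputable def Hb (k b ze : ℕ) : ℕ :=
  gN (M.wsh k ze) fun w =>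
  Nat.shiftRight (Nat.shiftLeft (bld (fun i => Nat.div (Nat.add (M.ky i) w) 2) (fun i => Bool.rec 0 (Bool.rec 0 (Bool.rec
    0 1 (Nat.beq (Nat.mod (Nat.add (M.ky i) w) 2) b)) (Nat.beq (M.kk i) k)) (Nat.ble (Nat.succ i) M.n)) M.dp 0)
    (Nat.div (Nat.add (M.ky 0) w) 2)) M.N

/-- Check of the classes. -/
noncomputable def chkV (k : ℕ) : Bool := Nat.beq (M.V k) (M.Vb k)

/-- Check of the halves. -/
noncomputable def chkH (k b : ℕ) : Bool := Nat.beq (M.H k b) (Nat.lor (M.Hb k b 0) (M.Hb k b M.N))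

/-- A number and its copy. -/
def dbl (x : ℕ) : ℕ := Nat.lor x (Nat.shiftLeft x M.N)

/-- Is the quadruple exceptional? -/
noncomputable def inX (a b c d : ℕ) : Bool := fN (cd a b c d) fun x => anyL (fun q => Nat.beq q x) M.XL

/-- If all four types are defined, then the quadruple is exceptional. -/
noncomputable def imX (e0 k0 e1 k1 e2 k2 e3 k3 : ℕ) : Bool :=
  fN (nib e0 k0) fun a => im (ng (Nat.beq a 15)) (fN (nib e1 k1) fun b => im (ng (Nat.beq b 15))
    (fN (nib e2 k2) fun c => im (ng (Nat.beq c 15)) (fN (nib e3 k3) fun d => im (ng (Nat.beq d 15)) (M.inX a b c d))))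

/-- Closure. -/
noncomputable def okC (e0 e1 e2 e3 : ℕ) : Bool :=
  allL (fun q => M.imX e0 (tb 4 q 3) e1 (tb 4 q 2) e2 (tb 4 q 1) e3 (tb 4 q 0)) M.XL

/-- Intersection of the masks of the blocks of the entries with `σ > 0` (`sg = 1`) or `σ < 0` (`sg = 0`). -/
noncomputable def mk1 (sg e : ℕ) (m : ℕ) : ℕ :=
  Bool.rec m (Nat.land (eA e) m)
    (Bool.rec (Nat.ble (Nat.succ M.D.P) (eS e)) (Nat.ble (Nat.succ (eS e)) M.D.P) (Nat.beq sg 0))

/-- Is there an allowed pair? -/
noncomputable def prs (e0 e1 e2 e3 : ℕ) : Bool :=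
  fN (M.mk1 0 e0 (M.mk1 0 e1 (M.mk1 0 e2 (M.mk1 0 e3 65535)))) fun b =>
    fN (M.mk1 1 e0 (M.mk1 1 e1 (M.mk1 1 e2 (M.mk1 1 e3 65535)))) fun a =>
      ng (allN (fun i => allN (fun j => ng (an (bt b i) (an (bt a j) (bt M.R (Nat.add (Nat.mul i M.D.K) j)))))
        M.D.K) M.D.K)

/-- Progressions inside one frame. -/
noncomputable def okD (e0 e1 e2 e3 : ℕ) : Bool := allN (fun a => M.imX e0 a e1 a e2 a e3 a) (Nat.succ M.D.K)

/-- Four numbers in progression. -/
noncomputable def ap4 (a b c d : ℕ) : Bool := an (Nat.beq (Nat.add a c) (Nat.mul 2 b)) (Nat.beq (Nat.add b d) (Nat.mul 2 c))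

/-- Is the progression exact? -/
noncomputable def zc (e0 e1 e2 e3 : ℕ) : Bool := an (ap4 (eT e0) (eT e1) (eT e2) (eT e3)) (ap4 (eE e0) (eE e1) (eE e2) (eE e3))

/-- Is the progression exact in the coordinates of the boundaries? -/
noncomputable def zs (e0 e1 e2 e3 : ℕ) : Bool :=
  an (an (Nat.beq (eF e0) 0) (an (Nat.beq (eF e1) 0) (an (Nat.beq (eF e2) 0) (Nat.beq (eF e3) 0))))
    (an (ap4 (eS e0) (eS e1) (eS e2) (eS e3)) (ap4 (eH e0) (eH e1) (eH e2) (eH e3)))

/-- All quadruples of types of the four entries are exceptional. -/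
noncomputable def okN (e0 e1 e2 e3 : ℕ) : Bool :=
  fN (eM e0) fun m0 => fN (eM e1) fun m1 => fN (eM e2) fun m2 => fN (eM e3) fun m3 =>
    allN (fun a => im (bt m0 a) (allN (fun b => im (bt m1 b) (allN (fun c => im (bt m2 c) (allN (fun d =>
      im (bt m3 d) (M.inX a b c d)) (Nat.succ M.D.K))) (Nat.succ M.D.K))) (Nat.succ M.D.K))) (Nat.succ M.D.K)

/-- Check of a progression. -/
noncomputable def okAP (e0 e1 e2 e3 : ℕ) : Bool :=
  Bool.rec (Bool.rec (M.okN e0 e1 e2 e3) (an (M.okC e0 e1 e2 e3) (M.okD e0 e1 e2 e3)) (zc e0 e1 e2 e3))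
    (im (M.prs e0 e1 e2 e3) (M.okN e0 e1 e2 e3)) (zs e0 e1 e2 e3)

/-- Check of a record: difference (32), three indices (16); `c`, `p` class and coset of `e`, `q` coset of the
neighbours, `u`, `v` the classes of the representatives. -/
noncomputable def chkRec (e c p q u v r : ℕ) : Bool :=
  fN (Nat.mod r (Nat.pow 2 32)) fun d => fN (tb 16 r 2) fun i0 => fN (tb 16 r 3) fun i2 => fN (tb 16 r 4) fun i3 =>
    an (Nat.ble (Nat.succ i0) M.n) (an (Nat.ble (Nat.succ i2) M.n) (an (Nat.ble (Nat.succ i3) M.n)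
      (M.enK i0 fun e0 => M.enK i2 fun e2 => M.enK i3 fun e3 =>
        an (Nat.beq (eK e0) q) (an (Nat.beq (eK e2) q) (an (Nat.beq (eK e3) p)
        (an (Nat.beq (Nat.mod (Nat.add (eZ e0) (Nat.add d v)) M.N) (Nat.mod (Nat.add c u) M.N))
        (an (Nat.beq (Nat.mod (Nat.add c d) M.N) (eZ e2))
          (an (Nat.beq (Nat.mod (Nat.add c (Nat.add (Nat.mul 2 d) v)) M.N) (Nat.mod (Nat.add (eZ e3) u) M.N))
            (M.okAP e0 e e2 e3)))))))))

/-- The set of the differences of the records. -/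
noncomputable def accL (b : ℕ) (rs : List ℕ) : ℕ :=
  List.rec b (fun r _ ih => Nat.lor ih (Nat.shiftLeft 1 (Nat.mod r (Nat.pow 2 32)))) rs

/-- The differences. -/
noncomputable def dif (c p q u v : ℕ) : ℕ :=
  gN (Nat.mod (Nat.add c (Nat.add v (Nat.sub M.N (Nat.mod u M.N)))) M.N) fun c' =>
  Nat.land (Nat.land (Nat.shiftRight (M.dbl (M.V q)) c) (Nat.shiftRight (M.dbl (M.V q)) (M.ngz p c)))
    (Nat.land (Nat.shiftRight (M.dbl (M.H p (Nat.mod c' 2))) (Nat.div c' 2)) (Nat.sub (Nat.pow 2 M.N) 1))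

/-- Check of an entry, neighbours in the coset `q`. -/
noncomputable def chkq (e c p q : ℕ) (rs : List ℕ) : Bool :=
  fN (M.th p) fun u => fN (M.th q) fun v =>
    an (Nat.beq (M.dif c p q u v) (accL (Bool.rec 0 1 (Nat.beq p q)) rs)) (allL (fun r => M.chkRec e c p q u v r) rs)

/-- Neighbours in the cosets `q, ..., 2`. -/
noncomputable def chkQs (e c p : ℕ) (L : List (List ℕ)) : ℕ → Bool :=
  List.rec (fun q => Nat.beq q 3) (fun rs _ ih q => an (M.chkq e c p q rs) (ih (Nat.succ q))) L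

/-- Check of an entry with its records. -/
noncomputable def chk1 (i : ℕ) (L : List (List ℕ)) : Bool :=
  M.enK i fun e => an (M.okC e e e e) (im (Nat.ble i (eN e)) (fN (eZ e) fun c => fN (eK e) fun p => M.chkQs e c p L p))

/-- Check of the entries from `lo` on. -/
noncomputable def chkX (L : List (List (List ℕ))) : ℕ → Bool :=
  List.rec (fun _ => true) (fun rs _ ih lo => an (M.chk1 lo rs) (ih (Nat.succ lo))) L

/-- Prefix sums, weights. -/
noncomputable def chkS : Bool :=
  allN (fun a => an (M.psK a 0 fun x => Nat.beq x 0) (an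
    (M.psK a M.D.P fun x => Nat.beq (Nat.add x M.cm) (Nat.add (Nat.mul M.Q (M.wt a)) M.cp))
    (an (allN (fun b => ng (Nat.beq (M.wt a) (M.wt b))) a)
    (allN (fun t => M.psK a t fun x => M.psK a (Nat.succ t) fun y =>
      Nat.beq y (Nat.add x (M.wt (M.D.le a (Nat.succ t))))) M.D.P))))
    M.D.K

/-- Constants, cuts, pairs. -/
noncomputable def chkT : Bool :=
  an (an (Nat.ble 3 M.D.P) (an (Nat.ble 1 M.Q) (Nat.ble M.D.K 14)))
    (an (Nat.beq (Nat.mod (Nat.add M.al M.cp) M.Q) (Nat.mod M.cm M.Q))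
    (an (allN (fun a => an (Nat.ble (Nat.succ (M.cut a)) M.D.P) (allN (fun i => bt M.R (Nat.add (Nat.mul (M.D.le a
      (Nat.succ i)) M.D.K) (M.D.le a (Nat.succ (Nat.succ i))))) (Nat.sub M.D.P 1))) M.D.K)
    (an (bt M.R (Nat.add (Nat.mul M.D.o M.D.K) M.D.o))
    (allN (fun i => allN (fun j => im (bt M.R (Nat.add (Nat.mul i M.D.K) j)) (bt M.R (Nat.add (Nat.mul j M.D.K) i)))
      M.D.K) M.D.K))))

/-- The exceptional quadruples: closed under reversal, small codes, not four boundaries. -/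
noncomputable def chkF : Bool :=
  an (ng (M.inX M.D.K M.D.K M.D.K M.D.K))
    (allL (fun q => an (Nat.beq (cd (tb 4 q 3) (tb 4 q 2) (tb 4 q 1) (tb 4 q 0)) q)
      (M.inX (tb 4 q 0) (tb 4 q 1) (tb 4 q 2) (tb 4 q 3))) M.XL)

end NumR

end Pool.Agent.E25.Ker
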