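import Pool.Agent.E25.KerR

/-!
Soundness of the checker for the refined criterion of Dekking.
-/

set_option autoImplicit false
set_option linter.unusedSectionVars false
set_option linter.unusedVariables false

namespace Pool.Agent.E25.Ker.NumR

variable {M : NumR}

/-- The letters as integers. -/
def wz (M : NumR) (a : Fin M.D.K) : ℤ := (M.wt a : ℤ)

/-- The blocks. -/
def fb (M : NumR) [NeZero M.D.K] (a : Fin M.D.K) (r : ℕ) : Fin M.D.K := M.D.F a r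

/-- The cuts. -/
def Tc (M : NumR) (a : Fin M.D.K) : ℕ := M.cut a

/-- The allowed pairs. -/
def Rc (M : NumR) (b a : Fin M.D.K) : Prop := bt M.R ((b : ℕ) * M.D.K + a) = true

/-- The type of a label. -/
def cz {K : ℕ} : Lab (Fin K) → ℕ
  | .C a => a
  | .B _ _ => K

lemma cz_mir {K : ℕ} (l : Lab (Fin K)) : cz l.mir = cz l := by cases l <;> rfl

lemma cz_le {K : ℕ} (l : Lab (Fin K)) : cz l ≤ K := by
  cases l with
  | C a => exact a.2.le
  | B b a => exact le_rfl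

lemma S_spec (hS : M.chkS = true) {a : ℕ} (ha : a < M.D.K) : M.ps a 0 = 0 ∧
    M.ps a M.D.P + M.cm = M.Q * M.wt a + M.cp ∧ (∀ b, b < a → M.wt a ≠ M.wt b) ∧
    ∀ t, t < M.D.P → M.ps a (t + 1) = M.ps a t + M.wt (M.D.le a (t + 1)) := by
  unfold chkS at hS
  have h := allN_iff.mp hS a ha
  unfold psK at h
  simp only [tk_eq] at h
  rw [an_iff, an_iff, an_iff] at h
  obtain ⟨h1, h2, h3, h4⟩ := h
  refine ⟨Nat.beq_eq.mp h1, Nat.beq_eq.mp h2, ?_, ?_⟩
  · intro b hb he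
    have := allN_iff.mp h3 b hb
    rw [ng_iff] at this
    exact this (Nat.beq_eq.mpr he)
  · intro t ht
    exact Nat.beq_eq.mp (allN_iff.mp h4 t ht)

lemma ps_eq [NeZero M.D.K] (hA : M.D.chkA = true) (hS : M.chkS = true) (a : Fin M.D.K) :
    ∀ r, r ≤ M.D.P → PS M.wz (M.fb a) r = (M.ps a r : ℤ) := by
  obtain ⟨h1, h2, h3, h4⟩ := S_spec hS a.2
  intro r
  induction r with
  | zero =>
    intro _
    rw [PS_zero, h1]; rfl
  | succ r ih =>
    intro hr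
    rw [PS_succ, ih (by omega), h4 r (by omega)]
    have : M.wz (M.fb a r) = (M.wt (M.D.le a (r + 1)) : ℤ) := by
      unfold wz fb
      rw [Dat.F_val hA (by omega) (by omega)]
      congr 3
    rw [this]; push_cast; ring

lemma hs_eq [NeZero M.D.K] (hA : M.D.chkA = true) (hS : M.chkS = true) (a : Fin M.D.K) (s : ℕ) (hs : s ≤ M.D.P) :
    HE M.wz (M.fb a) s = (M.hs a s : ℤ) := by
  unfold HE
  rw [ps_eq hA hS a _ (by omega), ps_eq hA hS a _ (by omega)]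
  have : M.hs a s = M.ps a (s / 2) + M.ps a ((s + 1) / 2) := rfl
  rw [this]; push_cast; ring

lemma ty_eq [NeZero M.D.K] (hA : M.D.chkA = true) (a : Fin M.D.K) (s : ℕ) (hs : s ≤ M.D.P) :
    cz (lab (M.fb a) s) = M.ty a s := by
  have h : M.ty a s = if s % 2 = 1 then M.D.le a (s / 2 + 1) else M.D.K := by
    unfold ty
    have e : Nat.mod s 2 = s % 2 := rfl
    rw [e]
    rcases Nat.mod_two_eq_zero_or_one s with h | h
    · rw [h]; rfl
    · rw [h]; rfl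
  rw [h]
  unfold lab
  split_ifs with h'
  · show ((M.fb a (s / 2) : Fin M.D.K) : ℕ) = _
    unfold fb
    rw [Dat.F_val hA (by omega) (by omega)]
    congr 1
  · rfl

/-! ### Classes -/

/-- First coordinate of the representative of a coset. -/
def s0 (k : ℕ) : ℤ := if k = 0 then 0 else 1

/-- Second coordinate of the representative of a coset. -/
def h0 (k : ℕ) : ℤ := if k = 2 then 1 else 0

/-- The entry has the class of the point. -/
def Cl (M : NumR) (σ η : ℤ) (E : ℕ) : Prop := eK E ≤ 2 ∧ ∃ x y : ℤ, σ = s0 (eK E) + 2 * x ∧ η = h0 (eK E) + 2 * y ∧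
  ((eZ E : ℕ) : ZMod M.N) = (M.al : ZMod M.N) * x + (M.D.P : ZMod M.N) * y

lemma th_cast {k : ℕ} (hk : k ≤ 2) : ((M.th k : ℕ) : ZMod M.N) = (M.al : ZMod M.N) * s0 k + (M.D.P : ZMod M.N) * h0 k := by
  obtain rfl | rfl | rfl : k = 0 ∨ k = 1 ∨ k = 2 := by omega
  · show ((0 : ℕ) : ZMod M.N) = _
    simp [s0, h0]
  · show ((M.al : ℕ) : ZMod M.N) = _
    simp [s0, h0]
  · show ((M.al + M.D.P : ℕ) : ZMod M.N) = _
    simp [s0, h0]

lemma kap_eq (s h : ℕ) : kap s h = if s % 2 = 1 then (if h % 2 = 1 then 2 else 1) else 0 := by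
  unfold kap
  have e1 : Nat.mod s 2 = s % 2 := rfl
  have e2 : Nat.mod h 2 = h % 2 := rfl
  rw [e1, e2]
  rcases Nat.mod_two_eq_zero_or_one s with h1 | h1 <;> rcases Nat.mod_two_eq_zero_or_one h with h2 | h2 <;>
    rw [h1, h2] <;> rfl

lemma kap_spec {s h : ℕ} (hh : s % 2 = 0 → h % 2 = 0) : kap s h ≤ 2 ∧ (s : ℤ) = s0 (kap s h) + 2 * ((s / 2 : ℕ) : ℤ) ∧
    (h : ℤ) = h0 (kap s h) + 2 * ((h / 2 : ℕ) : ℤ) := by
  rw [kap_eq]
  unfold s0 h0
  rcases Nat.mod_two_eq_zero_or_one s with h1 | h1 <;> rcases Nat.mod_two_eq_zero_or_one h with h2 | h2 <;>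
    simp only [h1, h2] <;> norm_num <;> omega

lemma zz_cast (s h : ℕ) : ((M.zz s h : ℕ) : ZMod M.N) = (M.al : ZMod M.N) * ((s / 2 : ℕ) : ZMod M.N) +
    (M.D.P : ZMod M.N) * ((h / 2 : ℕ) : ZMod M.N) := by
  have : M.zz s h = (M.al * (s / 2) + M.D.P * (h / 2)) % M.N := rfl
  rw [this, ZMod.natCast_mod]
  push_cast; ring

lemma ngz_cast (hN : 0 < M.N) (k z : ℕ) : ((M.ngz k z : ℕ) : ZMod M.N) = -((z : ZMod M.N) + (M.th k : ZMod M.N)) := by
  have : M.ngz k z = (M.N - (z + M.th k) % M.N) % M.N := rfl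
  rw [this, ZMod.natCast_mod, Nat.cast_sub (Nat.mod_lt _ hN).le, ZMod.natCast_mod, ZMod.natCast_self]
  push_cast; ring

lemma pos_cl {s h E : ℕ} (hh : s % 2 = 0 → h % 2 = 0) (h1 : eZ E = M.zz s h) (h2 : eK E = kap s h) :
    M.Cl s h E := by
  obtain ⟨a1, a2, a3⟩ := kap_spec hh
  unfold Cl
  rw [h2]
  refine ⟨a1, ((s / 2 : ℕ) : ℤ), ((h / 2 : ℕ) : ℤ), a2, a3, ?_⟩
  rw [h1, zz_cast, Int.cast_natCast, Int.cast_natCast]

lemma neg_cl (hN : 0 < M.N) {s h E : ℕ} (hh : s % 2 = 0 → h % 2 = 0) (h1 : eZ E = M.ngz (kap s h) (M.zz s h))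
    (h2 : eK E = kap s h) : M.Cl (-s) (-h) E := by
  obtain ⟨a1, a2, a3⟩ := kap_spec hh
  unfold Cl
  rw [h2]
  refine ⟨a1, -((s / 2 : ℕ) : ℤ) - s0 (kap s h), -((h / 2 : ℕ) : ℤ) - h0 (kap s h), ?_, ?_, ?_⟩
  · linarith
  · linarith
  · rw [h1, ngz_cast hN, zz_cast, th_cast a1]
    simp only [Int.cast_sub, Int.cast_neg, Int.cast_natCast]
    ring

/-! ### The entries of a point -/

/-- The facts about an entry. -/
def Fc (M : NumR) (t e σ η : ℤ) (y fr a E : ℕ) : Prop := ((eT E : ℕ) : ℤ) = M.D.P + t ∧ ((eE E : ℕ) : ℤ) = M.OF + e ∧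
  M.Cl σ η E ∧ bt (eM E) y = true ∧ nib E fr = y ∧
  (eF E = 1 ∨ ((eS E : ℕ) : ℤ) = M.D.P + σ ∧ ((eH E : ℕ) : ℤ) = M.OF + η ∧ bt (eA E) a = true)

lemma hs_par (a s : ℕ) : s % 2 = 0 → M.hs a s % 2 = 0 := by
  intro h
  have : M.hs a s = M.ps a (s / 2) + M.ps a ((s + 1) / 2) := rfl
  rw [this, show (s + 1) / 2 = s / 2 by omega]
  omega

lemma enK_eq (i : ℕ) (k : ℕ → Bool) : M.enK i k = k (M.en i) := by
  unfold enK en; exact tk_eq _ _ _ _

lemma psK_eq (a t : ℕ) (k : ℕ → Bool) : M.psK a t k = k (M.ps a t) := by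
  unfold psK ps; exact tk_eq _ _ _ _

lemma hsK_eq (a s : ℕ) (k : ℕ → Bool) : M.hsK a s k = k (M.hs a s) := by
  unfold hsK; simp only [psK_eq, fN_eq]; rfl

lemma E_spec {t v fr y ka z z' i j e e' : ℕ} (h : M.chkE t v fr y ka z z' i j e e' = true) :
    eZ e = z ∧ eT e = M.D.P + t ∧ eE e = M.OF + v ∧ eZ e' = z' ∧ eT e' + t = M.D.P ∧ eE e' + v = M.OF ∧
    bt (eM e) y = true ∧ bt (eM e') y = true ∧ nib e fr = y ∧ nib e' fr = y ∧ eK e = ka ∧ eK e' = ka ∧ eN e = j ∧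
    eN e' = i := by
  unfold chkE at h
  simp only [fN_eq, an_iff] at h
  obtain ⟨q1, q2, q3, q4, q5, q6, q7, q8, q9, q10, q11, q12, q13, q14⟩ := h
  exact ⟨Nat.beq_eq.mp q1, Nat.beq_eq.mp q2, Nat.beq_eq.mp q3, Nat.beq_eq.mp q4, Nat.beq_eq.mp q5, Nat.beq_eq.mp q6,
    q7, q8, Nat.beq_eq.mp q9, Nat.beq_eq.mp q10, Nat.beq_eq.mp q11, Nat.beq_eq.mp q12, Nat.beq_eq.mp q13,
    Nat.beq_eq.mp q14⟩

lemma B_spec {a s h e e' : ℕ} (hh : M.chkB a s h e e' = true) :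
    (eF e = 1 ∨ ((eS e : ℕ) : ℤ) = M.D.P + (s : ℤ) ∧ ((eH e : ℕ) : ℤ) = M.OF + (h : ℤ) ∧ bt (eA e) a = true) ∧
    (eF e' = 1 ∨ ((eS e' : ℕ) : ℤ) = M.D.P + (-(s : ℤ)) ∧ ((eH e' : ℕ) : ℤ) = M.OF + (-(h : ℤ)) ∧
      bt (eA e') a = true) := by
  unfold chkB at hh
  simp only [an_iff, orr_iff] at hh
  obtain ⟨h1, h2⟩ := hh
  constructor
  · rcases h1 with h1 | ⟨q1, q2, q3⟩
    · exact Or.inl (Nat.beq_eq.mp h1)
    · have q1 : eS e = M.D.P + s := Nat.beq_eq.mp q1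
      have q2 : eH e = M.OF + h := Nat.beq_eq.mp q2
      exact Or.inr ⟨by omega, by omega, q3⟩
  · rcases h2 with h2 | ⟨q1, q2, q3⟩
    · exact Or.inl (Nat.beq_eq.mp h2)
    · have q1 : eS e' + s = M.D.P := Nat.beq_eq.mp q1
      have q2 : eH e' + h = M.OF := Nat.beq_eq.mp q2
      exact Or.inr ⟨by omega, by omega, q3⟩

lemma two (hN : 0 < M.N) {a s : ℕ} (hI : M.chkI a = true) (hs : s ≤ M.D.P) : ∃ i j : ℕ, i < M.n ∧ j < M.n ∧
    eN (M.en i) = j ∧ eN (M.en j) = i ∧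
    ((s + M.cut a < M.D.P ∧ M.Fc s (M.hs a s) s (M.hs a s) (M.ty a s) M.D.K a (M.en i) ∧
      M.Fc (-s) (-(M.hs a s)) (-s) (-(M.hs a s)) (M.ty a s) M.D.K a (M.en j)) ∨
    (M.D.P ≤ s + M.cut a ∧ M.Fc (M.D.P - s) (M.ps a M.D.P - M.hs a s) (-s) (-(M.hs a s)) (M.ty a s) a a (M.en i) ∧
      M.Fc (-(M.D.P - s)) (-(M.ps a M.D.P - M.hs a s)) s (M.hs a s) (M.ty a s) a a (M.en j))) := by
  unfold chkI at hI
  have h := allN_iff.mp hI s (by show s < M.D.P + 1; omega)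
  unfold chkP at h
  simp only [hsK_eq, psK_eq, enK_eq, tk_eq, fN_eq, an_iff] at h
  obtain ⟨h1, h2, h3⟩ := h
  generalize hi : Nat.mod (tv 32 M.IX ((a.mul M.D.P.succ).add s)) 65536 = i at h1 h3
  generalize hj : Nat.div (tv 32 M.IX ((a.mul M.D.P.succ).add s)) 65536 = j at h2 h3
  refine ⟨i, j, Nat.ble_eq.mp h1, Nat.ble_eq.mp h2, ?_⟩
  cases hf : M.frb a s with
  | true =>
    rw [hf] at h3
    simp only [an_iff] at h3
    obtain ⟨q1, q2, q3, q4, q5, q6, q7, q8, q9, q10, q11, q12, q13, q14⟩ := E_spec h3.1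
    obtain ⟨b1, b2⟩ := B_spec h3.2
    refine ⟨q13, q14, Or.inl ⟨?_, ⟨?_, ?_, pos_cl (hs_par a s) q1 q11, q7, q9, b1⟩,
      ⟨?_, ?_, neg_cl hN (hs_par a s) q4 q12, q8, q10, b2⟩⟩⟩
    · unfold frb at hf
      exact Nat.ble_eq.mp hf
    · rw [q2]; push_cast; ring
    · rw [q3]; push_cast; ring
    · omega
    · omega
  | false =>
    rw [hf] at h3
    simp only [an_iff] at h3
    obtain ⟨h4, h5, h6⟩ := h3
    have h4 : M.hs a s ≤ M.ps a M.D.P := Nat.ble_eq.mp h4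
    obtain ⟨q1, q2, q3, q4, q5, q6, q7, q8, q9, q10, q11, q12, q13, q14⟩ := E_spec h5
    obtain ⟨b1, b2⟩ := B_spec h6
    have c1 : Nat.sub M.D.P s = M.D.P - s := rfl
    have c2 : Nat.sub (M.ps a M.D.P) (M.hs a s) = M.ps a M.D.P - M.hs a s := rfl
    rw [c1] at q2 q5
    rw [c2] at q3 q6
    refine ⟨q13, q14, Or.inr ⟨?_, ⟨?_, ?_, neg_cl hN (hs_par a s) q1 q11, q7, q9, b2⟩,
      ⟨?_, ?_, pos_cl (hs_par a s) q4 q12, q8, q10, b1⟩⟩⟩
    · unfold frb at hf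
      by_contra hcon
      rw [Nat.ble_eq.mpr (by show s + M.cut a + 1 ≤ M.D.P; omega)] at hf
      exact Bool.noConfusion hf
    · omega
    · omega
    · omega
    · omega

/-- The entry `i` represents a point. -/
def Rp (M : NumR) (k : Lab (Fin M.D.K)) (t e σ η : ℤ) (β l : Lab (Fin M.D.K)) (i : ℕ) : Prop :=
  i < M.n ∧ ((eT (M.en i) : ℕ) : ℤ) = M.D.P + t ∧ ((eE (M.en i) : ℕ) : ℤ) = M.OF + e ∧ M.Cl σ η (M.en i) ∧
  bt (eM (M.en i)) (cz l) = true ∧ nib (M.en i) (cz k) = cz l ∧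
  (eF (M.en i) = 1 ∨ ((eS (M.en i) : ℕ) : ℤ) = M.D.P + σ ∧ ((eH (M.en i) : ℕ) : ℤ) = M.OF + η ∧
    ∀ b a, β = .B b a → (0 < σ → bt (eA (M.en i)) (a : ℕ) = true) ∧ (σ < 0 → bt (eA (M.en i)) (b : ℕ) = true))

lemma rp_of {k β l : Lab (Fin M.D.K)} {t e σ η : ℤ} {y fr a i : ℕ} (hi : i < M.n) (h : M.Fc t e σ η y fr a (M.en i))
    (hy : cz l = y) (hfr : cz k = fr) (hk : ∀ b c, β = .B b c → (0 < σ → (c : ℕ) = a) ∧ (σ < 0 → (b : ℕ) = a)) :
    M.Rp k t e σ η β l i := by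
  obtain ⟨h1, h2, h3, h4, h5, h6⟩ := h
  refine ⟨hi, h1, h2, h3, by rw [hy]; exact h4, by rw [hy, hfr]; exact h5, ?_⟩
  rcases h6 with h6 | ⟨h6, h7, h8⟩
  · exact Or.inl h6
  · refine Or.inr ⟨h6, h7, ?_⟩
    intro b c he
    refine ⟨fun ht => ?_, fun ht => ?_⟩
    · rw [(hk b c he).1 ht]; exact h8
    · rw [(hk b c he).2 ht]; exact h8

lemma rep [NeZero M.D.K] (hN : 0 < M.N) (hA : M.D.chkA = true) (hS : M.chkS = true)
    (hI : ∀ a, a < M.D.K → M.chkI a = true) {k : Lab (Fin M.D.K)} {t e σ η : ℤ} {β l : Lab (Fin M.D.K)}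
    (h : Pt M.wz M.fb M.Tc M.D.P M.Rc k t e σ η β l) : ∃ i j, M.Rp k t e σ η β l i ∧
      M.Rp k.mir (-t) (-e) (-σ) (-η) β.mir l.mir j ∧ eN (M.en i) = j ∧ eN (M.en j) = i := by
  cases h with
  | br b a s hR h =>
    have hsP : s ≤ M.D.P := by omega
    obtain ⟨i, j, hi, hj, n1, n2, h' | h'⟩ := two hN (hI a a.2) hsP
    swap
    · exact absurd h'.1 (by unfold Tc at h; omega)
    rw [hs_eq hA hS a s hsP]
    refine ⟨i, j, rp_of hi h'.2.1 (ty_eq hA a s hsP) rfl ?_, rp_of hj h'.2.2 ?_ rfl ?_, n1, n2⟩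
    · intro b' c' he
      injection he with e1 e2
      subst e2
      exact ⟨fun _ => rfl, fun hh => absurd hh (by omega)⟩
    · rw [cz_mir]; exact ty_eq hA a s hsP
    · intro b' c' he
      have he' : (Lab.B a b : Lab (Fin M.D.K)) = .B b' c' := he
      injection he' with e1 e2
      subst e1
      exact ⟨fun hh => absurd hh (by omega), fun _ => rfl⟩
  | bl b a s hR h =>
    have hsP : s ≤ M.D.P := by omega
    obtain ⟨i, j, hi, hj, n1, n2, h' | h'⟩ := two hN (hI b b.2) hsP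
    swap
    · exact absurd h'.1 (by unfold Tc at h; omega)
    rw [hs_eq hA hS b s hsP, neg_neg, neg_neg]
    refine ⟨j, i, rp_of hj h'.2.2 ?_ rfl ?_, rp_of hi h'.2.1 ?_ rfl ?_, n2, n1⟩
    · rw [cz_mir]; exact ty_eq hA b s hsP
    · intro b' c' he
      injection he with e1 e2
      subst e1
      exact ⟨fun hh => absurd hh (by omega), fun _ => rfl⟩
    · rw [cz_mir, cz_mir]; exact ty_eq hA b s hsP
    · intro b' c' he
      have he' : (Lab.B a b : Lab (Fin M.D.K)) = .B b' c' := he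
      injection he' with e1 e2
      subst e2
      exact ⟨fun _ => rfl, fun hh => absurd hh (by omega)⟩
  | cl b a s hR h hsP =>
    obtain ⟨i, j, hi, hj, n1, n2, h' | h'⟩ := two hN (hI a a.2) hsP
    · exact absurd h'.1 (by unfold Tc at h; omega)
    rw [hs_eq hA hS a s hsP, ps_eq hA hS a _ le_rfl, neg_neg, neg_neg]
    refine ⟨j, i, rp_of hj h'.2.2 (ty_eq hA a s hsP) rfl ?_, rp_of hi h'.2.1 ?_ rfl ?_, n2, n1⟩
    · intro b' c' he
      injection he with e1 e2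
      subst e2
      exact ⟨fun _ => rfl, fun hh => absurd hh (by omega)⟩
    · rw [cz_mir]; exact ty_eq hA a s hsP
    · intro b' c' he
      have he' : (Lab.B a b : Lab (Fin M.D.K)) = .B b' c' := he
      injection he' with e1 e2
      subst e1
      exact ⟨fun hh => absurd hh (by omega), fun _ => rfl⟩
  | cr b a s hR h hsP =>
    obtain ⟨i, j, hi, hj, n1, n2, h' | h'⟩ := two hN (hI b b.2) hsP
    · exact absurd h'.1 (by unfold Tc at h; omega)
    rw [hs_eq hA hS b s hsP, ps_eq hA hS b _ le_rfl, neg_neg, neg_neg]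
    refine ⟨i, j, rp_of hi h'.2.1 ?_ rfl ?_, rp_of hj h'.2.2 ?_ rfl ?_, n1, n2⟩
    · rw [cz_mir]; exact ty_eq hA b s hsP
    · intro b' c' he
      injection he with e1 e2
      subst e1
      exact ⟨fun hh => absurd hh (by omega), fun _ => rfl⟩
    · rw [cz_mir, cz_mir]; exact ty_eq hA b s hsP
    · intro b' c' he
      have he' : (Lab.B a b : Lab (Fin M.D.K)) = .B b' c' := he
      injection he' with e1 e2
      subst e2
      exact ⟨fun _ => rfl, fun hh => absurd hh (by omega)⟩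

/-! ### Order of the entries -/

lemma O_spec (hO : M.chkO = true) : 1 ≤ M.n ∧ M.n ≤ 2 ^ M.dp ∧ (∀ i, i < M.n → eZ (M.en i) < M.N ∧ eK (M.en i) ≤ 2) ∧
    ∀ i j, i < j → j < M.n → M.kyE (M.en i) < M.kyE (M.en j) := by
  unfold chkO enK at hO
  simp only [tk_eq] at hO
  rw [an_iff, an_iff, an_iff] at hO
  obtain ⟨⟨h1, h2⟩, h3, h4⟩ := hO
  have g1 : 1 ≤ M.n := Nat.ble_eq.mp h1
  have step : ∀ i, i + 1 < M.n → M.kyE (M.en i) < M.kyE (M.en (i + 1)) := by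
    intro i hi
    exact Nat.ble_eq.mp (allN_iff.mp h4 i (by show i < M.n - 1; omega))
  have mono : ∀ i j, i < j → j < M.n → M.kyE (M.en i) < M.kyE (M.en j) := by
    intro i j hij
    induction j with
    | zero => omega
    | succ j ih =>
      intro hj
      rcases Nat.lt_succ_iff_lt_or_eq.mp hij with h | h
      · exact (ih h (by omega)).trans (step j hj)
      · subst h; exact step _ hj
  refine ⟨g1, Nat.ble_eq.mp h2, ?_, mono⟩
  intro i hi
  have := allN_iff.mp h3 i hi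
  rw [an_iff] at this
  exact ⟨Nat.ble_eq.mp this.1, Nat.ble_eq.mp this.2⟩

lemma kyE_eq (e : ℕ) : M.kyE e = eK e * M.N + eZ e := rfl

lemma ent_inj (hO : M.chkO = true) {i j : ℕ} (hi : i < M.n) (hj : j < M.n) (hk : eK (M.en i) = eK (M.en j))
    (h : eZ (M.en i) = eZ (M.en j)) : i = j := by
  obtain ⟨-, -, -, hm⟩ := O_spec hO
  have e : M.kyE (M.en i) = M.kyE (M.en j) := by rw [kyE_eq, kyE_eq, hk, h]
  rcases lt_trichotomy i j with h' | h' | h'
  · have := hm i j h' hj; omega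
  · exact h'
  · have := hm j i h' hi; omega

lemma ent_inj' (hN : 0 < M.N) (hO : M.chkO = true) {i j : ℕ} (hi : i < M.n) (hj : j < M.n)
    (hk : eK (M.en i) = eK (M.en j))
    (h : ((eZ (M.en i) : ℕ) : ZMod M.N) = ((eZ (M.en j) : ℕ) : ZMod M.N)) : i = j := by
  have : NeZero M.N := ⟨by omega⟩
  obtain ⟨-, -, hlt, -⟩ := O_spec hO
  refine ent_inj hO hi hj hk ?_
  have h1 := congrArg ZMod.val h
  rwa [ZMod.val_natCast, ZMod.val_natCast, Nat.mod_eq_of_lt (hlt i hi).1, Nat.mod_eq_of_lt (hlt j hj).1] at h1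

/-! ### The bits -/

lemma ky_mono (hO : M.chkO = true) : ∀ i j, i ≤ j → j < M.n → M.ky i ≤ M.ky j := by
  obtain ⟨h1, h2, h3, h4⟩ := O_spec hO
  intro i j hij hj
  rw [ky_eq, ky_eq]
  rcases Nat.lt_or_eq_of_le hij with h | h
  · exact (h4 i j h hj).le
  · rw [h]

lemma V_bit (hO : M.chkO = true) (hV : ∀ k, k ≤ 2 → M.chkV k = true) {i : ℕ} (hi : i < M.n) :
    (M.V (eK (M.en i))).testBit (eZ (M.en i)) = true := by
  obtain ⟨h1, h2, h3, h4⟩ := O_spec hO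
  have hmono := ky_mono hO
  have hv := hV _ (h3 i hi).2
  unfold chkV at hv
  rw [Nat.beq_eq.mp hv]
  set k := eK (M.en i) with hk
  have hb := bld_spec (pos := M.ky) (val := fun i => Bool.rec 0 (Bool.rec 0 1 (Nat.beq (M.kk i) k))
    (Nat.ble (Nat.succ i) M.n)) hmono M.dp 0 i
    (Nat.zero_le _) (by omega) hi (by
      show Nat.testBit (Bool.rec 0 (Bool.rec 0 1 (Nat.beq (M.kk i) k)) (Nat.ble (Nat.succ i) M.n)) 0 = true
      rw [Nat.ble_eq.mpr (by show i + 1 ≤ M.n; omega), kk_eq, Nat.beq_eq.mpr hk.symm]; rfl)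
  show (((bld M.ky _ M.dp 0) <<< (M.ky 0)) >>> (k * M.N)).testBit _ = true
  have h0 := hmono 0 i (Nat.zero_le _) hi
  have e : k * M.N + eZ (M.en i) = M.ky i := by rw [ky_eq, kyE_eq]
  rw [Nat.testBit_shiftRight, e, Nat.testBit_shiftLeft, hb]
  simp [h0]

lemma Hb_bit (hO : M.chkO = true) {i b ze : ℕ} (hi : i < M.n) (hb : (eZ (M.en i) + ze) % 2 = b) :
    (M.Hb (eK (M.en i)) b ze).testBit ((eZ (M.en i) + ze) / 2) = true := by
  obtain ⟨h1, h2, h3, h4⟩ := O_spec hO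
  have hk2 := (h3 i hi).2
  set k := eK (M.en i) with hk
  set w := M.wsh k ze with hw
  have hkN : k * M.N ≤ 2 * M.N := Nat.mul_le_mul_right _ hk2
  have hw' : w = 2 * M.N + ze - k * M.N := rfl
  have hkey : M.ky i + w = eZ (M.en i) + ze + 2 * M.N := by
    rw [ky_eq, kyE_eq, ← hk, hw']; omega
  have hmono : ∀ i j, i ≤ j → j < M.n → Nat.div (Nat.add (M.ky i) w) 2 ≤ Nat.div (Nat.add (M.ky j) w) 2 := by
    intro i j hij hj
    have := ky_mono hO i j hij hj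
    show (M.ky i + w) / 2 ≤ (M.ky j + w) / 2
    omega
  have hbb := bld_spec (pos := fun i => Nat.div (Nat.add (M.ky i) w) 2) (val := fun i => Bool.rec 0 (Bool.rec 0 (Bool.rec
    0 1 (Nat.beq (Nat.mod (Nat.add (M.ky i) w) 2) b)) (Nat.beq (M.kk i) k)) (Nat.ble (Nat.succ i) M.n)) hmono M.dp 0 i
    (Nat.zero_le _) (by omega) hi (by
      show Nat.testBit (Bool.rec 0 (Bool.rec 0 (Bool.rec 0 1 (Nat.beq (Nat.mod (Nat.add (M.ky i) w) 2) b))
        (Nat.beq (M.kk i) k)) (Nat.ble (Nat.succ i) M.n)) 0 = true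
      have e5 : Nat.mod (Nat.add (M.ky i) w) 2 = b := by
        show (M.ky i + w) % 2 = b
        rw [hkey]; omega
      rw [Nat.ble_eq.mpr (by show i + 1 ≤ M.n; omega), kk_eq, Nat.beq_eq.mpr hk.symm, Nat.beq_eq.mpr e5]; rfl)
  have h0 := hmono 0 i (Nat.zero_le _) hi
  have e6 : M.Hb k b ze = ((bld (fun i => Nat.div (Nat.add (M.ky i) w) 2) (fun i => Bool.rec 0 (Bool.rec 0 (Bool.rec
    0 1 (Nat.beq (Nat.mod (Nat.add (M.ky i) w) 2) b)) (Nat.beq (M.kk i) k)) (Nat.ble (Nat.succ i) M.n)) M.dp 0) <<<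
      (Nat.div (Nat.add (M.ky 0) w) 2)) >>> M.N := by
    unfold Hb
    rw [gN_eq]
    rfl
  have e7 : M.N + (eZ (M.en i) + ze) / 2 = Nat.div (Nat.add (M.ky i) w) 2 := by
    show _ = (M.ky i + w) / 2
    rw [hkey]; omega
  rw [e6, Nat.testBit_shiftRight, e7, Nat.testBit_shiftLeft, hbb, Bool.and_true, decide_eq_true_eq]
  exact h0

lemma dbl_bit {x i : ℕ} (hi : i < 2 * M.N) (h : x.testBit (i % M.N) = true) : (M.dbl x).testBit i = true := by
  show (x ||| (x <<< M.N)).testBit i = true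
  rw [Nat.testBit_or, Nat.testBit_shiftLeft]
  rcases lt_or_ge i M.N with h' | h'
  · rw [Nat.mod_eq_of_lt h'] at h
    rw [h]; rfl
  · have : i % M.N = i - M.N := by
      rw [Nat.mod_eq_sub_mod h', Nat.mod_eq_of_lt (by omega)]
    rw [this] at h
    rw [h]; simp [h']

lemma H_bit (hO : M.chkO = true) (hH : ∀ k b, k ≤ 2 → b ≤ 1 → M.chkH k b = true) {i y p : ℕ} (hi : i < M.n)
    (hy : y = eZ (M.en i) ∨ y = eZ (M.en i) + M.N) (hp : p < 2 * M.N) (hpy : p % M.N = y / 2) :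
    (M.dbl (M.H (eK (M.en i)) (y % 2))).testBit p = true := by
  obtain ⟨-, -, h3, -⟩ := O_spec hO
  refine dbl_bit hp ?_
  have h := hH (eK (M.en i)) (y % 2) (h3 i hi).2 (by omega)
  unfold chkH at h
  rw [Nat.beq_eq.mp h, hpy]
  show (M.Hb (eK (M.en i)) (y % 2) 0 ||| M.Hb (eK (M.en i)) (y % 2) M.N).testBit (y / 2) = true
  rw [Nat.testBit_or]
  rcases hy with h | h
  · have := Hb_bit hO (i := i) (b := y % 2) (ze := 0) hi (by rw [add_zero, ← h])
    rw [add_zero, ← h] at this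
    rw [this]; rfl
  · have := Hb_bit hO (i := i) (b := y % 2) (ze := M.N) hi (by rw [← h])
    rw [← h] at this
    rw [this]; simp

lemma accL_bit {b : ℕ} {rs : List ℕ} {δ : ℕ} (h : (accL b rs).testBit δ = true) :
    b.testBit δ = true ∨ ∃ r ∈ rs, r % 2 ^ 32 = δ := by
  induction rs with
  | nil => exact Or.inl h
  | cons r rs ih =>
    have e : accL b (r :: rs) = accL b rs ||| (1 <<< (r % 2 ^ 32)) := rfl
    rw [e, Nat.testBit_or, Bool.or_eq_true] at h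
    rcases h with h | h
    · rcases ih h with h' | ⟨r', hr', h'⟩
      · exact Or.inl h'
      · exact Or.inr ⟨r', List.mem_cons_of_mem _ hr', h'⟩
    · right
      refine ⟨r, List.mem_cons_self, ?_⟩
      rw [Nat.testBit_shiftLeft] at h
      simp only [Bool.and_eq_true, decide_eq_true_eq] at h
      obtain ⟨h1, h2⟩ := h
      rw [Nat.testBit_one_eq_true_iff_self_eq_zero] at h2
      omega

end Pool.Agent.E25.Ker.NumR
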