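import Pool.Agent.E25.KerRS
import Pool.Agent.E25.Asm

/-!
The checks of `KerR` give a rich word without additive cubes.
-/

set_option autoImplicit false
set_option linter.unusedSectionVars false
set_option linter.unusedVariables false

namespace Pool.Agent.E25.Ker.NumR

variable {M : NumR}

/-! ### The core: four entries in progression -/

lemma Qs_spec {e c p : ℕ} {L : List (List ℕ)} {q0 : ℕ} (h : M.chkQs e c p L q0 = true) {q : ℕ} (h1 : q0 ≤ q)
    (h2 : q ≤ 2) : ∃ rs, M.chkq e c p q rs = true := by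
  induction L generalizing q0 with
  | nil =>
    have : Nat.beq q0 3 = true := h
    have := Nat.beq_eq.mp this
    omega
  | cons rs L ih =>
    have h' : an (M.chkq e c p q0 rs) (M.chkQs e c p L (q0 + 1)) = true := h
    rw [an_iff] at h'
    rcases Nat.eq_or_lt_of_le h1 with h3 | h3
    · subst h3; exact ⟨rs, h'.1⟩
    · exact ih h'.2 h3

lemma core (hN : 0 < M.N) (hO : M.chkO = true) (hV : ∀ k, k ≤ 2 → M.chkV k = true)
    (hH : ∀ k b, k ≤ 2 → b ≤ 1 → M.chkH k b = true) {i0 i1 i2 i3 j0 : ℕ} (hi0 : i0 < M.n) (hi1 : i1 < M.n)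
    (hi2 : i2 < M.n) (hi3 : i3 < M.n) (hj0 : j0 < M.n) (k02 : eK (M.en i0) = eK (M.en i2))
    (k13 : eK (M.en i1) = eK (M.en i3)) (kj : eK (M.en j0) = eK (M.en i0))
    (r1 : ((eZ (M.en i0) : ℕ) : ZMod M.N) + ((eZ (M.en i2) : ℕ) : ZMod M.N) = 2 * ((eZ (M.en i1) : ℕ) : ZMod M.N) +
      ((M.th (eK (M.en i1)) : ℕ) : ZMod M.N) - ((M.th (eK (M.en i2)) : ℕ) : ZMod M.N))
    (r2 : ((eZ (M.en i1) : ℕ) : ZMod M.N) + ((eZ (M.en i3) : ℕ) : ZMod M.N) = 2 * ((eZ (M.en i2) : ℕ) : ZMod M.N) +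
      ((M.th (eK (M.en i2)) : ℕ) : ZMod M.N) - ((M.th (eK (M.en i1)) : ℕ) : ZMod M.N))
    (rj : ((eZ (M.en j0) : ℕ) : ZMod M.N) = -((eZ (M.en i0) : ℕ) : ZMod M.N) -
      ((M.th (eK (M.en i2)) : ℕ) : ZMod M.N))
    (hle : eK (M.en i1) ≤ eK (M.en i2)) (htst : i1 ≤ eN (M.en i1)) {L : List (List ℕ)}
    (hX : M.chk1 i1 L = true) :
    (i0 = i1 ∧ i2 = i1 ∧ i3 = i1 ∧ M.okC (M.en i1) (M.en i1) (M.en i1) (M.en i1) = true) ∨
      M.okAP (M.en i0) (M.en i1) (M.en i2) (M.en i3) = true := by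
  have : NeZero M.N := ⟨by omega⟩
  obtain ⟨-, -, hlt, -⟩ := O_spec hO
  unfold chk1 at hX
  rw [enK_eq, an_iff, im_iff] at hX
  obtain ⟨hC, hX⟩ := hX
  have hX := hX (Nat.ble_eq.mpr htst)
  rw [fN_eq, fN_eq] at hX
  obtain ⟨rs, hq⟩ := Qs_spec hX hle (hlt i2 hi2).2
  unfold chkq at hq
  rw [fN_eq, fN_eq, an_iff] at hq
  obtain ⟨hb, hr⟩ := hq
  have hb := Nat.beq_eq.mp hb
  set p := eK (M.en i1) with hp
  set q := eK (M.en i2) with hqq
  set c := eZ (M.en i1) with hc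
  have hcN : c < M.N := (hlt i1 hi1).1
  set d : ZMod M.N := ((eZ (M.en i2) : ℕ) : ZMod M.N) - (c : ZMod M.N) with hd
  set δ := d.val with hδ
  have hδN : δ < M.N := ZMod.val_lt d
  have hdc : ((δ : ℕ) : ZMod M.N) = d := ZMod.natCast_zmod_val d
  -- the bits
  have hbit : (M.dif c p q (M.th p) (M.th q)).testBit δ = true := by
    have b1 : (Nat.shiftRight (M.dbl (M.V q)) c).testBit δ = true := by
      show ((M.dbl (M.V q)) >>> c).testBit δ = true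
      rw [Nat.testBit_shiftRight]
      refine dbl_bit (by omega) ?_
      have e : (c + δ) % M.N = eZ (M.en i2) := by
        have h1 : (((c + δ : ℕ)) : ZMod M.N) = ((eZ (M.en i2) : ℕ) : ZMod M.N) := by
          push_cast; rw [hdc, hd]; ring
        have h2 := congrArg ZMod.val h1
        rwa [ZMod.val_natCast, ZMod.val_natCast, Nat.mod_eq_of_lt (hlt i2 hi2).1] at h2
      rw [e]
      exact V_bit hO hV hi2
    have b2 : (Nat.shiftRight (M.dbl (M.V q)) (M.ngz p c)).testBit δ = true := by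
      show ((M.dbl (M.V q)) >>> (M.ngz p c)).testBit δ = true
      rw [Nat.testBit_shiftRight]
      have hng : M.ngz p c < M.N := Nat.mod_lt _ hN
      refine dbl_bit (by omega) ?_
      have e : (M.ngz p c + δ) % M.N = eZ (M.en j0) := by
        have h1 : (((M.ngz p c + δ : ℕ)) : ZMod M.N) = ((eZ (M.en j0) : ℕ) : ZMod M.N) := by
          push_cast
          rw [ngz_cast hN, hdc, hd, rj]
          linear_combination r1
        have h2 := congrArg ZMod.val h1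
        rwa [ZMod.val_natCast, ZMod.val_natCast, Nat.mod_eq_of_lt (hlt j0 hj0).1] at h2
      rw [e]
      have := V_bit hO hV hj0
      rwa [kj, k02] at this
    set c' : ℕ := (c + (M.th q + (M.N - M.th p % M.N))) % M.N with hc'
    have hc'N : c' < M.N := Nat.mod_lt _ hN
    have hc'z : ((c' : ℕ) : ZMod M.N) = (c : ZMod M.N) + (M.th q : ZMod M.N) - (M.th p : ZMod M.N) := by
      rw [hc', ZMod.natCast_mod]
      push_cast [Nat.cast_sub (Nat.mod_lt (M.th p) hN).le]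
      rw [ZMod.natCast_mod, ZMod.natCast_self]
      ring
    have b3 : (Nat.shiftRight (M.dbl (M.H p (Nat.mod c' 2))) (Nat.div c' 2)).testBit δ = true := by
      show ((M.dbl (M.H p (c' % 2))) >>> (c' / 2)).testBit δ = true
      rw [Nat.testBit_shiftRight]
      set e := (c' / 2 + δ) % M.N with he
      have heN : e < M.N := Nat.mod_lt _ hN
      obtain ⟨y, hy⟩ : ∃ y, y = 2 * e + c' % 2 := ⟨_, rfl⟩
      have hyz : ((y : ℕ) : ZMod M.N) = ((eZ (M.en i3) : ℕ) : ZMod M.N) := by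
        rw [hy]
        push_cast
        rw [he, ZMod.natCast_mod]
        push_cast
        have h5 : ((c' : ℕ) : ZMod M.N) = 2 * ((c' / 2 : ℕ) : ZMod M.N) + ((c' % 2 : ℕ) : ZMod M.N) := by
          conv_lhs => rw [← Nat.div_add_mod c' 2]
          push_cast; ring
        have h6 : (2 * (((c' / 2 : ℕ) : ZMod M.N) + (δ : ZMod M.N)) + ((c' % 2 : ℕ) : ZMod M.N) : ZMod M.N) =
            (c' : ZMod M.N) + 2 * δ := by rw [h5]; ring
        rw [h6, hc'z, hdc, hd]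
        linear_combination - r2
      have hy2 : y % 2 = c' % 2 := by omega
      have hy3 : y / 2 = e := by omega
      have hylt : y < 2 * M.N := by omega
      have hcase : y = eZ (M.en i3) ∨ y = eZ (M.en i3) + M.N := by
        have h2 := congrArg ZMod.val hyz
        rw [ZMod.val_natCast, ZMod.val_natCast, Nat.mod_eq_of_lt (hlt i3 hi3).1] at h2
        rcases lt_or_ge y M.N with h | h
        · left; rw [← h2, Nat.mod_eq_of_lt h]
        · right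
          have h4 : y % M.N = y - M.N := by rw [Nat.mod_eq_sub_mod h, Nat.mod_eq_of_lt (by omega)]
          omega
      have := H_bit hO hH hi3 hcase (p := c' / 2 + δ) (by omega) (by rw [hy3])
      rw [hy2, ← k13] at this
      exact this
    have b4 : (Nat.sub (Nat.pow 2 M.N) 1).testBit δ = true := by
      show (2 ^ M.N - 1).testBit δ = true
      rw [Nat.testBit_two_pow_sub_one]
      simpa using hδN
    unfold dif
    rw [gN_eq]
    show (((Nat.shiftRight (M.dbl (M.V q)) c) &&& (Nat.shiftRight (M.dbl (M.V q)) (M.ngz p c))) &&&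
      ((Nat.shiftRight (M.dbl (M.H p (Nat.mod c' 2))) (Nat.div c' 2)) &&& (Nat.sub (Nat.pow 2 M.N) 1))).testBit δ = true
    rw [Nat.testBit_and, Nat.testBit_and, Nat.testBit_and, b1, b2, b3, b4]
    rfl
  rw [hb] at hbit
  rcases accL_bit hbit with h | ⟨r, hr1, hr2⟩
  · left
    have hpq : p = q := by
      by_contra hne
      have e : (Bool.rec 0 1 (Nat.beq p q) : ℕ) = 0 := by
        have : Nat.beq p q = false := by
          rw [← Bool.not_eq_true]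
          intro hcon
          exact hne (Nat.beq_eq.mp hcon)
        rw [this]
      rw [e] at h
      simp at h
    have e : (Bool.rec 0 1 (Nat.beq p q) : ℕ) = 1 := by rw [Nat.beq_eq.mpr hpq]
    rw [e, Nat.testBit_one_eq_true_iff_self_eq_zero] at h
    have hd0 : d = 0 := by rw [← hdc, h]; simp
    have z21 : ((eZ (M.en i2) : ℕ) : ZMod M.N) = ((eZ (M.en i1) : ℕ) : ZMod M.N) := by
      linear_combination hd0 - hd
    have z01 : ((eZ (M.en i0) : ℕ) : ZMod M.N) = ((eZ (M.en i1) : ℕ) : ZMod M.N) := by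
      rw [hpq] at r1
      linear_combination r1 - z21
    have z31 : ((eZ (M.en i3) : ℕ) : ZMod M.N) = ((eZ (M.en i1) : ℕ) : ZMod M.N) := by
      rw [hpq] at r2
      linear_combination r2 + 2 * z21
    refine ⟨?_, ?_, ?_, hC⟩
    · exact ent_inj' hN hO hi0 hi1 (by rw [k02]; exact hpq.symm) z01
    · exact ent_inj' hN hO hi2 hi1 hpq.symm z21
    · exact ent_inj' hN hO hi3 hi1 k13.symm z31
  · right
    have hrec := allL_iff.mp hr r hr1
    unfold chkRec at hrec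
    simp only [enK_eq, fN_eq, an_iff] at hrec
    obtain ⟨g1, g2, g3, g4, g5, g6, g7, g8, g9, g10⟩ := hrec
    have hr2' : Nat.mod r (Nat.pow 2 32) = δ := hr2
    rw [hr2'] at g7 g8 g9
    have g1 := Nat.ble_eq.mp g1
    have g2 := Nat.ble_eq.mp g2
    have g3 := Nat.ble_eq.mp g3
    have g4 := Nat.beq_eq.mp g4
    have g5 := Nat.beq_eq.mp g5
    have g6 := Nat.beq_eq.mp g6
    have g7 : (eZ (M.en (tb 16 r 2)) + (δ + M.th q)) % M.N = (c + M.th p) % M.N := Nat.beq_eq.mp g7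
    have g8 : (c + δ) % M.N = eZ (M.en (tb 16 r 3)) := Nat.beq_eq.mp g8
    have g9 : (c + (2 * δ + M.th q)) % M.N = (eZ (M.en (tb 16 r 4)) + M.th p) % M.N := Nat.beq_eq.mp g9
    have f7 := congrArg (Nat.cast (R := ZMod M.N)) g7
    have f8 := congrArg (Nat.cast (R := ZMod M.N)) g8
    have f9 := congrArg (Nat.cast (R := ZMod M.N)) g9
    rw [ZMod.natCast_mod, ZMod.natCast_mod] at f7 f9
    rw [ZMod.natCast_mod] at f8
    push_cast at f7 f8 f9
    rw [hdc, hd] at f7 f8 f9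
    have w0 : tb 16 r 2 = i0 := ent_inj' hN hO g1 hi0 (by rw [g4, k02]) (by linear_combination f7 - r1)
    have w2 : tb 16 r 3 = i2 := ent_inj' hN hO g2 hi2 g5 (by linear_combination - f8)
    have w3 : tb 16 r 4 = i3 := ent_inj' hN hO g3 hi3 (by rw [g6, ← k13]) (by linear_combination - f9 - r2)
    rw [w0, w2, w3] at g10
    exact g10

/-! ### The exceptional quadruples -/

lemma inX_iff {a b c d : ℕ} : M.inX a b c d = true ↔ cd a b c d ∈ M.XL := by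
  unfold inX
  rw [fN_eq, anyL_iff]
  constructor
  · rintro ⟨x, hx, h⟩
    rwa [← Nat.beq_eq.mp h]
  · intro h
    exact ⟨_, h, Nat.beq_eq.mpr rfl⟩

lemma tb4 (q j : ℕ) : tb 4 q j = q / 16 ^ j % 16 := by
  have : tb 4 q j = (q >>> (4 * j)) % 2 ^ 4 := rfl
  rw [this, Nat.shiftRight_eq_div_pow, pow_mul]
  norm_num

lemma cd_eq (a b c d : ℕ) : cd a b c d = ((a * 16 + b) * 16 + c) * 16 + d := rfl

lemma dec {a b c d : ℕ} (ha : a < 16) (hb : b < 16) (hc : c < 16) (hd : d < 16) :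
    tb 4 (cd a b c d) 3 = a ∧ tb 4 (cd a b c d) 2 = b ∧ tb 4 (cd a b c d) 1 = c ∧ tb 4 (cd a b c d) 0 = d := by
  rw [tb4, tb4, tb4, tb4, cd_eq]
  norm_num
  omega

lemma rev_spec (hF : M.chkF = true) {a b c d : ℕ} (ha : a < 16) (hb : b < 16) (hc : c < 16) (hd : d < 16)
    (h : M.inX a b c d = true) : M.inX d c b a = true := by
  unfold chkF at hF
  rw [an_iff] at hF
  have h1 := allL_iff.mp hF.2 _ (inX_iff.mp h)
  rw [an_iff] at h1
  obtain ⟨e1, e2, e3, e4⟩ := dec ha hb hc hd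
  rw [e1, e2, e3, e4] at h1
  exact h1.2

lemma imX_spec {e0 k0 e1 k1 e2 k2 e3 k3 : ℕ} (h : M.imX e0 k0 e1 k1 e2 k2 e3 k3 = true) (h0 : nib e0 k0 ≠ 15)
    (h1 : nib e1 k1 ≠ 15) (h2 : nib e2 k2 ≠ 15) (h3 : nib e3 k3 ≠ 15) :
    M.inX (nib e0 k0) (nib e1 k1) (nib e2 k2) (nib e3 k3) = true := by
  unfold imX at h
  simp only [fN_eq, im_iff, ng_iff, Nat.beq_eq] at h
  exact h h0 h1 h2 h3

lemma okC_spec {e0 e1 e2 e3 a b c d : ℕ} (h : M.okC e0 e1 e2 e3 = true) (ha : a < 16) (hb : b < 16) (hc : c < 16)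
    (hd : d < 16) (hX : M.inX a b c d = true) (h0 : nib e0 a ≠ 15) (h1 : nib e1 b ≠ 15) (h2 : nib e2 c ≠ 15)
    (h3 : nib e3 d ≠ 15) : M.inX (nib e0 a) (nib e1 b) (nib e2 c) (nib e3 d) = true := by
  unfold okC at h
  have h' := allL_iff.mp h _ (inX_iff.mp hX)
  obtain ⟨f1, f2, f3, f4⟩ := dec ha hb hc hd
  rw [f1, f2, f3, f4] at h'
  exact imX_spec h' h0 h1 h2 h3

lemma okN_spec {e0 e1 e2 e3 a b c d : ℕ} (h : M.okN e0 e1 e2 e3 = true) (ha : a ≤ M.D.K) (hb : b ≤ M.D.K)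
    (hc : c ≤ M.D.K) (hd : d ≤ M.D.K) (h0 : bt (eM e0) a = true) (h1 : bt (eM e1) b = true) (h2 : bt (eM e2) c = true)
    (h3 : bt (eM e3) d = true) : M.inX a b c d = true := by
  unfold okN at h
  simp only [fN_eq] at h
  have g1 := im_iff.mp (allN_iff.mp h a (Nat.lt_succ_of_le ha)) h0
  have g2 := im_iff.mp (allN_iff.mp g1 b (Nat.lt_succ_of_le hb)) h1
  have g3 := im_iff.mp (allN_iff.mp g2 c (Nat.lt_succ_of_le hc)) h2
  exact im_iff.mp (allN_iff.mp g3 d (Nat.lt_succ_of_le hd)) h3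

lemma okD_spec {e0 e1 e2 e3 a : ℕ} (h : M.okD e0 e1 e2 e3 = true) (ha : a ≤ M.D.K) (h0 : nib e0 a ≠ 15)
    (h1 : nib e1 a ≠ 15) (h2 : nib e2 a ≠ 15) (h3 : nib e3 a ≠ 15) :
    M.inX (nib e0 a) (nib e1 a) (nib e2 a) (nib e3 a) = true := by
  unfold okD at h
  exact imX_spec (allN_iff.mp h a (Nat.lt_succ_of_le ha)) h0 h1 h2 h3

lemma ap4_iff {a b c d : ℕ} : ap4 a b c d = true ↔ a + c = 2 * b ∧ b + d = 2 * c := by
  unfold ap4
  rw [an_iff, Nat.beq_eq, Nat.beq_eq]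
  exact Iff.rfl

lemma bt_land {x y i : ℕ} : bt (Nat.land x y) i = true ↔ bt x i = true ∧ bt y i = true := by
  rw [bt_eq, bt_eq, bt_eq]
  show (x &&& y).testBit i = true ↔ _
  rw [Nat.testBit_and, Bool.and_eq_true]

lemma mk0_bit {e m i : ℕ} (h : eS e < M.D.P → bt (eA e) i = true) (hm : bt m i = true) :
    bt (M.mk1 0 e m) i = true := by
  have e1 : M.mk1 0 e m = Bool.rec m (Nat.land (eA e) m) (Nat.ble (Nat.succ (eS e)) M.D.P) := rfl
  rw [e1]
  cases hb : Nat.ble (Nat.succ (eS e)) M.D.P with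
  | false => exact hm
  | true => exact bt_land.mpr ⟨h (Nat.ble_eq.mp hb), hm⟩

lemma mk1_bit {e m i : ℕ} (h : M.D.P < eS e → bt (eA e) i = true) (hm : bt m i = true) :
    bt (M.mk1 1 e m) i = true := by
  have e1 : M.mk1 1 e m = Bool.rec m (Nat.land (eA e) m) (Nat.ble (Nat.succ M.D.P) (eS e)) := rfl
  rw [e1]
  cases hb : Nat.ble (Nat.succ M.D.P) (eS e) with
  | false => exact hm
  | true => exact bt_land.mpr ⟨h (Nat.ble_eq.mp hb), hm⟩

lemma prs_spec (hK : M.D.K ≤ 14) {e0 e1 e2 e3 i j : ℕ} (hi : i < M.D.K) (hj : j < M.D.K)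
    (hR : bt M.R (i * M.D.K + j) = true)
    (a0 : eS e0 < M.D.P → bt (eA e0) i = true) (a1 : eS e1 < M.D.P → bt (eA e1) i = true)
    (a2 : eS e2 < M.D.P → bt (eA e2) i = true) (a3 : eS e3 < M.D.P → bt (eA e3) i = true)
    (b0 : M.D.P < eS e0 → bt (eA e0) j = true) (b1 : M.D.P < eS e1 → bt (eA e1) j = true)
    (b2 : M.D.P < eS e2 → bt (eA e2) j = true) (b3 : M.D.P < eS e3 → bt (eA e3) j = true) :
    M.prs e0 e1 e2 e3 = true := by
  have hfull : ∀ n, n < 16 → bt 65535 n = true := by decide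
  unfold prs
  rw [fN_eq, fN_eq, ng_iff]
  intro hcon
  have h1 := allN_iff.mp (allN_iff.mp hcon i hi) j hj
  rw [ng_iff] at h1
  refine h1 ?_
  rw [an_iff, an_iff]
  exact ⟨mk0_bit a0 (mk0_bit a1 (mk0_bit a2 (mk0_bit a3 (hfull i (by omega))))),
    mk1_bit b0 (mk1_bit b1 (mk1_bit b2 (mk1_bit b3 (hfull j (by omega))))), hR⟩

/-! ### Points in progression -/

/-- A point with its coordinates. -/
structure Qt (K : ℕ) where
  /-- frame -/
  k : Lab (Fin K)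
  /-- position -/
  t : ℤ
  /-- value -/
  e : ℤ
  /-- position relative to the boundary -/
  σ : ℤ
  /-- value relative to the boundary -/
  η : ℤ
  /-- boundary -/
  β : Lab (Fin K)
  /-- label -/
  l : Lab (Fin K)

/-- The negative. -/
def Qt.neg {K : ℕ} (p : Qt K) : Qt K := ⟨p.k.mir, -p.t, -p.e, -p.σ, -p.η, p.β.mir, p.l.mir⟩

/-- Exceptional quadruples of labels. -/
def XX (M : NumR) (a b c d : Lab (Fin M.D.K)) : Prop := M.inX (cz a) (cz b) (cz c) (cz d) = true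

/-- The conclusion for four points. -/
def Con (M : NumR) (p0 p1 p2 p3 : Qt M.D.K) : Prop :=
  M.XX p0.l p1.l p2.l p3.l ∨
  (AP4 p0.t p1.t p2.t p3.t ∧ AP4 p0.e p1.e p2.e p3.e ∧
    (p0.t ≠ p1.t → p0.k = p1.k → p1.k = p2.k → p2.k = p3.k → M.XX p0.l p1.l p2.l p3.l) ∧
    (M.XX p0.k p1.k p2.k p3.k → M.XX p0.l p1.l p2.l p3.l)) ∨
  (AP4 p0.σ p1.σ p2.σ p3.σ ∧ AP4 p0.η p1.η p2.η p3.η ∧
    (p0.σ ≠ p1.σ → p0.β = p1.β → p1.β = p2.β → p2.β = p3.β → M.XX p0.l p1.l p2.l p3.l))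

/-- The entry represents the point. -/
def RpQ (M : NumR) (p : Qt M.D.K) (i : ℕ) : Prop := M.Rp p.k p.t p.e p.σ p.η p.β p.l i

/-- Second differences in the lattice. -/
def Lk (M : NumR) (p0 p1 p2 : Qt M.D.K) : Prop :=
  InL M.D.P M.Q ((M.cp : ℤ) - M.cm) (p0.σ + p2.σ - 2 * p1.σ) (p0.η + p2.η - 2 * p1.η)

lemma ap4_neg {a b c d : ℤ} : AP4 (-a) (-b) (-c) (-d) ↔ AP4 a b c d := by
  unfold AP4; constructor <;> rintro ⟨h1, h2⟩ <;> constructor <;> omega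

lemma mir_mir {K : ℕ} (l : Lab (Fin K)) : l.mir.mir = l := by cases l <;> rfl

lemma XX_mir {a b c d : Lab (Fin M.D.K)} : M.XX a.mir b.mir c.mir d.mir ↔ M.XX a b c d := by
  unfold XX; rw [cz_mir, cz_mir, cz_mir, cz_mir]

lemma con_neg {p0 p1 p2 p3 : Qt M.D.K} (h : M.Con p0.neg p1.neg p2.neg p3.neg) : M.Con p0 p1 p2 p3 := by
  have e : M.XX p0.neg.l p1.neg.l p2.neg.l p3.neg.l ↔ M.XX p0.l p1.l p2.l p3.l := XX_mir
  have ek : M.XX p0.neg.k p1.neg.k p2.neg.k p3.neg.k ↔ M.XX p0.k p1.k p2.k p3.k := XX_mir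
  rcases h with h | ⟨h1, h2, h3, h4⟩ | ⟨h1, h2, h3⟩
  · exact Or.inl (e.mp h)
  · refine Or.inr (Or.inl ⟨ap4_neg.mp h1, ap4_neg.mp h2, fun g0 g1 g2 g3 => e.mp (h3 ?_ ?_ ?_ ?_),
      fun g => e.mp (h4 (ek.mpr g))⟩)
    · intro hc
      exact g0 (neg_injective hc)
    · exact congrArg Lab.mir g1
    · exact congrArg Lab.mir g2
    · exact congrArg Lab.mir g3
  · refine Or.inr (Or.inr ⟨ap4_neg.mp h1, ap4_neg.mp h2, fun g0 g1 g2 g3 => e.mp (h3 ?_ ?_ ?_ ?_)⟩)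
    · intro hc
      exact g0 (neg_injective hc)
    · exact congrArg Lab.mir g1
    · exact congrArg Lab.mir g2
    · exact congrArg Lab.mir g3

lemma XX_rev (hF : M.chkF = true) (hK : M.D.K ≤ 14) {a b c d : Lab (Fin M.D.K)} (h : M.XX a b c d) : M.XX d c b a := by
  have ha := cz_le a
  have hb := cz_le b
  have hc := cz_le c
  have hd := cz_le d
  exact rev_spec hF (by omega) (by omega) (by omega) (by omega) h

lemma con_rev (hF : M.chkF = true) (hK : M.D.K ≤ 14) {p0 p1 p2 p3 : Qt M.D.K} (h : M.Con p3 p2 p1 p0) :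
    M.Con p0 p1 p2 p3 := by
  have e : M.XX p3.l p2.l p1.l p0.l → M.XX p0.l p1.l p2.l p3.l := XX_rev hF hK
  rcases h with h | ⟨h1, h2, h3, h4⟩ | ⟨h1, h2, h3⟩
  · exact Or.inl (e h)
  · refine Or.inr (Or.inl ⟨?_, ?_, fun g0 g1 g2 g3 => e (h3 ?_ g3.symm g2.symm g1.symm),
      fun g => e (h4 (XX_rev hF hK g))⟩)
    · unfold AP4 at *; omega
    · unfold AP4 at *; omega
    · unfold AP4 at *; omega
  · refine Or.inr (Or.inr ⟨?_, ?_, fun g0 g1 g2 g3 => e (h3 ?_ g3.symm g2.symm g1.symm)⟩)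
    · unfold AP4 at *; omega
    · unfold AP4 at *; omega
    · unfold AP4 at *; omega

lemma nib_ne (hK : M.D.K ≤ 14) {p : Qt M.D.K} {i : ℕ} (h : M.RpQ p i) : nib (M.en i) (cz p.k) ≠ 15 := by
  have h1 : nib (M.en i) (cz p.k) = cz p.l := h.2.2.2.2.2.1
  have := cz_le p.l
  omega

lemma con_of_ok (hK : M.D.K ≤ 14) {p0 p1 p2 p3 : Qt M.D.K} {i0 i1 i2 i3 : ℕ} (r0 : M.RpQ p0 i0) (r1 : M.RpQ p1 i1)
    (r2 : M.RpQ p2 i2) (r3 : M.RpQ p3 i3)
    (hβ : ∃ b a : Fin M.D.K, p0.β = .B b a ∧ M.Rc b a)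
    (h : M.okAP (M.en i0) (M.en i1) (M.en i2) (M.en i3) = true) : M.Con p0 p1 p2 p3 := by
  have n0 := nib_ne hK r0
  have n1 := nib_ne hK r1
  have n2 := nib_ne hK r2
  have n3 := nib_ne hK r3
  obtain ⟨-, t0, e0, -, m0, f0, b0⟩ := r0
  obtain ⟨-, t1, e1, -, m1, f1, b1⟩ := r1
  obtain ⟨-, t2, e2, -, m2, f2, b2⟩ := r2
  obtain ⟨-, t3, e3, -, m3, f3, b3⟩ := r3
  have hXN : M.okN (M.en i0) (M.en i1) (M.en i2) (M.en i3) = true → M.XX p0.l p1.l p2.l p3.l := fun hn =>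
    okN_spec hn (cz_le _) (cz_le _) (cz_le _) (cz_le _) m0 m1 m2 m3
  unfold okAP at h
  cases hz : zs (M.en i0) (M.en i1) (M.en i2) (M.en i3) with
  | true =>
    rw [hz] at h
    have h' : im (M.prs (M.en i0) (M.en i1) (M.en i2) (M.en i3)) (M.okN (M.en i0) (M.en i1) (M.en i2) (M.en i3)) = true := h
    rw [im_iff] at h'
    unfold zs at hz
    simp only [an_iff, ap4_iff, Nat.beq_eq] at hz
    obtain ⟨⟨g0, g1, g2, g3⟩, ⟨u1, u2⟩, ⟨v1, v2⟩⟩ := hz
    obtain ⟨c0, d0, w0⟩ := b0.resolve_left (by omega)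
    obtain ⟨c1, d1, w1⟩ := b1.resolve_left (by omega)
    obtain ⟨c2, d2, w2⟩ := b2.resolve_left (by omega)
    obtain ⟨c3, d3, w3⟩ := b3.resolve_left (by omega)
    refine Or.inr (Or.inr ⟨?_, ?_, ?_⟩)
    · unfold AP4; omega
    · unfold AP4; omega
    · intro hne q0 q1 q2
      obtain ⟨b, a, hba, hR⟩ := hβ
      have k1 : p1.β = .B b a := by rw [← q0, hba]
      have k2 : p2.β = .B b a := by rw [← q1, k1]
      have k3 : p3.β = .B b a := by rw [← q2, k2]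
      refine hXN (h' (prs_spec hK b.2 a.2 hR ?_ ?_ ?_ ?_ ?_ ?_ ?_ ?_))
      · intro hh; exact (w0 b a hba).2 (by omega)
      · intro hh; exact (w1 b a k1).2 (by omega)
      · intro hh; exact (w2 b a k2).2 (by omega)
      · intro hh; exact (w3 b a k3).2 (by omega)
      · intro hh; exact (w0 b a hba).1 (by omega)
      · intro hh; exact (w1 b a k1).1 (by omega)
      · intro hh; exact (w2 b a k2).1 (by omega)
      · intro hh; exact (w3 b a k3).1 (by omega)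
  | false =>
    rw [hz] at h
    cases hz2 : zc (M.en i0) (M.en i1) (M.en i2) (M.en i3) with
    | true =>
      rw [hz2] at h
      have h' : an (M.okC (M.en i0) (M.en i1) (M.en i2) (M.en i3)) (M.okD (M.en i0) (M.en i1) (M.en i2) (M.en i3)) = true := h
      rw [an_iff] at h'
      unfold zc at hz2
      simp only [an_iff, ap4_iff] at hz2
      obtain ⟨⟨u1, u2⟩, ⟨v1, v2⟩⟩ := hz2
      refine Or.inr (Or.inl ⟨?_, ?_, ?_, ?_⟩)
      · unfold AP4; omega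
      · unfold AP4; omega
      · intro _ q0 q1 q2
        rw [← q0] at n1 f1 q1
        rw [← q1] at n2 f2 q2
        rw [← q2] at n3 f3
        have := okD_spec h'.2 (cz_le _) n0 n1 n2 n3
        rw [f0, f1, f2, f3] at this
        exact this
      · intro hX
        have k0 := cz_le p0.k
        have k1 := cz_le p1.k
        have k2 := cz_le p2.k
        have k3 := cz_le p3.k
        have := okC_spec h'.1 (by omega) (by omega) (by omega) (by omega) hX n0 n1 n2 n3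
        rw [f0, f1, f2, f3] at this
        exact this
    | false =>
      rw [hz2] at h
      exact Or.inl (hXN h)

lemma con_of_same (hK : M.D.K ≤ 14) {p0 p1 p2 p3 : Qt M.D.K} {i : ℕ} (r0 : M.RpQ p0 i) (r1 : M.RpQ p1 i)
    (r2 : M.RpQ p2 i) (r3 : M.RpQ p3 i) (h : M.okC (M.en i) (M.en i) (M.en i) (M.en i) = true) :
    M.Con p0 p1 p2 p3 := by
  have n0 := nib_ne hK r0
  have n1 := nib_ne hK r1
  have n2 := nib_ne hK r2
  have n3 := nib_ne hK r3
  obtain ⟨-, t0, e0, -, m0, f0, b0⟩ := r0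
  obtain ⟨-, t1, e1, -, m1, f1, b1⟩ := r1
  obtain ⟨-, t2, e2, -, m2, f2, b2⟩ := r2
  obtain ⟨-, t3, e3, -, m3, f3, b3⟩ := r3
  refine Or.inr (Or.inl ⟨?_, ?_, ?_, ?_⟩)
  · unfold AP4; omega
  · unfold AP4; omega
  · intro hne; exact absurd (by omega) hne
  · intro hX
    have k0 := cz_le p0.k
    have k1 := cz_le p1.k
    have k2 := cz_le p2.k
    have k3 := cz_le p3.k
    have := okC_spec h (by omega) (by omega) (by omega) (by omega) hX n0 n1 n2 n3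
    rw [f0, f1, f2, f3] at this
    exact this

/-! ### The classes of points in progression -/

lemma s0_cases {k : ℕ} (hk : k ≤ 2) : (k = 0 ∧ s0 k = 0 ∧ h0 k = 0) ∨ (k = 1 ∧ s0 k = 1 ∧ h0 k = 0) ∨
    (k = 2 ∧ s0 k = 1 ∧ h0 k = 1) := by
  obtain rfl | rfl | rfl : k = 0 ∨ k = 1 ∨ k = 2 := by omega
  · left; simp [s0, h0]
  · right; left; simp [s0, h0]
  · right; right; simp [s0, h0]

lemma rel (hN : 0 < M.N) (hc : (M.Q : ℤ) ∣ (M.al : ℤ) + ((M.cp : ℤ) - M.cm)) {σ0 σ1 σ2 η0 η1 η2 : ℤ} {E0 E1 E2 : ℕ}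
    (c0 : M.Cl σ0 η0 E0) (c1 : M.Cl σ1 η1 E1) (c2 : M.Cl σ2 η2 E2)
    (hL : InL M.D.P M.Q ((M.cp : ℤ) - M.cm) (σ0 + σ2 - 2 * σ1) (η0 + η2 - 2 * η1)) :
    eK E0 = eK E2 ∧ ((eZ E0 : ℕ) : ZMod M.N) + ((eZ E2 : ℕ) : ZMod M.N) = 2 * ((eZ E1 : ℕ) : ZMod M.N) +
      ((M.th (eK E1) : ℕ) : ZMod M.N) - ((M.th (eK E2) : ℕ) : ZMod M.N) := by
  obtain ⟨a0, x0, y0, u0, v0, z0⟩ := c0
  obtain ⟨a1, x1, y1, u1, v1, z1⟩ := c1
  obtain ⟨a2, x2, y2, u2, v2, z2⟩ := c2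
  obtain ⟨X, Y, hX, hY⟩ := hL
  have hXX : σ0 + σ2 - 2 * σ1 = 2 * (M.D.P * X) := by rw [hX]; ring
  have hYY : η0 + η2 - 2 * η1 = 2 * (((M.cp : ℤ) - M.cm) * X + M.Q * Y) := by rw [hY]; ring
  obtain ⟨A, hA⟩ : ∃ A, A = (M.D.P : ℤ) * X := ⟨_, rfl⟩
  obtain ⟨B, hB⟩ : ∃ B, B = ((M.cp : ℤ) - M.cm) * X + M.Q * Y := ⟨_, rfl⟩
  rw [← hA] at hXX
  rw [← hB] at hYY
  have hk : eK E0 = eK E2 := by
    rcases s0_cases a0 with ⟨k0, s0', h0'⟩ | ⟨k0, s0', h0'⟩ | ⟨k0, s0', h0'⟩ <;>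
      rcases s0_cases a2 with ⟨k2, s2', h2'⟩ | ⟨k2, s2', h2'⟩ | ⟨k2, s2', h2'⟩ <;>
      rw [s0'] at u0 <;> rw [h0'] at v0 <;> rw [s2'] at u2 <;> rw [h2'] at v2 <;> omega
  refine ⟨hk, ?_⟩
  have ex : x0 + x2 = 2 * x1 + A + s0 (eK E1) - s0 (eK E2) := by
    rw [hk] at u0
    omega
  have ey : y0 + y2 = 2 * y1 + B + h0 (eK E1) - h0 (eK E2) := by
    rw [hk] at v0
    omega
  have fx := congrArg (Int.cast (R := ZMod M.N)) ex
  have fy := congrArg (Int.cast (R := ZMod M.N)) ey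
  push_cast at fx fy
  obtain ⟨k, hk2⟩ := hc
  have hNN : ((M.D.P : ZMod M.N)) * (M.Q : ZMod M.N) = 0 := by
    have : ((M.N : ℕ) : ZMod M.N) = 0 := ZMod.natCast_self _
    rw [← this]
    show _ = ((M.D.P * M.Q : ℕ) : ZMod M.N)
    push_cast; ring
  have fc := congrArg (Int.cast (R := ZMod M.N)) hk2
  have fA := congrArg (Int.cast (R := ZMod M.N)) hA
  have fB := congrArg (Int.cast (R := ZMod M.N)) hB
  push_cast at fc fA fB
  rw [z0, z1, z2, th_cast a1, th_cast a2]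
  linear_combination (M.al : ZMod M.N) * fx + (M.D.P : ZMod M.N) * fy + (M.al : ZMod M.N) * fA +
    (M.D.P : ZMod M.N) * fB + (M.D.P : ZMod M.N) * (X : ZMod M.N) * fc + (k : ZMod M.N) * X * hNN + (Y : ZMod M.N) * hNN

lemma rel_neg {σ η : ℤ} {E F : ℕ} (c0 : M.Cl σ η E) (c1 : M.Cl (-σ) (-η) F) :
    eK F = eK E ∧ ((eZ F : ℕ) : ZMod M.N) = -((eZ E : ℕ) : ZMod M.N) - ((M.th (eK E) : ℕ) : ZMod M.N) := by
  obtain ⟨a0, x0, y0, u0, v0, z0⟩ := c0
  obtain ⟨a1, x1, y1, u1, v1, z1⟩ := c1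
  have hk : eK F = eK E := by
    rcases s0_cases a0 with ⟨k0, s0', h0'⟩ | ⟨k0, s0', h0'⟩ | ⟨k0, s0', h0'⟩ <;>
      rcases s0_cases a1 with ⟨k2, s2', h2'⟩ | ⟨k2, s2', h2'⟩ | ⟨k2, s2', h2'⟩ <;>
      rw [s0'] at u0 <;> rw [h0'] at v0 <;> rw [s2'] at u1 <;> rw [h2'] at v1 <;> omega
  refine ⟨hk, ?_⟩
  have ex : x1 = -x0 - s0 (eK E) := by
    rw [hk] at u1
    omega
  have ey : y1 = -y0 - h0 (eK E) := by
    rw [hk] at v1
    omega
  rw [z0, z1, th_cast a0, ex, ey]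
  push_cast
  ring

/-! ### The checks give the criterion -/

/-- All checks. -/
structure Chk (M : NumR) : Prop where
  A : M.D.chkA = true
  S : M.chkS = true
  T : M.chkT = true
  F : M.chkF = true
  O : M.chkO = true
  I : ∀ a, a < M.D.K → M.chkI a = true
  V : ∀ k, k ≤ 2 → M.chkV k = true
  H : ∀ k b, k ≤ 2 → b ≤ 1 → M.chkH k b = true
  X : ∀ i, i < M.n → ∃ L, M.chk1 i L = true

lemma T_spec (hT : M.chkT = true) : 3 ≤ M.D.P ∧ 1 ≤ M.Q ∧ M.D.K ≤ 14 ∧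
    (M.Q : ℤ) ∣ (M.al : ℤ) + ((M.cp : ℤ) - M.cm) ∧
    (∀ a, a < M.D.K → M.cut a < M.D.P ∧ ∀ i, i + 1 < M.D.P →
      bt M.R (M.D.le a (i + 1) * M.D.K + M.D.le a (i + 2)) = true) ∧
    bt M.R (M.D.o * M.D.K + M.D.o) = true ∧
    ∀ i j, i < M.D.K → j < M.D.K → bt M.R (i * M.D.K + j) = true → bt M.R (j * M.D.K + i) = true := by
  unfold chkT at hT
  simp only [an_iff] at hT
  obtain ⟨⟨t1, t2, t3⟩, t4, t5, t6, t7⟩ := hT
  refine ⟨Nat.ble_eq.mp t1, Nat.ble_eq.mp t2, Nat.ble_eq.mp t3, ?_, ?_, t6, ?_⟩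
  · have t4 : (M.al + M.cp) % M.Q = M.cm % M.Q := Nat.beq_eq.mp t4
    have h1 : ((M.al + M.cp : ℕ) : ℤ) % M.Q = ((M.cm : ℕ) : ℤ) % M.Q := by exact_mod_cast t4
    have h3 := Int.emod_eq_emod_iff_emod_sub_eq_zero.mp h1
    have h4 := Int.dvd_of_emod_eq_zero h3
    push_cast at h4
    have : (M.al : ℤ) + ((M.cp : ℤ) - M.cm) = M.al + M.cp - M.cm := by ring
    rw [this]; exact h4
  · intro a ha
    have h := allN_iff.mp t5 a ha
    rw [an_iff] at h
    refine ⟨Nat.ble_eq.mp h.1, ?_⟩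
    intro i hi
    exact allN_iff.mp h.2 i (by show i < M.D.P - 1; omega)
  · intro i j hi hj h
    exact im_iff.mp (allN_iff.mp (allN_iff.mp t7 i hi) j hj) h

lemma beta_spec [NeZero M.D.K] {k : Lab (Fin M.D.K)} {t e σ η : ℤ} {β l : Lab (Fin M.D.K)}
    (h : Pt M.wz M.fb M.Tc M.D.P M.Rc k t e σ η β l) : ∃ b a : Fin M.D.K, β = .B b a ∧ M.Rc b a := by
  cases h with
  | br b a s hR h => exact ⟨b, a, rfl, hR⟩
  | bl b a s hR h => exact ⟨b, a, rfl, hR⟩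
  | cl b a s hR h h' => exact ⟨b, a, rfl, hR⟩
  | cr b a s hR h h' => exact ⟨b, a, rfl, hR⟩

section final

variable (C : M.Chk)

include C

lemma N_pos : 0 < M.N := by
  obtain ⟨h1, h2, -⟩ := T_spec C.T
  exact Nat.mul_pos (by omega) (by omega)

/-- The middle entry is tested and the cosets are in order. -/
lemma con1 {p0 p1 p2 p3 : Qt M.D.K} {i0 i1 i2 i3 j0 : ℕ} (r0 : M.RpQ p0 i0) (r1 : M.RpQ p1 i1) (r2 : M.RpQ p2 i2)
    (r3 : M.RpQ p3 i3) (hj : j0 < M.n) (cj : M.Cl (-p0.σ) (-p0.η) (M.en j0)) (L1 : M.Lk p0 p1 p2) (L2 : M.Lk p1 p2 p3)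
    (hβ : ∃ b a : Fin M.D.K, p0.β = .B b a ∧ M.Rc b a)
    (hle : eK (M.en i1) ≤ eK (M.en i2)) (htst : i1 ≤ eN (M.en i1)) : M.Con p0 p1 p2 p3 := by
  obtain ⟨hP, hQ, hK, hc, -, -, -⟩ := T_spec C.T
  have hN := N_pos C
  obtain ⟨a1, a2⟩ := rel hN hc r0.2.2.2.1 r1.2.2.2.1 r2.2.2.2.1 L1
  obtain ⟨b1, b2⟩ := rel hN hc r1.2.2.2.1 r2.2.2.2.1 r3.2.2.2.1 L2
  obtain ⟨c1, c2⟩ := rel_neg r0.2.2.2.1 cj
  obtain ⟨L, hL⟩ := C.X i1 r1.1
  rcases core hN C.O C.V C.H r0.1 r1.1 r2.1 r3.1 hj a1 b1 c1 a2 (by rw [b1]; exact b2) (by rw [← a1]; exact c2) hle htst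
    hL with ⟨q0, q2, q3, q4⟩ | h
  · subst q0; subst q2; subst q3
    exact con_of_same hK r0 r1 r2 r3 q4
  · exact con_of_ok hK r0 r1 r2 r3 hβ h

/-- The cosets are in order. -/
lemma con2 {p0 p1 p2 p3 : Qt M.D.K} {i0 i1 i2 i3 j0 j1 j2 j3 : ℕ} (r0 : M.RpQ p0 i0) (r1 : M.RpQ p1 i1)
    (r2 : M.RpQ p2 i2) (r3 : M.RpQ p3 i3) (s0 : M.RpQ p0.neg j0) (s1 : M.RpQ p1.neg j1) (s2 : M.RpQ p2.neg j2)
    (s3 : M.RpQ p3.neg j3) (n1 : eN (M.en i1) = j1) (n2 : eN (M.en j1) = i1) (L1 : M.Lk p0 p1 p2) (L2 : M.Lk p1 p2 p3)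
    (hβ : ∃ b a : Fin M.D.K, p0.β = .B b a ∧ M.Rc b a)
    (hle : eK (M.en i1) ≤ eK (M.en i2)) : M.Con p0 p1 p2 p3 := by
  obtain ⟨hP, hQ, hK, hc, -, -, hsym⟩ := T_spec C.T
  rcases le_or_gt i1 j1 with h | h
  · exact con1 C r0 r1 r2 r3 s0.1 s0.2.2.2.1 L1 L2 hβ hle (by rw [n1]; exact h)
  · refine con_neg (con1 C s0 s1 s2 s3 r0.1 ?_ ?_ ?_ ?_ ?_ (by rw [n2]; exact h.le))
    · have := r0.2.2.2.1
      show M.Cl (- -p0.σ) (- -p0.η) (M.en i0)
      rw [neg_neg, neg_neg]; exact this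
    · obtain ⟨x, y, hx, hy⟩ := L1
      refine ⟨-x, -y, ?_, ?_⟩
      · show -p0.σ + -p2.σ - 2 * -p1.σ = _
        linear_combination - hx
      · show -p0.η + -p2.η - 2 * -p1.η = _
        linear_combination - hy
    · obtain ⟨x, y, hx, hy⟩ := L2
      refine ⟨-x, -y, ?_, ?_⟩
      · show -p1.σ + -p3.σ - 2 * -p2.σ = _
        linear_combination - hx
      · show -p1.η + -p3.η - 2 * -p2.η = _
        linear_combination - hy
    · obtain ⟨b, a, h1, h2⟩ := hβ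
      refine ⟨a, b, ?_, hsym _ _ b.2 a.2 h2⟩
      show p0.β.mir = _
      rw [h1]; rfl
    · have e1 := (rel_neg r1.2.2.2.1 s1.2.2.2.1).1
      have e2 := (rel_neg r2.2.2.2.1 s2.2.2.2.1).1
      rw [e1, e2]; exact hle

/-- All points in progression. -/
lemma con_all [NeZero M.D.K] {p0 p1 p2 p3 : Qt M.D.K}
    (h0 : Pt M.wz M.fb M.Tc M.D.P M.Rc p0.k p0.t p0.e p0.σ p0.η p0.β p0.l)
    (h1 : Pt M.wz M.fb M.Tc M.D.P M.Rc p1.k p1.t p1.e p1.σ p1.η p1.β p1.l)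
    (h2 : Pt M.wz M.fb M.Tc M.D.P M.Rc p2.k p2.t p2.e p2.σ p2.η p2.β p2.l)
    (h3 : Pt M.wz M.fb M.Tc M.D.P M.Rc p3.k p3.t p3.e p3.σ p3.η p3.β p3.l)
    (L1 : M.Lk p0 p1 p2) (L2 : M.Lk p1 p2 p3) : M.Con p0 p1 p2 p3 := by
  obtain ⟨hP, hQ, hK, hc, -, -, hsym⟩ := T_spec C.T
  have hN := N_pos C
  obtain ⟨i0, j0, r0, s0, m0, n0⟩ := rep hN C.A C.S C.I h0
  obtain ⟨i1, j1, r1, s1, m1, n1⟩ := rep hN C.A C.S C.I h1
  obtain ⟨i2, j2, r2, s2, m2, n2⟩ := rep hN C.A C.S C.I h2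
  obtain ⟨i3, j3, r3, s3, m3, n3⟩ := rep hN C.A C.S C.I h3
  rcases le_total (eK (M.en i1)) (eK (M.en i2)) with h | h
  · exact con2 C (p0 := p0) (p1 := p1) (p2 := p2) (p3 := p3) r0 r1 r2 r3 s0 s1 s2 s3 m1 n1 L1 L2 (beta_spec h0) h
  · refine con_rev C.F hK ?_
    refine con2 C (p0 := p3) (p1 := p2) (p2 := p1) (p3 := p0) r3 r2 r1 r0 s3 s2 s1 s0 m2 n2 ?_ ?_ (beta_spec h3) h
    · obtain ⟨x, y, hx, hy⟩ := L2
      refine ⟨x, y, ?_, ?_⟩
      · show p3.σ + p1.σ - 2 * p2.σ = _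
        linear_combination hx
      · show p3.η + p1.η - 2 * p2.η = _
        linear_combination hy
    · obtain ⟨x, y, hx, hy⟩ := L1
      refine ⟨x, y, ?_, ?_⟩
      · show p2.σ + p0.σ - 2 * p1.σ = _
        linear_combination hx
      · show p2.η + p0.η - 2 * p1.η = _
        linear_combination hy

/-- The fixed point has no additive cube, if it is rich then this solves the problem. -/
theorem finalW (hZ : M.D.chkZ = true) [NeZero M.D.K]
    (hrich' : ∀ u : ℕ → Fin M.D.K, (∀ n r : ℕ, r < M.D.P → u (M.D.P * n + r) = M.D.F (u n) r) → Rich3.RichSeq u) :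
    ∃ (A : Finset ℤ) (v : ℕ → ℤ), (∀ i, v i ∈ A) ∧ Rich3.RichSeq v ∧
      ∀ i l : ℕ, 1 ≤ l → ¬ ((Rich3.factor v i l).sum = (Rich3.factor v (i + l) l).sum ∧
        (Rich3.factor v (i + l) l).sum = (Rich3.factor v (i + 2 * l) l).sum) := by
  obtain ⟨hP, hQ, hK, hc, hcut, hRo, hsym⟩ := T_spec C.T
  have hA := C.A
  have hS := C.S
  have hinj : Function.Injective M.wz := by
    intro a b hab
    have hab' : M.wt a = M.wt b := by unfold wz at hab; exact_mod_cast hab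
    by_contra hne
    have hne' : (a : ℕ) ≠ b := fun h => hne (Fin.ext h)
    rcases lt_or_gt_of_ne hne' with h | h
    · exact (S_spec hS b.2).2.2.1 a h hab'.symm
    · exact (S_spec hS a.2).2.2.1 b h hab'
  set o : Fin M.D.K := Fin.ofNat M.D.K M.D.o with ho
  have hoval : (o : ℕ) = M.D.o := by
    rw [ho]
    exact Nat.mod_eq_of_lt (Dat.A_o hA)
  have hzero : ∀ a, M.D.F a 0 = o := fun a => Dat.F_zero hA hZ a
  have h0 : M.D.F o 0 = o := hzero o
  have hP2 : 2 ≤ M.D.P := by omega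
  set u : ℕ → Fin M.D.K := fixw M.D.F o M.D.P hP2 with hudef
  have hu : ∀ n r : ℕ, r < M.D.P → u (M.D.P * n + r) = M.D.F (u n) r := fun n r hr => fixw_spec hP2 h0 n r hr
  have hrich : Rich3.RichSeq u := hrich' u hu
  have hsum : ∀ a, PS M.wz (M.fb a) M.D.P = (M.Q : ℤ) * M.wz a + ((M.cp : ℤ) - M.cm) := by
    intro a
    rw [ps_eq hA hS a _ le_rfl]
    have h2 := (S_spec hS a.2).2.1
    have h3 : (M.ps a M.D.P : ℤ) + M.cm = M.Q * M.wt a + M.cp := by exact_mod_cast h2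
    unfold wz
    linarith
  have hpal : ∀ a r, r < M.D.P → M.fb a (M.D.P - 1 - r) = M.fb a r := by
    intro a r hr
    have := Dat.F_pal hA (c := a) (r := r) (by omega) (by omega)
    unfold fb
    rw [← this]
    congr 1
    push_cast [Nat.cast_sub (show r ≤ M.D.P - 1 by omega), Nat.cast_sub (show 1 ≤ M.D.P by omega)]
    ring
  have hfirst : ∀ a, M.fb a 0 = o := fun a => hzero a
  have hlast : ∀ a, M.fb a (M.D.P - 1) = o := by
    intro a
    have := hpal a 0 (by omega)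
    rw [Nat.sub_zero] at this
    rw [this, hfirst]
  have hu' : ∀ n r : ℕ, r < M.D.P → u (M.D.P * n + r) = M.fb (u n) r := hu
  have hRc : ∀ m, M.Rc (u (m - 1)) (u m) := by
    intro m
    rcases Nat.eq_zero_or_pos m with hm | hm
    · rw [hm]
      have : u 0 = o := by
        have := hu' 0 0 (by omega)
        rw [mul_zero, add_zero] at this
        rw [this, hfirst]
      show M.Rc (u (0 - 1)) (u 0)
      rw [Nat.zero_sub, this]
      unfold Rc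
      rw [hoval]; exact hRo
    · obtain ⟨n, r, hr, rfl⟩ : ∃ n r : ℕ, r < M.D.P ∧ m = M.D.P * n + r :=
        ⟨m / M.D.P, m % M.D.P, Nat.mod_lt _ (by omega), (Nat.div_add_mod m M.D.P).symm⟩
      rcases Nat.eq_zero_or_pos r with h | h
      · subst h
        have hn : 0 < n := by
          rcases Nat.eq_zero_or_pos n with h' | h'
          · subst h'; simp at hm
          · exact h'
        obtain ⟨n', rfl⟩ : ∃ n', n = n' + 1 := ⟨n - 1, by omega⟩
        have e1 : u (M.D.P * (n' + 1) + 0 - 1) = o := by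
          rw [show M.D.P * (n' + 1) + 0 - 1 = M.D.P * n' + (M.D.P - 1) by rw [Nat.mul_succ]; omega,
            hu' n' (M.D.P - 1) (by omega), hlast]
        rw [e1, hu' (n' + 1) 0 (by omega), hfirst]
        unfold Rc
        rw [hoval]; exact hRo
      · rw [show M.D.P * n + r - 1 = M.D.P * n + (r - 1) by omega, hu' n (r - 1) (by omega), hu' n r hr]
        have := (hcut (u n) (u n).2).2 (r - 1) (by omega)
        unfold Rc fb
        rw [Dat.F_val hA (by omega) (by omega), Dat.F_val hA (by omega) (by omega)]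
        have e1 : ((((r - 1 : ℕ) : ℤ) + 1).toNat) = r - 1 + 1 := by omega
        have e2 : (((r : ℤ) + 1).toNat) = r - 1 + 2 := by omega
        rw [e1, e2]
        exact this
  have hcube := no_cube_ref (w := M.wz) (u := u) (f := M.fb) (T := M.Tc) (P := M.D.P) (Q := (M.Q : ℤ))
    (c := (M.cp : ℤ) - M.cm) (R := M.Rc) (X := M.XX) hP (by omega) hu' hpal hsum hfirst
    (fun a => (hcut a a.2).1) hRc (by
      intro k₀ k₁ k₂ k₃ t₀ t₁ t₂ t₃ e₀ e₁ e₂ e₃ σ₀ σ₁ σ₂ σ₃ η₀ η₁ η₂ η₃ β₀ β₁ β₂ β₃ l₀ l₁ l₂ l₃ D0 D1 D2 D3 L1 L2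
      exact con_all C (p0 := ⟨k₀, t₀, e₀, σ₀, η₀, β₀, l₀⟩) (p1 := ⟨k₁, t₁, e₁, σ₁, η₁, β₁, l₁⟩)
        (p2 := ⟨k₂, t₂, e₂, σ₂, η₂, β₂, l₂⟩) (p3 := ⟨k₃, t₃, e₃, σ₃, η₃, β₃, l₃⟩) D0 D1 D2 D3 L1 L2) (by
      intro b₀ a₀ b₁ a₁ b₂ a₂ b₃ a₃ hX
      have hF := C.F
      unfold chkF at hF
      rw [an_iff, ng_iff] at hF
      exact hF.1 hX)
  refine ⟨Finset.univ.image M.wz, fun n => M.wz (u n), fun i => Finset.mem_image_of_mem _ (Finset.mem_univ _),
    rich_map hinj hrich, ?_⟩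
  intro i l hl hcon
  have hPS : ∀ n, PS (fun x => x) (fun n => M.wz (u n)) n = PS M.wz u n := fun n => rfl
  rw [sum_factor, sum_factor, sum_factor, hPS, hPS, hPS, hPS, hPS] at hcon
  refine hcube l i hl ⟨?_, ?_⟩
  · have := hcon.1
    rw [show i + l + l = i + 2 * l by ring] at this
    linarith
  · have := hcon.2
    rw [show i + l + l = i + 2 * l by ring, show i + 2 * l + l = i + 3 * l by ring] at this
    linarith

lemma K_pos : 0 < M.D.K := by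
  have h := C.A
  unfold Dat.chkA at h
  rw [an_iff, an_iff] at h
  have : M.D.o + 1 ≤ M.D.K := Nat.ble_eq.mp h.1.1
  omega

/-- **The checks give a rich word without additive cubes** (marker of two letters). -/
theorem finalR (hG : M.D.chkG = true) (hC : M.D.chkC = true)
    (hD : M.D.chkD = true) (hNN : M.D.chkN = true) (hRR : M.D.chkR = true) (hU : M.D.chkU = true)
    (hZ : M.D.chkZ = true) (hM : M.D.chkM = true) :
    ∃ (A : Finset ℤ) (v : ℕ → ℤ), (∀ i, v i ∈ A) ∧ Rich3.RichSeq v ∧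
      ∀ i l : ℕ, 1 ≤ l → ¬ ((Rich3.factor v i l).sum = (Rich3.factor v (i + l) l).sum ∧
        (Rich3.factor v (i + l) l).sum = (Rich3.factor v (i + 2 * l) l).sum) := by
  have hKpos := K_pos C
  have : NeZero M.D.K := ⟨by omega⟩
  have hB := Dat.blk C.A hG hZ hM
  have hcert := Dat.cert C.A hG hC hD hNN hRR hU
  refine finalW C hZ ?_
  intro u hu
  refine richSeq hB (two_spec hB hu) hcert (U := Pool.Agent.E25.two u) (fun n => ?_)
  unfold Pool.Agent.E25.two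
  rw [if_pos (by positivity), Int.toNat_natCast]

end final

/-- From ranges to all entries. -/
lemma X_range {L : List (List (List ℕ))} {lo : ℕ} (h : M.chkX L lo = true) :
    ∀ i, lo ≤ i → i < lo + L.length → ∃ rs, M.chk1 i rs = true := by
  induction L generalizing lo with
  | nil => intro i h1 h2; simp at h2; omega
  | cons rs L ih =>
    intro i h1 h2
    have h' : an (M.chk1 lo rs) (M.chkX L (lo + 1)) = true := h
    rw [an_iff] at h'
    rcases Nat.eq_or_lt_of_le h1 with h3 | h3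
    · subst h3; exact ⟨rs, h'.1⟩
    · exact ih h'.2 i h3 (by simp at h2; omega)

end Pool.Agent.E25.Ker.NumR
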