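import Pool.Agent.E25.Ker

/-!
Soundness of the checker for the certificates of richness.
-/

set_option autoImplicit false
set_option linter.unusedSectionVars false
set_option linter.unusedVariables false

namespace Pool.Agent.E25.Ker

namespace Dat

variable (D : Dat)

/-- The blocks. -/
def F [NeZero D.K] (a : Fin D.K) (r : ℤ) : Fin D.K := Fin.ofNat D.K (D.le a (r + 1).toNat)

/-- The set of letters with the mask `m`. -/
def toS (m : ℕ) : Set (Fin D.K) := {e | bt m e = true}

/-- The family of sets of letters. -/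
def Fam : Set (Set (Fin D.K)) := {B | ∃ R ∈ D.rows, B = D.toS R.m}

open Classical in
/-- The row of a set. -/
noncomputable def rowOf (B : Set (Fin D.K)) : Row :=
  if h : ∃ R ∈ D.rows, B = D.toS R.m then h.choose else ⟨0, 0, 0, 0, 0, 0⟩

/-- The lengths. -/
noncomputable def Lf (B : Set (Fin D.K)) (c : Fin D.K) (r : ℤ) : ℤ :=
  (D.Lv (D.rowOf B) (D.rep c r.toNat) r.toNat : ℕ)

lemma rowOf_spec {B : Set (Fin D.K)} (h : B ∈ D.Fam) : D.rowOf B ∈ D.rows ∧ B = D.toS (D.rowOf B).m := by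
  have h' : ∃ R ∈ D.rows, B = D.toS R.m := h
  unfold rowOf
  rw [dif_pos h']
  exact h'.choose_spec

variable {D}

section blocks

variable [NeZero D.K] (hA : D.chkA = true)

include hA

lemma A_o : D.o < D.K := by
  unfold chkA at hA
  rw [an_iff, an_iff, an_iff] at hA
  have := hA.1.1
  exact Nat.ble_eq.mp this

lemma A_P : 2 ≤ D.P ∧ D.P < 65536 := by
  unfold chkA at hA
  rw [an_iff, an_iff, an_iff] at hA
  exact ⟨Nat.ble_eq.mp hA.1.2.1, by have := Nat.ble_eq.mp hA.1.2.2; omega⟩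

lemma A_main {a : ℕ} (ha : a < D.K) :
    (∀ t, t < D.P + 2 → D.le a t < D.K ∧ D.le a t = D.le a (D.P + 1 - t)) ∧ D.le a 0 = D.o := by
  unfold chkA at hA
  rw [an_iff] at hA
  have h := allN_iff.mp hA.2 a ha
  rw [an_iff] at h
  obtain ⟨h1, h2⟩ := h
  refine ⟨?_, Nat.beq_eq.mp h2⟩
  intro t ht
  have := allN_iff.mp h1 t ht
  rw [an_iff] at this
  exact ⟨Nat.ble_eq.mp this.1, Nat.beq_eq.mp this.2⟩

omit [NeZero D.K] hA in
lemma Z_main (hZ : D.chkZ = true) {a : ℕ} (ha : a < D.K) : D.le a 1 = D.o := by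
  unfold chkZ at hZ
  exact Nat.beq_eq.mp (allN_iff.mp hZ a ha)

omit [NeZero D.K] hA in
lemma M_main (hM : D.chkM = true) {a : ℕ} (ha : a < D.K) :
    ∀ t, t < D.P - 1 → ¬ (D.le a (t + 1) = D.o ∧ D.le a (t + 2) = D.o) := by
  unfold chkM at hM
  intro t ht
  have := allN_iff.mp (allN_iff.mp hM a ha) t ht
  rw [ng_iff, an_iff] at this
  rintro ⟨g1, g2⟩
  exact this ⟨Nat.beq_eq.mpr g1, Nat.beq_eq.mpr g2⟩

lemma F_val {a : Fin D.K} {r : ℤ} (h0 : -1 ≤ r) (h1 : r ≤ D.P) : (D.F a r : ℕ) = D.le a (r + 1).toNat := by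
  have := ((A_main hA a.2).1 (r + 1).toNat (by omega)).1
  unfold F
  rw [Fin.val_ofNat, Nat.mod_eq_of_lt this]

lemma F_eq {a b : Fin D.K} {r s : ℤ} (h0 : -1 ≤ r) (h1 : r ≤ D.P) (h2 : -1 ≤ s) (h3 : s ≤ D.P) :
    D.F a r = D.F b s ↔ D.le a (r + 1).toNat = D.le b (s + 1).toNat := by
  rw [Fin.ext_iff, F_val hA h0 h1, F_val hA h2 h3]

lemma F_mem {a : Fin D.K} {r : ℤ} {m : ℕ} (h0 : -1 ≤ r) (h1 : r ≤ D.P) :
    D.F a r ∈ D.toS m ↔ bt m (D.le a (r + 1).toNat) = true := by
  unfold toS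
  show bt m (D.F a r : ℕ) = true ↔ _
  rw [F_val hA h0 h1]

omit [NeZero D.K] hA in
lemma ag_spec (hG : D.chkG = true) {a b : ℕ} (ha : a < D.K) (hb : b < D.K) :
    (∀ t, t < D.ag a b + 1 → D.le a t = D.le b t) ∧ (a = b → D.ag a b = D.P) ∧
    (a ≠ b → D.ag a b < D.P ∧ D.le a (D.ag a b + 1) ≠ D.le b (D.ag a b + 1)) := by
  unfold chkG at hG
  have h := allN_iff.mp (allN_iff.mp hG a ha) b hb
  rw [fN_eq, an_iff] at h
  obtain ⟨h1, h2⟩ := h
  have h1' := Nat.beq_eq.mp h1
  refine ⟨?_, ?_, ?_⟩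
  · intro t ht
    exact dg_of_nb h1' t ht
  · intro hab
    have : Nat.beq a b = true := Nat.beq_eq.mpr hab
    rw [this] at h2
    exact Nat.beq_eq.mp h2
  · intro hab
    have : Nat.beq a b = false := by
      rw [Bool.eq_false_iff]
      intro h
      exact hab (Nat.beq_eq.mp h)
    rw [this] at h2
    have h3 : an (Nat.ble (Nat.succ (D.ag a b)) D.P)
      (ng (Nat.beq (D.le a (Nat.succ (D.ag a b))) (D.le b (Nat.succ (D.ag a b))))) = true := h2
    rw [an_iff, ng_iff] at h3
    exact ⟨Nat.ble_eq.mp h3.1, fun h => h3.2 (Nat.beq_eq.mpr h)⟩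

lemma agr_iff (hG : D.chkG = true) {a b : Fin D.K} {r : ℤ} (h0 : 0 ≤ r) (h1 : r ≤ D.P) :
    Agr D.F a b r ↔ r ≤ D.ag a b := by
  obtain ⟨g1, g2, g3⟩ := ag_spec hG a.2 b.2
  constructor
  · intro h
    by_contra hlt
    push Not at hlt
    rcases eq_or_ne (a : ℕ) (b : ℕ) with hab | hab
    · have := g2 hab; omega
    · obtain ⟨k1, k2⟩ := g3 hab
      have := h (D.ag a b) (by omega) hlt
      rw [F_eq hA (by omega) (by omega) (by omega) (by omega)] at this
      rw [show ((D.ag a b : ℤ) + 1).toNat = D.ag a b + 1 by omega] at this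
      exact k2 this
  · intro h t ht ht'
    rw [F_eq hA (by omega) (by omega) (by omega) (by omega)]
    exact g1 _ (by omega)

lemma F_pal {c : Fin D.K} {r : ℤ} (h0 : -1 ≤ r) (h1 : r ≤ D.P) : D.F c (D.P - 1 - r) = D.F c r := by
  rw [F_eq hA (by omega) (by omega) (by omega) (by omega)]
  have := ((A_main hA c.2).1 (r + 1).toNat (by omega)).2
  rw [this]; congr 1; omega

lemma F_zero (hZ : D.chkZ = true) (c : Fin D.K) : D.F c 0 = Fin.ofNat D.K D.o := by
  have hP := A_P hA
  rw [Fin.ext_iff, F_val hA (by omega) (by omega), Fin.val_ofNat, Nat.mod_eq_of_lt (A_o hA)]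
  exact Z_main hZ c.2

lemma blk (hG : D.chkG = true) (hZ : D.chkZ = true) (hM : D.chkM = true) : Blk D.F D.P (Fin.ofNat D.K D.o) := by
  have hP := A_P hA
  have ho := A_o hA
  have hov : ((Fin.ofNat D.K D.o : Fin D.K) : ℕ) = D.o := by rw [Fin.val_ofNat, Nat.mod_eq_of_lt ho]
  refine ⟨by exact_mod_cast hP.1, ?_, ?_, ?_, ?_, ?_⟩
  · intro c r h0 h1
    rw [F_eq hA (by omega) (by omega) (by omega) (by omega)]
    have := ((A_main hA c.2).1 (r + 1).toNat (by omega)).2
    rw [this]; congr 1; omega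
  · intro c
    rw [Fin.ext_iff, F_val hA (by omega) (by omega), hov]
    exact (A_main hA c.2).2
  · intro c
    rw [Fin.ext_iff, F_val hA (by omega) (by omega), hov]
    exact Z_main hZ c.2
  · rintro c r h0 h1 ⟨e1, e2⟩
    rw [Fin.ext_iff, F_val hA (by omega) (by omega), hov] at e1
    rw [Fin.ext_iff, F_val hA (by omega) (by omega), hov] at e2
    refine M_main hM c.2 (r - 1).toNat (by omega) ⟨?_, ?_⟩
    · rw [← e1]; congr 1; omega
    · rw [← e2]; congr 1; omega
  · intro c d h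
    rw [agr_iff hA hG (by omega) le_rfl] at h
    by_contra hcd
    obtain ⟨g1, g2, g3⟩ := ag_spec hG c.2 d.2
    have := (g3 (fun h => hcd (Fin.ext h))).1
    omega

end blocks

section cert

variable [NeZero D.K] (hA : D.chkA = true) (hG : D.chkG = true)

omit [NeZero D.K] in
include hG in
lemma ag_le {a b : ℕ} (ha : a < D.K) (hb : b < D.K) : D.ag a b ≤ D.P := by
  obtain ⟨g1, g2, g3⟩ := ag_spec hG ha hb
  rcases eq_or_ne a b with h | h
  · exact (g2 h).le
  · exact (g3 h).1.le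

omit [NeZero D.K] in
include hG in
lemma rep_spec {a r : ℕ} (ha : a < D.K) (hr : r ≤ D.P) : D.rep a r < D.K ∧ r ≤ D.ag a (D.rep a r) := by
  have key : ∀ n, n ≤ D.K → D.repN a r n < D.K ∧ r ≤ D.ag a (D.repN a r n) := by
    intro n
    induction n with
    | zero => intro _; exact ⟨ha, by show r ≤ D.ag a a; rw [(ag_spec hG ha ha).2.1 rfl]; exact hr⟩
    | succ n ih =>
      intro hn
      have ih := ih (by omega)
      have e : D.repN a r (n + 1) = if Nat.ble r (D.ag a n) = true then n else D.repN a r n := by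
        have h : ∀ p : Bool, (Bool.rec (D.repN a r n) n p : ℕ) = if p = true then n else D.repN a r n := by
          intro p; cases p <;> simp
        exact h (Nat.ble r (D.ag a n))
      rw [e]
      split_ifs with h
      · exact ⟨by omega, Nat.ble_eq.mp h⟩
      · exact ih
  exact key D.K le_rfl

lemma mem_toS {m : ℕ} {e : Fin D.K} : e ∈ D.toS m ↔ bt m e = true := Iff.rfl

lemma inR_spec {x : ℕ} (h : D.inR x = true) : D.toS x ∈ D.Fam := by
  unfold inR at h
  obtain ⟨R, hR, he⟩ := anyL_iff.mp h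
  exact ⟨R, hR, by rw [Nat.beq_eq.mp he]⟩

/-- What the check of a pattern says. -/
lemma patt_spec {R : Row} {a r e : ℕ} (h : D.patt R a r e = true) :
    D.Lv R e r ≤ r ∧ bt R.m (D.le a (r - D.Lv R e r)) = true ∧
    nb D.Y (D.pos a (r - D.Lv R e r + 1)) (D.Lv R e r) = nb D.Y (D.pos a (D.P - r + 1)) (D.Lv R e r) ∧
    D.rv R e r < R.n ∧ tb 32 R.nd (D.rv R e r) = e * 65536 + r := by
  unfold patt at h
  rw [fN_eq, an_iff, an_iff, an_iff, fN_eq, an_iff] at h
  obtain ⟨h1, h2, h3, h4, h5⟩ := h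
  exact ⟨Nat.ble_eq.mp h1, h2, Nat.beq_eq.mp h3, Nat.ble_eq.mp h4, Nat.beq_eq.mp h5⟩

lemma D_spec (hD : D.chkD = true) {a r : ℕ} (ha : a < D.K) (hr : r ≤ D.P) {R : Row} (hR : R ∈ D.rows)
    (hm : bt R.m (D.le a (r + 1)) = true) :
    r + 1 = R.fp ∨ (R.fp < r + 1 ∧ D.patt R a r (D.rep a r) = true) := by
  unfold chkD at hD
  have h := allN_iff.mp (allN_iff.mp hD a ha) r (by rw [Nat.succ_eq_add_one]; omega)
  rw [fN_eq, fN_eq] at h
  have h' := allL_iff.mp h R hR
  rw [im_iff] at h'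
  have h2 := h' hm
  rw [orr_iff, an_iff] at h2
  rcases h2 with h3 | ⟨h3, h4⟩
  · left; exact Nat.beq_eq.mp h3
  · right; exact ⟨Nat.ble_eq.mp h3, h4⟩

lemma N_spec (hN : D.chkN = true) {R : Row} (hR : R ∈ D.rows) :
    (bt R.m D.o = true → R.fp = 0) ∧ ∀ a b, a < D.K → b < D.K → bt R.m (D.le a R.fp) = true →
      bt R.m (D.le b R.fp) = true → R.fp ≤ D.ag a b + 1 := by
  unfold chkN at hN
  have h := allL_iff.mp hN R hR
  rw [an_iff, im_iff] at h
  refine ⟨fun ho => Nat.beq_eq.mp (h.1 ho), ?_⟩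
  intro a b ha hb hma hmb
  have h1 := allN_iff.mp h.2 a ha
  rw [im_iff] at h1
  have h2 := allN_iff.mp (h1 hma) b hb
  rw [im_iff] at h2
  exact Nat.ble_eq.mp (h2 hmb)

/-- The key of the node number `i`. -/
def keyN (D : Dat) (R : Row) (i : ℕ) : ℕ :=
  D.key (tb 32 R.nd i / 65536) (tb 32 R.nd i % 65536) (D.Lv R (tb 32 R.nd i / 65536) (tb 32 R.nd i % 65536))

lemma keyK_eq (R : Row) (i : ℕ) (k : ℕ → Bool) : D.keyK R i k = k (D.keyN R i) := by
  unfold keyK
  simp only [fN_eq]
  rfl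

lemma key_lt (hR : D.chkR = true) {R : Row} (hm : R ∈ D.rows) : ∀ i j, i < j → j < R.n → D.keyN R i < D.keyN R j := by
  unfold chkR at hR
  have h := allN_iff.mp (allL_iff.mp hR R hm)
  have step : ∀ i, i + 1 < R.n → D.keyN R i < D.keyN R (i + 1) := by
    intro i hi
    have := h i (by
      have : Nat.sub R.n 1 = R.n - 1 := rfl
      rw [this]; omega)
    rw [keyK_eq, keyK_eq] at this
    exact Nat.ble_eq.mp this
  intro i j hij
  induction j with
  | zero => omega
  | succ j ih =>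
    intro hj
    rcases Nat.lt_succ_iff_lt_or_eq.mp hij with h' | h'
    · exact (ih h' (by omega)).trans (step j hj)
    · rw [h']; exact step j hj

lemma key_inj (hR : D.chkR = true) {R : Row} (hm : R ∈ D.rows) {i j : ℕ} (hi : i < R.n) (hj : j < R.n)
    (h : D.keyN R i = D.keyN R j) : i = j := by
  rcases lt_trichotomy i j with h' | h' | h'
  · have := key_lt hR hm i j h' hj; omega
  · exact h'
  · have := key_lt hR hm j i h' hi; omega

include hA hG

/-- The pattern at a node. -/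
lemma pat_node (hD : D.chkD = true) (hN : D.chkN = true) {R : Row} (hR : R ∈ D.rows) {c : Fin D.K} {r : ℕ}
    (hr : r ≤ D.P) (hm : bt R.m (D.le c (r + 1)) = true) (hf : R.fp < r + 1) :
    D.patt R c r (D.rep c r) = true := by
  rcases D_spec hD c.2 hr hR hm with h | h
  · omega
  · exact h.2

lemma not_before (hD : D.chkD = true) (hN : D.chkN = true) {R : Row} (hR : R ∈ D.rows) {c : Fin D.K} {t : ℕ}
    (ht : t ≤ D.P + 1) (hm : bt R.m (D.le c t) = true) : R.fp ≤ t := by
  rcases Nat.eq_zero_or_pos t with h | h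
  · subst h
    have : D.le c 0 = D.o := (A_main hA c.2).2
    rw [this] at hm
    rw [(N_spec hN hR).1 hm]
  · obtain ⟨t', rfl⟩ : ∃ t', t = t' + 1 := ⟨t - 1, by omega⟩
    rcases D_spec hD c.2 (by omega : t' ≤ D.P) hR hm with h' | h'
    · exact h'.symm.le
    · exact h'.1.le

lemma pat_of_patt {R : Row} {c : Fin D.K} {r : ℕ} (hr : r ≤ D.P) (hm : bt R.m (D.le c (r + 1)) = true)
    (hp : D.patt R c r (D.rep c r) = true) :
    Pat (D.F c) (D.toS R.m) r (D.Lv R (D.rep c r) r : ℕ) := by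
  obtain ⟨h1, h2, h3, h4, h5⟩ := patt_spec hp
  set l := D.Lv R (D.rep c r) r with hl
  refine ⟨by omega, by omega, ?_, ?_, ?_⟩
  · rw [F_mem hA (by omega) (by omega)]
    rw [show ((r : ℤ) - l - 1 + 1).toNat = r - l by omega]; exact h2
  · rw [F_mem hA (by omega) (by omega)]
    exact hm
  · intro x y hx hy hxy
    rw [F_eq hA (by omega) (by omega) (by omega) (by omega)]
    have e1 := dg_of_nb h3 (x + 1 - (r - l + 1)).toNat (by omega)
    have e2 : D.pos c (r - l + 1) + (x + 1 - (r - l + 1)).toNat = D.pos c (x + 1).toNat := by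
      show (c : ℕ) * (D.P + 2) + (r - l + 1) + _ = (c : ℕ) * (D.P + 2) + _
      omega
    have e3 : D.pos c (D.P - r + 1) + (x + 1 - (r - l + 1)).toNat = D.pos c (D.P + 1 - (y + 1).toNat) := by
      show (c : ℕ) * (D.P + 2) + (D.P - r + 1) + _ = (c : ℕ) * (D.P + 2) + _
      omega
    rw [e2, e3] at e1
    have e4 := ((A_main hA c.2).1 (y + 1).toNat (by omega)).2
    show dg D.Y (D.pos c (x + 1).toNat) = D.le c (y + 1).toNat
    rw [e4]
    exact e1

theorem cert (hC : D.chkC = true) (hD : D.chkD = true) (hN : D.chkN = true) (hR : D.chkR = true)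
    (hU : D.chkU = true) : Cert D.F D.P D.Fam D.Lf := by
  have hP := A_P hA
  refine ⟨?_, ?_, ?_, ?_, ?_⟩
  · unfold chkU at hU
    obtain ⟨R, hRm, h⟩ := anyL_iff.mp hU
    refine ⟨R, hRm, ?_⟩
    ext e
    simp only [Set.mem_univ, true_iff]
    exact allN_iff.mp h e e.2
  · intro B hB c r h0 h1 hm
    obtain ⟨hRm, hBe⟩ := D.rowOf_spec hB
    set R := D.rowOf B with hRdef
    rw [hBe, F_mem hA (by omega) (by omega)] at hm
    have hC' := hC
    unfold chkC at hC'
    have h := allN_iff.mp (allN_iff.mp hC' c c.2) r.toNat (by rw [Nat.succ_eq_add_one]; omega)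
    rw [fN_eq, fN_eq] at h
    by_cases heq : D.cls c r.toNat = D.cls c (r.toNat + 1)
    · have hb : Nat.beq (D.cls c r.toNat) (D.cls c (Nat.succ r.toNat)) = true := Nat.beq_eq.mpr heq
      rw [hb] at h
      have hin : D.inR (D.cls c r.toNat) = true := h
      have hF := inR_spec hin
      have : Nx D.F c r B = D.toS (D.cls c r.toNat) := by
        ext e
        have hcl : ∀ ρ : ℕ, e ∈ D.toS (D.cls c ρ) ↔ ρ ≤ D.ag c e := by
          intro ρ
          rw [mem_toS]; unfold cls; rw [bt_msk e.2, Nat.ble_eq]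
        rw [hcl]
        constructor
        · rintro ⟨g1, g2⟩
          rw [agr_iff hA hG h0 h1] at g1
          omega
        · intro g
          have g' : r.toNat + 1 ≤ D.ag c e := by
            have := (hcl r.toNat).mpr g
            rw [heq] at this
            exact (hcl _).mp this
          have hle := ag_le hG c.2 e.2
          have hag : Agr D.F c e (r + 1) := by
            rw [agr_iff hA hG (by omega) (by omega)]; omega
          refine ⟨fun t ht ht' => hag t ht (by omega), ?_⟩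
          have := hag r h0 (by omega)
          rw [← this, hBe, F_mem hA (by omega) (by omega)]
          exact hm
      rw [this]; exact hF
    · have hb : Nat.beq (D.cls c r.toNat) (D.cls c (Nat.succ r.toNat)) = false := by
        rw [Bool.eq_false_iff]; intro h'; exact heq (Nat.beq_eq.mp h')
      rw [hb] at h
      have h2 := allL_iff.mp h R hRm
      rw [im_iff, fN_eq] at h2
      have hin := h2 (by
        rw [show (r + 1).toNat = r.toNat + 1 by omega] at hm
        exact hm)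
      have hF := inR_spec hin
      have : Nx D.F c r B = D.toS (D.nx R c r.toNat) := by
        ext e
        rw [mem_toS]; unfold nx; rw [bt_msk e.2, an_iff, Nat.ble_eq]
        show (Agr D.F c e r ∧ D.F e r ∈ B) ↔ _
        rw [agr_iff hA hG h0 h1, hBe, F_mem hA (by omega) (by omega),
          show (r + 1).toNat = r.toNat + 1 by omega, Nat.succ_eq_add_one]
        constructor
        · rintro ⟨g1, g2⟩
          exact ⟨by omega, g2⟩
        · rintro ⟨g1, g2⟩
          exact ⟨by omega, g2⟩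
      rw [this]; exact hF
  · intro B hB c r h0 h1 hm
    obtain ⟨hRm, hBe⟩ := D.rowOf_spec hB
    obtain ⟨ρ, rfl⟩ : ∃ ρ : ℕ, r = ρ := ⟨r.toNat, by omega⟩
    have hm' := hm
    rw [hBe, F_mem hA (by omega) (by omega), show ((ρ : ℤ) + 1).toNat = ρ + 1 by omega] at hm
    rcases D_spec hD c.2 (by omega : ρ ≤ D.P) hRm hm with h | h
    · right
      intro t ht ht' hmt
      rw [hBe, F_mem hA (by omega) (by omega)] at hmt
      have := not_before hA hG hD hN hRm (by omega) hmt
      omega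
    · left
      have := pat_of_patt hA hG (by omega) hm h.2
      rw [← hBe] at this
      unfold Lf
      rw [Int.toNat_natCast]
      exact this
  · intro B hB c d r s h0 h1 h2 h3 hmc hmd hnc hnd
    obtain ⟨hRm, hBe⟩ := D.rowOf_spec hB
    obtain ⟨ρ, rfl⟩ : ∃ ρ : ℕ, r = ρ := ⟨r.toNat, by omega⟩
    obtain ⟨σ, rfl⟩ : ∃ σ : ℕ, s = σ := ⟨s.toNat, by omega⟩
    have hmc' := hmc
    have hmd' := hmd
    rw [hBe, F_mem hA (by omega) (by omega), show ((ρ : ℤ) + 1).toNat = ρ + 1 by omega] at hmc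
    rw [hBe, F_mem hA (by omega) (by omega), show ((σ : ℤ) + 1).toNat = σ + 1 by omega] at hmd
    have e1 : ρ + 1 = (D.rowOf B).fp := by
      rcases D_spec hD c.2 (by omega : ρ ≤ D.P) hRm hmc with h | h
      · exact h
      · exfalso
        have hp := pat_of_patt hA hG (by omega) hmc h.2
        rw [← hBe] at hp
        exact hnc _ (by have := hp.2.1; omega) (by have := hp.1; omega) hp.2.2.1
    have e2 : σ + 1 = (D.rowOf B).fp := by
      rcases D_spec hD d.2 (by omega : σ ≤ D.P) hRm hmd with h | h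
      · exact h
      · exfalso
        have hp := pat_of_patt hA hG (by omega) hmd h.2
        rw [← hBe] at hp
        exact hnd _ (by have := hp.2.1; omega) (by have := hp.1; omega) hp.2.2.1
    refine ⟨by omega, ?_⟩
    rw [agr_iff hA hG (by omega) (by omega)]
    have := (N_spec hN hRm).2 c d c.2 d.2 (by rw [← e1]; exact hmc) (by rw [← e2]; exact hmd)
    omega
  · intro B hB c d r s h0 h1 h2 h3 hpc hpd hL hS
    obtain ⟨hRm, hBe⟩ := D.rowOf_spec hB
    obtain ⟨ρ, rfl⟩ : ∃ ρ : ℕ, r = ρ := ⟨r.toNat, by omega⟩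
    obtain ⟨σ, rfl⟩ : ∃ σ : ℕ, s = σ := ⟨s.toNat, by omega⟩
    have node : ∀ (c : Fin D.K) (ρ : ℕ), ρ ≤ D.P → Pat (D.F c) B ρ (D.Lf B c ρ) →
        D.patt (D.rowOf B) c ρ (D.rep c ρ) = true := by
      intro c ρ hρ hp
      have hm := hp.2.2.2.1
      have hm2 := hp.2.2.1
      have hl0 := hp.1
      have hl1 := hp.2.1
      rw [hBe, F_mem hA (by omega) (by omega), show ((ρ : ℤ) + 1).toNat = ρ + 1 by omega] at hm
      have hm3 : bt (D.rowOf B).m (D.le c ((ρ : ℤ) - D.Lf B c ρ - 1 + 1).toNat) = true := by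
        have h : D.F c (ρ - D.Lf B c ρ - 1) ∈ D.toS (D.rowOf B).m := by rw [← hBe]; exact hm2
        exact (F_mem hA (by omega) (by omega)).mp h
      have := not_before hA hG hD hN hRm (by omega) hm3
      exact pat_node hA hG hD hN hRm hρ hm (by omega)
    have pc := patt_spec (node c ρ (by omega) hpc)
    have pd := patt_spec (node d σ (by omega) hpd)
    obtain ⟨a1, a2, a3, a4, a5⟩ := pc
    obtain ⟨b1, b2, b3, b4, b5⟩ := pd
    set R := D.rowOf B with hRdef
    obtain ⟨c1, c2⟩ := rep_spec hG c.2 (by omega : ρ ≤ D.P)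
    obtain ⟨d1, d2⟩ := rep_spec hG d.2 (by omega : σ ≤ D.P)
    have hLc : D.Lf B c ρ = (D.Lv R (D.rep c ρ) ρ : ℕ) := by unfold Lf; rw [Int.toNat_natCast]
    have hLd : D.Lf B d σ = (D.Lv R (D.rep d σ) σ : ℕ) := by unfold Lf; rw [Int.toNat_natCast]
    set l := D.Lv R (D.rep c ρ) ρ with hl
    set l' := D.Lv R (D.rep d σ) σ with hl'
    have hll : l = l' := by rw [hLc, hLd] at hL; exact_mod_cast hL
    rw [hLc] at hS
    have hword : nb D.Y (D.pos c (ρ - l + 1)) l = nb D.Y (D.pos d (σ - l' + 1)) l' := by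
      rw [← hll]
      refine nb_congr ?_
      intro t ht
      have h := hS t (by omega) (by omega)
      rw [F_eq hA (by omega) (by omega) (by omega) (by omega)] at h
      have e1 : D.pos c (ρ - l + 1) + t = D.pos c ((ρ : ℤ) - l + t + 1).toNat := by
        show (c : ℕ) * (D.P + 2) + (ρ - l + 1) + _ = (c : ℕ) * (D.P + 2) + _
        omega
      have e2 : D.pos d (σ - l + 1) + t = D.pos d ((σ : ℤ) - l + t + 1).toNat := by
        show (d : ℕ) * (D.P + 2) + (σ - l + 1) + _ = (d : ℕ) * (D.P + 2) + _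
        omega
      rw [e1, e2]; exact h
    have hrep : ∀ (c : Fin D.K) (e ρ l : ℕ), e < D.K → l ≤ ρ → ρ ≤ D.ag c e →
        nb D.Y (D.pos e (ρ - l + 1)) l = nb D.Y (D.pos c (ρ - l + 1)) l := by
      intro c e ρ l he hlρ hag
      refine nb_congr ?_
      intro t ht
      have := (ag_spec hG c.2 he).1 (ρ - l + 1 + t) (by omega)
      have e1 : D.pos e (ρ - l + 1) + t = D.pos e (ρ - l + 1 + t) := by
        show e * (D.P + 2) + (ρ - l + 1) + _ = e * (D.P + 2) + _
        omega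
      have e2 : D.pos c (ρ - l + 1) + t = D.pos c (ρ - l + 1 + t) := by
        show (c : ℕ) * (D.P + 2) + (ρ - l + 1) + _ = (c : ℕ) * (D.P + 2) + _
        omega
      rw [e1, e2]; exact this.symm
    have kc : D.keyN R (D.rv R (D.rep c ρ) ρ) = nb D.Y (D.pos c (ρ - l + 1)) l + 16 ^ l := by
      unfold keyN
      rw [a5]
      have x1 : (D.rep c ρ * 65536 + ρ) / 65536 = D.rep c ρ := by omega
      have x2 : (D.rep c ρ * 65536 + ρ) % 65536 = ρ := by omega
      rw [x1, x2, ← hl, ← hrep c (D.rep c ρ) ρ l c1 a1 c2]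
      rfl
    have kd : D.keyN R (D.rv R (D.rep d σ) σ) = nb D.Y (D.pos d (σ - l' + 1)) l' + 16 ^ l' := by
      unfold keyN
      rw [b5]
      have x1 : (D.rep d σ * 65536 + σ) / 65536 = D.rep d σ := by omega
      have x2 : (D.rep d σ * 65536 + σ) % 65536 = σ := by omega
      rw [x1, x2, ← hl', ← hrep d (D.rep d σ) σ l' d1 b1 d2]
      rfl
    have hrk := key_inj hR hRm a4 b4 (by rw [kc, kd, hword, hll])
    rw [hrk, b5] at a5
    have hρσ : ρ = σ := by omega
    have hee : D.rep c ρ = D.rep d σ := by omega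
    refine ⟨by omega, ?_⟩
    have g1 := (ag_spec hG c.2 c1).1
    have g2 := (ag_spec hG d.2 d1).1
    intro t ht ht'
    rw [F_eq hA (by omega) (by omega) (by omega) (by omega)]
    rw [g1 _ (by omega), g2 _ (by omega), hee]

end cert

end Dat

end Pool.Agent.E25.Ker
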