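import Pool.Agent.E25.RichSub

/-!
Complete returns in the bi-infinite fixed point.
-/

set_option autoImplicit false

namespace Pool.Agent.E25

variable {α : Type*} {F : α → ℤ → α} {P : ℤ} {o : α} {Fam : Set (Set α)} {L : Set α → α → ℤ → ℤ} {U : ℤ → α}

lemma Agr.symm {c d : α} {r : ℤ} (h : Agr F c d r) : Agr F d c r := fun t h0 h1 => (h t h0 h1).symm

lemma Agr.trans {c d e : α} {r : ℤ} (h : Agr F c d r) (h' : Agr F d e r) : Agr F c e r :=
  fun t h0 h1 => (h t h0 h1).trans (h' t h0 h1)

lemma Blk.right (hB : Blk F P o) (c : α) : F c P = o := by
  have := hB.pal c (-1) le_rfl (by have := hB.hP; omega)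
  rw [show P - 1 - -1 = P by ring, hB.left] at this
  exact this

lemma Blk.last (hB : Blk F P o) (c : α) : F c (P - 1) = o := by
  have := hB.pal c 0 (by norm_num) (by have := hB.hP; omega)
  rw [show P - 1 - 0 = P - 1 by ring, hB.zero] at this
  exact this

lemma split (hP : 2 ≤ P) (i : ℤ) : ∃ m a : ℤ, 0 ≤ a ∧ a < P ∧ i = P * m + a :=
  ⟨i / P, i % P, Int.emod_nonneg _ (by omega), Int.emod_lt_of_pos _ (by omega), (Int.mul_ediv_add_emod i P).symm⟩

section fix

variable (hB : Blk F P o) (hU : ∀ n r : ℤ, -1 ≤ r → r ≤ P → U (P * n + r) = F (U n) r)

include hB hU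

lemma U_bd (n : ℤ) : U (P * n) = o := by
  have := hU n 0 (by norm_num) (by have := hB.hP; omega)
  rw [add_zero, hB.zero] at this; exact this

lemma U_bd' (n : ℤ) : U (P * n - 1) = o := by
  have := hU n (-1) le_rfl (by have := hB.hP; omega)
  rw [hB.left] at this; rw [sub_eq_add_neg]; exact this

lemma U_oo {k : ℤ} (h1 : U (k - 1) = o) (h2 : U k = o) : ∃ n, k = P * n := by
  obtain ⟨m, a, ha0, haP, rfl⟩ := split hB.hP k
  rcases eq_or_lt_of_le ha0 with h | h
  · exact ⟨m, by omega⟩
  · exfalso
    refine hB.noo (U m) a h haP ⟨?_, ?_⟩
    · rw [← hU m (a - 1) (by omega) (by omega), ← h1]; congr 1; ring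
    · rw [← hU m a (by omega) (by omega), h2]

lemma lift_pal {m m' ρ : ℤ} (hm : m < m') (hpal : Pal U (m + 1) m') (hagr : Agr F (U m) (U m') ρ) (h0 : 0 ≤ ρ)
    (h1 : ρ ≤ P) : Pal U (P * (m + 1) - ρ) (P * m' + ρ) := by
  have hP := hB.hP
  intro x y hx hy hxy
  obtain ⟨n, r, hr0, hrP, rfl⟩ := split hP x
  obtain ⟨n', r', hr0', hrP', rfl⟩ := split hP y
  have hq : P * (m + m' + 1 - n - n') = r + r' + 1 := by linarith
  have hq1 : m + m' + 1 - n - n' = 1 := by
    have hpos : 0 < P * (m + m' + 1 - n - n') := by omega
    have hlt : P * (m + m' + 1 - n - n') < P * 2 := by omega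
    have h1 : 0 < m + m' + 1 - n - n' := by
      by_contra hcon
      push Not at hcon
      nlinarith
    have h2 : m + m' + 1 - n - n' < 2 := by
      by_contra hcon
      push Not at hcon
      nlinarith
    omega
  rw [hq1, mul_one] at hq
  have hn : m ≤ n := by
    by_contra hcon
    push Not at hcon
    have : P * (n + 1) ≤ P * m := by nlinarith
    nlinarith
  have hn' : m ≤ n' := by
    by_contra hcon
    push Not at hcon
    have : P * (n' + 1) ≤ P * m := by nlinarith
    nlinarith
  have ex := hU n r (by omega) (by omega)
  have ey := hU n' r' (by omega) (by omega)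
  have hr' : r' = P - 1 - r := by omega
  rcases eq_or_lt_of_le hn with h | h
  · -- n = m
    subst h
    have hn2 : n' = m' := by omega
    subst hn2
    have hr : P - ρ ≤ r := by nlinarith
    rw [ex, ey, ← hB.pal (U m) r (by omega) (by omega), ← hr']
    exact hagr r' (by omega) (by omega)
  · rcases eq_or_lt_of_le hn' with h' | h'
    · subst h'
      have hn2 : n = m' := by omega
      subst hn2
      have hr : P - ρ ≤ r' := by nlinarith
      rw [ex, ey, ← hB.pal (U m) r' (by omega) (by omega)]
      have : P - 1 - r' = r := by omega
      rw [this]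
      exact (hagr r (by omega) (by omega)).symm
    · have := hpal n n' (by omega) (by omega) (by omega)
      rw [ex, ey, ← this, hr', hB.pal (U n) r (by omega) (by omega)]

/-- Returns to a set of letters. -/
lemma ret (hC : Cert F P Fam L) :
    ∀ n : ℕ, ∀ B ∈ Fam, ∀ i j : ℤ, j - i = n → i < j → U i ∈ B → U j ∈ B → (∀ k, i < k → k < j → U k ∉ B) →
      Pal U (i + 1) j := by
  have hP := hB.hP
  intro n
  induction n using Nat.strong_induction_on with
  | _ n ih =>
    intro B hBF i j hn hij hi hj hcons
    obtain ⟨m, a, ha0, haP, rfl⟩ := split hP i
    obtain ⟨m', b, hb0, hbP, rfl⟩ := split hP j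
    have hmm : m ≤ m' := by
      by_contra hcon
      push Not at hcon
      have : P * (m' + 1) ≤ P * m := by nlinarith
      nlinarith
    rw [hU m a (by omega) (by omega)] at hi
    rw [hU m' b (by omega) (by omega)] at hj
    rcases eq_or_lt_of_le hmm with h | h
    · subst h
      have hp := ret_block hC hBF (U m) b.toNat b (Int.toNat_of_nonneg hb0).symm (by omega) hj a (by omega) (by omega)
        hi (fun k hk hk' => by
          rw [← hU m k (by omega) (by omega)]
          exact hcons _ (by omega) (by omega))
      intro x y hx hy hxy
      have e1 := hU m (x - P * m) (by omega) (by omega)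
      have e2 := hU m (y - P * m) (by omega) (by omega)
      rw [show P * m + (x - P * m) = x by ring] at e1
      rw [show P * m + (y - P * m) = y by ring] at e2
      rw [e1, e2]
      exact hp _ _ (by omega) (by omega) (by omega)
    · have hPm : P * (m + 1) ≤ P * m' := by nlinarith
      have hPm' : P * (m + 1) = P * m + P := by ring
      by_cases hoB : o ∈ B
      · have h1 : U (P * (m + 1) - 1) = o := U_bd' hB hU _
        have h2 : U (P * (m + 1)) = o := U_bd hB hU _
        have hi' : P * m + a = P * (m + 1) - 1 := by
          by_contra hne
          exact hcons (P * (m + 1) - 1) (by omega) (by omega) (by rw [h1]; exact hoB)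
        have hj' : P * m' + b = P * (m + 1) := by
          by_contra hne
          exact hcons (P * (m + 1)) (by omega) (by omega) (by rw [h2]; exact hoB)
        intro x y hx hy hxy
        omega
      · have hd : ∀ t, -1 ≤ t → t < b → F (U m') t ∉ B := by
          intro t ht ht'
          rcases eq_or_lt_of_le ht with h' | h'
          · rw [← h', hB.left]; exact hoB
          · rw [← hU m' t (by omega) (by omega)]
            exact hcons _ (by omega) (by omega)
        have hc : ∀ t, -1 ≤ t → t < P - 1 - a → F (U m) t ∉ B := by
          intro t ht ht'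
          rcases eq_or_lt_of_le ht with h' | h'
          · rw [← h', hB.left]; exact hoB
          · rw [← hB.pal (U m) t (by omega) (by omega), ← hU m (P - 1 - t) (by omega) (by omega)]
            exact hcons _ (by omega) (by omega)
        have hca : F (U m) (P - 1 - a) ∈ B := by
          rw [hB.pal (U m) a (by omega) (by omega)]; exact hi
        obtain ⟨hab, hagr⟩ := hC.none B hBF (U m) (U m') (P - 1 - a) b (by omega) (by omega) (by omega) (by omega)
          hca hj hc hd
        rw [hab] at hagr hca
        have hCF : Nx F (U m') b B ∈ Fam := hC.closed B hBF (U m') b (by omega) (by omega) hj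
        have hpal : Pal U (m + 1) m' := by
          rcases eq_or_lt_of_le (show m + 1 ≤ m' by omega) with h' | h'
          · intro x y hx hy hxy; omega
          · have hlt : m' - m < P * m' + b - (P * m + a) := by
              have : 2 * (m' - m - 1) ≤ P * (m' - m - 1) := by nlinarith
              nlinarith
            refine ih (m' - m).toNat (by omega) _ hCF m m' (Int.toNat_of_nonneg (by omega)).symm h
              ⟨hagr.symm, hca⟩ ⟨fun _ _ _ => rfl, hj⟩ ?_
            intro k hk hk' hkC
            have h1 : F (U k) b ∈ B := hkC.2
            rw [← hU k b (by omega) (by omega)] at h1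
            have h2 : P * (m + 1) ≤ P * k := by nlinarith
            have h3 : P * (k + 1) ≤ P * m' := by nlinarith
            exact hcons (P * k + b) (by omega) (by nlinarith) h1
        have := lift_pal hB hU h hpal hagr hb0 (by omega)
        have e : P * (m + 1) - b = P * m + a + 1 := by rw [hPm']; omega
        rw [e] at this; exact this

lemma coarse {m n l' ρ : ℤ} (hl : 0 ≤ l') (h0 : 1 ≤ ρ) (h1 : ρ ≤ P)
    (hs : Same U U (P * m - ρ) (P * n - ρ) (P * l' + 2 * ρ)) :
    Agr F (U (m - 1)) (U (n - 1)) ρ ∧ Same U U m n l' ∧ Agr F (U (m + l')) (U (n + l')) ρ := by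
  have hP := hB.hP
  have hPl : 0 ≤ P * l' := by positivity
  refine ⟨?_, ?_, ?_⟩
  · intro t ht ht'
    have e := hs (ρ - 1 - t) (by omega) (by omega)
    have e1 := hU (m - 1) (P - 1 - t) (by omega) (by omega)
    have e2 := hU (n - 1) (P - 1 - t) (by omega) (by omega)
    rw [hB.pal _ t (by omega) (by omega)] at e1 e2
    rw [← e1, ← e2, show P * (m - 1) + (P - 1 - t) = P * m - ρ + (ρ - 1 - t) by ring,
      show P * (n - 1) + (P - 1 - t) = P * n - ρ + (ρ - 1 - t) by ring]
    exact e
  · intro s hs0 hs1
    refine hB.inj _ _ ?_
    intro t ht ht'
    have hle : P * s + P ≤ P * l' := by nlinarith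
    have hPs : 0 ≤ P * s := by positivity
    have e := hs (ρ + P * s + t) (by omega) (by omega)
    rw [← hU (m + s) t (by omega) (by omega), ← hU (n + s) t (by omega) (by omega),
      show P * (m + s) + t = P * m - ρ + (ρ + P * s + t) by ring,
      show P * (n + s) + t = P * n - ρ + (ρ + P * s + t) by ring]
    exact e
  · intro t ht ht'
    have e := hs (ρ + P * l' + t) (by omega) (by omega)
    rw [← hU (m + l') t (by omega) (by omega), ← hU (n + l') t (by omega) (by omega),
      show P * (m + l') + t = P * m - ρ + (ρ + P * l' + t) by ring,
      show P * (n + l') + t = P * n - ρ + (ρ + P * l' + t) by ring]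
    exact e

lemma fine {m n l' ρ : ℤ} (hl : 0 ≤ l') (h0 : 1 ≤ ρ) (h1 : ρ ≤ P)
    (ha : Agr F (U (m - 1)) (U (n - 1)) ρ) (hs : Same U U m n l') (hb : Agr F (U (m + l')) (U (n + l')) ρ) :
    Same U U (P * m - ρ) (P * n - ρ) (P * l' + 2 * ρ) := by
  have hP := hB.hP
  intro t ht ht'
  rcases lt_or_ge t ρ with h | h
  · have e1 := hU (m - 1) (P - ρ + t) (by omega) (by omega)
    have e2 := hU (n - 1) (P - ρ + t) (by omega) (by omega)
    rw [show P * m - ρ + t = P * (m - 1) + (P - ρ + t) by ring,
      show P * n - ρ + t = P * (n - 1) + (P - ρ + t) by ring, e1, e2,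
      show P - ρ + t = P - 1 - (ρ - 1 - t) by ring, hB.pal _ (ρ - 1 - t) (by omega) (by omega),
      hB.pal _ (ρ - 1 - t) (by omega) (by omega)]
    exact ha _ (by omega) (by omega)
  · obtain ⟨s, r, hr0, hrP, hsr⟩ := split hP (t - ρ)
    have hs0 : 0 ≤ s := by
      by_contra hcon
      push Not at hcon
      nlinarith
    rcases lt_or_ge s l' with h' | h'
    · rw [show P * m - ρ + t = P * (m + s) + r by linarith, show P * n - ρ + t = P * (n + s) + r by linarith,
        hU _ r (by omega) (by omega), hU _ r (by omega) (by omega), hs s hs0 h']
    · have hsl : s = l' ∨ (s = l' + 1 ∧ ρ = P + 1) ∨ s = l' := by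
        left
        by_contra hne
        have : l' + 1 ≤ s := by omega
        have : P * (l' + 1) ≤ P * s := by nlinarith
        nlinarith
      have hsl' : s = l' := by
        rcases hsl with h | ⟨h, h''⟩ | h
        · exact h
        · omega
        · exact h
      subst hsl'
      rw [show P * m - ρ + t = P * (m + s) + r by linarith, show P * n - ρ + t = P * (n + s) + r by linarith,
        hU _ r (by omega) (by omega), hU _ r (by omega) (by omega)]
      exact hb r hr0 (by omega)

/-- **Complete returns to palindromic patterns.** -/
theorem cr (hC : Cert F P Fam L) :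
    ∀ l : ℕ, ∀ B ∈ Fam, ∀ i j : ℤ, i < j → Pal U i (i + l) → Same U U i j l → U (i - 1) ∈ B → U (i + l) ∈ B →
      U (j - 1) ∈ B → U (j + l) ∈ B →
      (∀ k, i < k → k < j → U (k - 1) ∈ B → U (k + l) ∈ B → ¬ Same U U i k l) → Pal U i (j + l) := by
  have hP := hB.hP
  intro l
  induction l using Nat.strong_induction_on with
  | _ l ih =>
    intro B hBF i j hij hpal hsame hi1 hi2 hj1 hj2 hcons
    obtain ⟨m, a, ha0, haP, rfl⟩ := split hP i
    have hPm1 : P * (m + 1) = P * m + P := by ring
    by_cases hin : P * (m + 1) < P * m + a + l
    · -- a boundary inside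
      set ρ := P - a with hρ
      have hρ0 : 1 ≤ ρ := by omega
      have hρ1 : ρ ≤ P := by omega
      have hiρ : P * m + a = P * (m + 1) - ρ := by omega
      rw [hiρ] at hij hpal hsame hi1 hi2 hcons hin ⊢
      set M := m + 1 with hM
      have hlρ : ρ < l := by omega
      -- the last boundary
      have o1 : U (P * M - ρ + l - ρ) = o := by
        rw [hpal (P * M - ρ + l - ρ) (P * M - 1) (by omega) (by omega) (by omega)]
        exact U_bd' hB hU _
      have o2 : U (P * M - ρ + l - ρ - 1) = o := by
        rw [hpal (P * M - ρ + l - ρ - 1) (P * M) (by omega) (by omega) (by omega)]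
        exact U_bd hB hU _
      obtain ⟨M2, hM2⟩ := U_oo hB hU o2 o1
      have hMM : M ≤ M2 := by
        by_contra hcon
        push Not at hcon
        have : P * (M2 + 1) ≤ P * M := by nlinarith
        nlinarith
      obtain ⟨l', hl', rfl⟩ : ∃ l' : ℤ, 0 ≤ l' ∧ M2 = M + l' := ⟨M2 - M, by omega, by ring⟩
      have hPl : 0 ≤ P * l' := by positivity
      have hleq : (l : ℤ) = P * l' + 2 * ρ := by linarith
      -- the second occurrence
      have q1 : U (j + ρ - 1) = o := by
        have := hsame (ρ - 1) (by omega) (by omega)
        rw [show P * M - ρ + (ρ - 1) = P * M - 1 by ring, U_bd' hB hU] at this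
        rw [show j + ρ - 1 = j + (ρ - 1) by ring]; exact this.symm
      have q2 : U (j + ρ) = o := by
        have := hsame ρ (by omega) (by omega)
        rw [show P * M - ρ + ρ = P * M by ring, U_bd hB hU] at this
        exact this.symm
      obtain ⟨N, hN⟩ := U_oo hB hU q1 q2
      obtain rfl : j = P * N - ρ := by omega
      have hMN : M < N := by
        by_contra hcon
        push Not at hcon
        nlinarith
      rw [hleq] at hpal hsame hi2 hj2 hcons ⊢
      obtain ⟨g1, g2, g3⟩ := coarse hB hU hl' hρ0 hρ1 hsame
      have hPM : P * (2 * M + l') = P * M + P * (M + l') := by ring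
      have hagr : Agr F (U (M - 1)) (U (M + l')) ρ := by
        intro t ht ht'
        have e1 := hU (M - 1) (P - 1 - t) (by omega) (by omega)
        have e2 := hU (M + l') t (by omega) (by omega)
        rw [hB.pal _ t (by omega) (by omega)] at e1
        rw [← e1, ← e2]
        refine hpal _ _ ?_ ?_ ?_
        · have : P * (M - 1) = P * M - P := by ring
          omega
        · have : P * (M + l') = P * M + P * l' := by ring
          omega
        · ring
      have hpalc : Pal U M (M + l') := by
        intro x y hx hy hxy
        refine hB.inj _ _ ?_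
        intro t ht ht'
        rw [← hU x t (by omega) (by omega), ← hB.pal (U y) t (by omega) (by omega),
          ← hU y (P - 1 - t) (by omega) (by omega)]
        refine hpal _ _ ?_ ?_ ?_
        · have : P * M ≤ P * x := by nlinarith
          omega
        · have : P * M ≤ P * y := by nlinarith
          omega
        · have : P * (x + y + 1) = P * (M + (M + l')) := by rw [hxy]
          linarith
      -- contexts
      have ctx1 : ∀ k : ℤ, U (P * k - ρ - 1) = F (U (k - 1)) ρ := by
        intro k
        rw [show P * k - ρ - 1 = P * (k - 1) + (P - 1 - ρ) by ring, hU _ _ (by omega) (by omega),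
          hB.pal _ ρ (by omega) (by omega)]
      have ctx2 : ∀ k : ℤ, U (P * k - ρ + (P * l' + 2 * ρ)) = F (U (k + l')) ρ := by
        intro k
        rw [show P * k - ρ + (P * l' + 2 * ρ) = P * (k + l') + ρ by ring, hU _ _ (by omega) (by omega)]
      rw [ctx1] at hi1 hj1
      rw [ctx2] at hi2 hj2
      have hCF : Nx F (U (M - 1)) ρ B ∈ Fam := hC.closed B hBF _ ρ (by omega) (by omega) hi1
      have hl'l : l'.toNat < l := by
        have : l' ≤ P * l' := by nlinarith
        omega
      have hcast : ((l'.toNat : ℕ) : ℤ) = l' := Int.toNat_of_nonneg hl'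
      have key := ih l'.toNat hl'l _ hCF M N hMN (by rw [hcast]; exact hpalc) (by rw [hcast]; exact g2)
        ⟨fun _ _ _ => rfl, hi1⟩ (by rw [hcast]; exact ⟨hagr, hi2⟩) ⟨g1, hj1⟩
        (by rw [hcast]; exact ⟨hagr.trans g3, hj2⟩)
        (by
          rw [hcast]
          intro k hk hk' hk1 hk2 hks
          have h2 : P * (M + 1) ≤ P * k := by nlinarith
          have h3 : P * (k + 1) ≤ P * N := by nlinarith
          refine hcons (P * k - ρ) (by nlinarith) (by nlinarith) ?_ ?_ ?_
          · rw [ctx1]; exact hk1.2
          · rw [ctx2]; exact hk2.2
          · exact fine hB hU hl' hρ0 hρ1 hk1.1 hks (hagr.symm.trans hk2.1))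
      rw [hcast] at key
      have e := lift_pal hB hU (m := M - 1) (m' := N + l') (ρ := ρ) (by omega)
        (by rw [show M - 1 + 1 = M by ring]; exact key) (hagr.trans g3) (by omega) hρ1
      rw [show P * (M - 1 + 1) - ρ = P * M - ρ by ring,
        show P * (N + l') + ρ = P * N - ρ + (P * l' + 2 * ρ) by ring] at e
      exact e
    · push Not at hin
      have hal : a + l ≤ P := by omega
      -- the block of the second occurrence
      obtain ⟨n, e, he0, heP, hje⟩ : ∃ n e : ℤ, 1 ≤ e ∧ e ≤ P ∧ j + l = P * n + e := by
        obtain ⟨n, r, h0, h1, h2⟩ := split hP (j + l - 1)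
        exact ⟨n, r + 1, by omega, by omega, by omega⟩
      have hbn : 0 ≤ e - l := by
        by_contra hcon
        push Not at hcon
        -- P n strictly inside (j, j + l)
        have s1 := hsame (P * n - j - 1) (by omega) (by omega)
        have s2 := hsame (P * n - j) (by omega) (by omega)
        rw [show j + (P * n - j - 1) = P * n - 1 by ring, U_bd' hB hU] at s1
        rw [show j + (P * n - j) = P * n by ring, U_bd hB hU] at s2
        rw [show P * m + a + (P * n - j - 1) = P * m + a + (P * n - j) - 1 by ring] at s1
        obtain ⟨q, hq⟩ := U_oo hB hU s1 s2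
        have : m < q := by
          by_contra hcon2
          push Not at hcon2
          have : P * q ≤ P * m := by nlinarith
          omega
        have : P * (m + 1) ≤ P * q := by nlinarith
        omega
      obtain rfl : j = P * n + (e - l) := by omega
      have hmn : m ≤ n := by
        by_contra hcon
        push Not at hcon
        have : P * (n + 1) ≤ P * m := by nlinarith
        have : P * (n + 1) = P * n + P := by ring
        omega
      -- patterns in the blocks
      have cI : ∀ t, -1 ≤ t → t ≤ P → U (P * m + t) = F (U m) t := hU m
      have cJ : ∀ t, -1 ≤ t → t ≤ P → U (P * n + t) = F (U n) t := hU n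
      have hc1 : F (U m) (a - 1) ∈ B := by
        rw [← cI _ (by omega) (by omega), show P * m + (a - 1) = P * m + a - 1 by ring]; exact hi1
      have hc2 : F (U m) (a + l) ∈ B := by
        rw [← cI _ (by omega) (by omega), ← add_assoc]; exact hi2
      have hd1 : F (U n) (e - l - 1) ∈ B := by
        rw [← cJ _ (by omega) (by omega), show P * n + (e - l - 1) = P * n + (e - l) - 1 by ring]; exact hj1
      have hd2 : F (U n) e ∈ B := by
        rw [← cJ _ (by omega) (by omega), show P * n + e = P * n + (e - l) + l by ring]; exact hj2
      have palI : Pal (F (U m)) a (a + l) := by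
        intro x y hx hy hxy
        rw [← cI _ (by omega) (by omega), ← cI _ (by omega) (by omega)]
        exact hpal _ _ (by omega) (by omega) (by omega)
      have sameJ : Same (F (U m)) (F (U n)) a (e - l) l := by
        intro t ht ht'
        have := hsame t ht ht'
        rw [← cI _ (by omega) (by omega), ← cJ _ (by omega) (by omega), ← add_assoc, ← add_assoc]
        exact this
      have palJ : Pal (F (U n)) (e - l) e := by
        intro x y hx hy hxy
        have h1 := sameJ (x - (e - l)) (by omega) (by omega)
        have h2 := sameJ (y - (e - l)) (by omega) (by omega)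
        rw [show e - l + (x - (e - l)) = x by ring] at h1
        rw [show e - l + (y - (e - l)) = y by ring] at h2
        rw [← h1, ← h2]
        exact palI _ _ (by omega) (by omega) (by omega)
      have patI : Pat (F (U m)) B (a + l) l :=
        ⟨by omega, by omega, by rw [show a + (l : ℤ) - l - 1 = a - 1 by ring]; exact hc1, hc2,
          by rw [show a + (l : ℤ) - l = a by ring]; exact palI⟩
      have patJ : Pat (F (U n)) B e l := ⟨by omega, by omega, hd1, hd2, palJ⟩
      rcases eq_or_lt_of_le hmn with h | h
      · subst h
        have key := cr_block hC hBF (U m) l e.toNat e (Int.toNat_of_nonneg (by omega)).symm heP patJ (a + l)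
          (by omega) patI
          (by
            intro t ht ht'
            rw [show a + (l : ℤ) - l + t = a + t by ring]
            exact (sameJ t ht ht').symm)
          (by
            intro k hk hk' hpk hsk
            have hk1 := hpk.2.1
            refine hcons (P * m + (k - l)) (by omega) (by omega) ?_ ?_ ?_
            · rw [show P * m + (k - l) - 1 = P * m + (k - l - 1) by ring, cI _ (by omega) (by omega)]
              exact hpk.2.2.1
            · rw [show P * m + (k - l) + l = P * m + k by ring, cI _ (by omega) (by omega)]
              exact hpk.2.2.2.1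
            · intro t ht ht'
              have h1 := hsk t ht ht'
              have h2 := sameJ t ht ht'
              rw [add_assoc, add_assoc, cI _ (by omega) (by omega), cI _ (by omega) (by omega), h2, h1])
        rw [show a + (l : ℤ) - l = a by ring] at key
        intro x y hx hy hxy
        have e1 := cI (x - P * m) (by omega) (by omega)
        have e2 := cI (y - P * m) (by omega) (by omega)
        rw [show P * m + (x - P * m) = x by ring] at e1
        rw [show P * m + (y - P * m) = y by ring] at e2
        rw [e1, e2]
        exact key _ _ (by omega) (by omega) (by omega)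
      · have hPmn : P * (m + 1) ≤ P * n := by nlinarith
        have pc := hB.pal (U m)
        have mirI : ∀ t, -1 ≤ t → t ≤ P → F (U m) t = F (U m) (P - 1 - t) := fun t h1 h2 => (pc t h1 h2).symm
        have patC : Pat (F (U m)) B (P - a) l := by
          refine ⟨by omega, by omega, ?_, ?_, ?_⟩
          · rw [mirI _ (by omega) (by omega), show P - 1 - (P - a - l - 1) = a + l by ring]; exact hc2
          · rw [mirI _ (by omega) (by omega), show P - 1 - (P - a) = a - 1 by ring]; exact hc1
          · intro x y hx hy hxy
            rw [mirI x (by omega) (by omega), mirI y (by omega) (by omega)]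
            exact palI _ _ (by omega) (by omega) (by omega)
        have sameC : Same (F (U m)) (F (U n)) (P - a - l) (e - l) l := by
          intro t ht ht'
          rw [mirI _ (by omega) (by omega), show P - 1 - (P - a - l + t) = a + (l - 1 - t) by ring,
            palI (a + (l - 1 - t)) (a + t) (by omega) (by omega) (by omega)]
          exact sameJ t ht ht'
        have cross := cross_pat hC hBF (c := U m) (d := U n) (r := P - a) (s := e) (l := l) (by omega) heP patC patJ
          sameC
          (by
            intro r' hr' hpr hsr
            have hr1 := hpr.2.1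
            have hr0 := hpr.1
            refine hcons (P * m + (P - r')) (by omega) (by omega) ?_ ?_ ?_
            · rw [show P * m + (P - r') - 1 = P * m + (P - 1 - r') by ring, cI _ (by omega) (by omega),
                pc r' (by omega) (by omega)]
              exact hpr.2.2.2.1
            · rw [show P * m + (P - r') + l = P * m + (P - r' + l) by ring, cI _ (by omega) (by omega),
                mirI _ (by omega) (by omega), show P - 1 - (P - r' + l) = r' - l - 1 by ring]
              exact hpr.2.2.1
            · intro t ht ht'
              have h1 := hsr (l - 1 - t) (by omega) (by omega)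
              rw [show P * m + (P - r') + t = P * m + (P - r' + t) by ring, add_assoc, cI _ (by omega) (by omega),
                cI _ (by omega) (by omega), mirI (P - r' + t) (by omega) (by omega),
                show P - 1 - (P - r' + t) = r' - l + (l - 1 - t) by ring, ← h1,
                mirI (P - a - l + (l - 1 - t)) (by omega) (by omega)]
              congr 1; ring)
          (by
            intro r' hr' hpr hsr
            have hr1 := hpr.2.1
            have hr0 := hpr.1
            refine hcons (P * n + (r' - l)) (by omega) (by omega) ?_ ?_ ?_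
            · rw [show P * n + (r' - l) - 1 = P * n + (r' - l - 1) by ring, cJ _ (by omega) (by omega)]
              exact hpr.2.2.1
            · rw [show P * n + (r' - l) + l = P * n + r' by ring, cJ _ (by omega) (by omega)]
              exact hpr.2.2.2.1
            · intro t ht ht'
              have h1 := hsr t ht ht'
              have h2 := sameJ t ht ht'
              rw [add_assoc, add_assoc, cI _ (by omega) (by omega), cJ _ (by omega) (by omega), h2, h1])
        obtain ⟨hae, hagr⟩ := cross
        rw [hae] at hagr
        have hce : F (U m) e ∈ B := by rw [← hae]; exact patC.2.2.2.1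
        have hCF : Nx F (U n) e B ∈ Fam := hC.closed B hBF (U n) e (by omega) heP hd2
        have hret := ret hB hU hC (n - m).toNat _ hCF m n (Int.toNat_of_nonneg (by omega)).symm h
          ⟨hagr.symm, hce⟩ ⟨fun _ _ _ => rfl, hd2⟩
          (by
            intro k hk hk' hkC
            have h2 : P * (m + 1) ≤ P * k := by nlinarith
            have h3 : P * (k + 1) ≤ P * n := by nlinarith
            have h4 : P * (k + 1) = P * k + P := by ring
            have hkA : ∀ t, 0 ≤ t → t < e → F (U n) t = F (U k) t := hkC.1
            refine hcons (P * k + (e - l)) (by omega) (by omega) ?_ ?_ ?_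
            · rw [show P * k + (e - l) - 1 = P * k + (e - l - 1) by ring, hU k _ (by omega) (by omega)]
              rcases eq_or_lt_of_le hbn with h' | h'
              · rw [← h', show (0 : ℤ) - 1 = -1 by ring, hB.left]
                rw [← h', show (0 : ℤ) - 1 = -1 by ring, hB.left] at hd1
                exact hd1
              · rw [← hkA _ (by omega) (by omega)]; exact hd1
            · rw [show P * k + (e - l) + l = P * k + e by ring, hU k _ (by omega) (by omega)]
              exact hkC.2
            · intro t ht ht'
              have h2 := sameJ t ht ht'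
              rw [add_assoc, add_assoc, cI _ (by omega) (by omega), hU k _ (by omega) (by omega), h2]
              exact hkA _ (by omega) (by omega))
        have hl := lift_pal hB hU h hret hagr (by omega) heP
        rw [show P * (m + 1) - e = P * m + a by omega, show P * n + e = P * n + (e - l) + l by ring] at hl
        exact hl

end fix

end Pool.Agent.E25
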