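import Pool.Agent.Rich3.Core
import Pool.Agent.E25.RichFix

/-!
From complete returns to richness (number of palindromic factors).
-/

set_option autoImplicit false

namespace Pool.Agent.E25

open Pool.Agent.Rich3

section count

variable {α : Type*}

lemma infix_of_proper {v p t : List α} {x : α} {s : List α} (h : s ++ p ++ t = v ++ [x]) (ht : t ≠ []) :
    p <:+: v := by
  rcases List.eq_nil_or_concat t with h0 | ⟨t', y, h1⟩
  · exact absurd h0 ht
  · subst h1
    have h2 : (s ++ p ++ t') ++ [y] = v ++ [x] := by simpa [List.append_assoc] using h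
    exact ⟨s, t', (List.append_inj' h2 rfl).1⟩

lemma shorter_infix {v p q : List α} {x : α} (hp : p.reverse = p) (hq : q.reverse = q) (hpq : p <:+ q)
    (hlt : p.length < q.length) (hqs : q <:+ v ++ [x]) : p <:+: v := by
  have hpre : p <+: q := by
    have h := List.reverse_prefix.mpr hpq
    rwa [hp, hq] at h
  obtain ⟨t, ht⟩ := hpre
  obtain ⟨s, hs⟩ := hqs
  refine infix_of_proper (s := s) (t := t) (x := x) ?_ ?_
  · rw [List.append_assoc, ht, hs]
  · rintro rfl
    simp at ht
    rw [ht] at hlt
    exact lt_irrefl _ hlt

/-- A new palindromic suffix raises the number of palindromic factors by one. -/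
lemma rich_step {v q : List α} {x : α} (hv : RichWord v) (hq : q <:+ v ++ [x]) (hqp : q.reverse = q)
    (hnew : ¬ q <:+: v) : RichWord (v ++ [x]) := by
  have hset : palFactors (v ++ [x]) = insert q (palFactors v) := by
    ext p
    simp only [palFactors, Set.mem_insert_iff, Set.mem_ofPred_eq]
    constructor
    · rintro ⟨⟨s, t, hst⟩, hp⟩
      rcases List.eq_nil_or_concat t with h0 | ⟨t', y, h1⟩
      · subst h0
        have hps : p <:+ v ++ [x] := ⟨s, by simpa using hst⟩
        rcases lt_trichotomy p.length q.length with h | h | h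
        · right
          exact ⟨shorter_infix hp hqp (List.suffix_of_suffix_length_le hps hq h.le) h hq, hp⟩
        · left
          exact (List.suffix_of_suffix_length_le hps hq h.le).eq_of_length h
        · exact absurd (shorter_infix hqp hp (List.suffix_of_suffix_length_le hq hps h.le) h hps) hnew
      · right
        refine ⟨infix_of_proper (s := s) (t := t) hst ?_, hp⟩
        rw [h1]; simp
    · rintro (rfl | ⟨⟨s, t, hst⟩, hp⟩)
      · exact ⟨hq.isInfix, hqp⟩
      · exact ⟨⟨s, t ++ [x], by rw [← hst]; simp⟩, hp⟩
  have hnot : q ∉ palFactors v := fun h => hnew h.1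
  unfold RichWord at hv ⊢
  rw [hset, Set.ncard_insert_of_notMem hnot (palFactors_finite v), hv]
  simp

/-- The factor of length `n` at position `i` of a bi-infinite word. -/
def fac (U : ℤ → α) (i : ℤ) (n : ℕ) : List α := (List.range n).map (fun k : ℕ => U (i + (k : ℤ)))

lemma fac_length (U : ℤ → α) (i : ℤ) (n : ℕ) : (fac U i n).length = n := by simp [fac]

lemma fac_getElem (U : ℤ → α) (i : ℤ) (n k : ℕ) (h : k < (fac U i n).length) : (fac U i n)[k] = U (i + k) := by
  simp [fac]

lemma fac_succ (U : ℤ → α) (i : ℤ) (n : ℕ) : fac U i (n + 1) = fac U i n ++ [U (i + n)] := by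
  simp [fac, List.range_succ]

lemma fac_add (U : ℤ → α) (i : ℤ) (m n : ℕ) : fac U i (m + n) = fac U i m ++ fac U (i + m) n := by
  induction n with
  | zero => simp [fac]
  | succ n ih =>
    rw [← add_assoc, fac_succ, ih, fac_succ, List.append_assoc]
    push_cast
    rw [add_assoc]

lemma fac_reverse {U : ℤ → α} {i : ℤ} {n : ℕ} (h : Pal U i (i + n)) : (fac U i n).reverse = fac U i n := by
  refine List.ext_getElem (by simp) ?_
  intro k h1 h2
  rw [fac_length] at h2
  rw [List.getElem_reverse, fac_getElem, fac_getElem]
  refine h _ _ ?_ ?_ ?_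
  · rw [fac_length]; omega
  · omega
  · rw [fac_length]; omega

lemma fac_of_infix {U : ℤ → α} {i : ℤ} {n : ℕ} {q s t : List α} (h : s ++ q ++ t = fac U i n) :
    q = fac U (i + s.length) q.length ∧ s.length + q.length ≤ n := by
  have hlen : s.length + q.length + t.length = n := by
    have := congrArg List.length h
    rw [List.length_append, List.length_append, fac_length] at this
    exact this
  refine ⟨?_, by omega⟩
  refine List.ext_getElem (by simp [fac_length]) ?_
  intro k h1 h2
  rw [fac_getElem]
  have e : (s ++ q ++ t)[s.length + k]'(by simp; omega) = q[k] := by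
    rw [List.getElem_append_left (by simp; omega), List.getElem_append_right (by omega)]
    simp
  rw [← e]
  simp only [h]
  rw [fac_getElem]
  push_cast
  rw [add_assoc]

lemma same_of_fac {U : ℤ → α} {i j : ℤ} {l : ℕ} (h : fac U i l = fac U j l) : Same U U i j l := by
  intro t ht ht'
  obtain ⟨k, rfl⟩ := Int.eq_ofNat_of_zero_le ht
  have hk : k < l := by exact_mod_cast ht'
  have e1 := fac_getElem U i l k (by rw [fac_length]; exact hk)
  have e2 := fac_getElem U j l k (by rw [fac_length]; exact hk)
  rw [← e1, ← e2]
  simp only [h]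

/-- Complete returns to palindromes are palindromes: the word is rich. -/
theorem rich_of_returns {U : ℤ → α}
    (hret : ∀ l : ℕ, ∀ i j : ℤ, i < j → Pal U i (i + l) → Same U U i j l →
      (∀ k, i < k → k < j → ¬ Same U U i k l) → Pal U i (j + l)) (i : ℤ) (n : ℕ) : RichWord (fac U i n) := by
  induction n with
  | zero =>
    have : palFactors (fac U i 0) = {[]} := by
      ext p
      simp only [palFactors, fac, List.range_zero, List.map_nil, Set.mem_ofPred_eq, Set.mem_singleton_iff,
        List.infix_nil]
      constructor
      · exact fun h => h.1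
      · rintro rfl; simp
    unfold RichWord
    rw [this]; simp [fac]
  | succ n ih =>
    rw [fac_succ]
    classical
    -- the longest palindromic suffix
    have hex : ∃ s : ℕ, s ≤ n ∧ Pal U (i + s) (i + n + 1) := by
      refine ⟨n, le_rfl, ?_⟩
      intro x y hx hy hxy
      have : x = y := by omega
      rw [this]
    set s := Nat.find hex with hs
    obtain ⟨hs1, hs2⟩ := Nat.find_spec hex
    rw [← hs] at hs1 hs2
    have hmin : ∀ m : ℕ, m < s → ¬ (m ≤ n ∧ Pal U (i + m) (i + n + 1)) := fun m hm => Nat.find_min hex hm
    obtain ⟨l, hl⟩ : ∃ l : ℕ, n + 1 = s + l := ⟨n + 1 - s, by omega⟩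
    have hl' : (n : ℤ) + 1 = s + l := by exact_mod_cast hl
    have hl1 : 1 ≤ l := by omega
    have hend : i + n + 1 = i + s + l := by omega
    rw [hend] at hs2
    refine rich_step ih (q := fac U (i + s) l) ?_ (fac_reverse hs2) ?_
    · refine ⟨fac U i s, ?_⟩
      rw [← fac_add, ← hl, fac_succ]
    · rintro ⟨p, t, hpt⟩
      obtain ⟨h1, h2⟩ := fac_of_infix hpt
      rw [fac_length] at h1 h2
      -- the last occurrence before s
      have hbd : ∃ m : ℕ, m ≤ n - l ∧ Same U U (i + s) (i + m) l := ⟨p.length, by omega, same_of_fac h1⟩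
      obtain ⟨m0, hm0, hm0'⟩ := hbd
      set k := Nat.findGreatest (fun m => Same U U (i + s) (i + m) l) (n - l) with hk
      have hk1 : Same U U (i + s) (i + k) l := by
        have := Nat.findGreatest_spec (P := fun m : ℕ => Same U U (i + s) (i + m) l) hm0 hm0'
        exact this
      have hk2 : k ≤ n - l := Nat.findGreatest_le _
      have hk3 : ∀ m : ℕ, k < m → m ≤ n - l → ¬ Same U U (i + s) (i + m) l :=
        fun m hm hm' => Nat.findGreatest_is_greatest hm hm'
      have hks : k < s := by omega
      have hpalk : Pal U (i + k) (i + k + l) := by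
        intro x y hx hy hxy
        have e1 := hk1 (x - (i + k)) (by omega) (by omega)
        have e2 := hk1 (y - (i + k)) (by omega) (by omega)
        rw [show i + (k : ℤ) + (x - (i + k)) = x by ring] at e1
        rw [show i + (k : ℤ) + (y - (i + k)) = y by ring] at e2
        rw [← e1, ← e2]
        exact hs2 _ _ (by omega) (by omega) (by omega)
      have key := hret l (i + k) (i + s) (by omega) hpalk
        (fun t ht ht' => (hk1 t ht ht').symm)
        (by
          intro m hm hm' hsm
          obtain ⟨m', rfl⟩ : ∃ m' : ℕ, m = i + m' := ⟨(m - i).toNat, by omega⟩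
          refine hk3 m' (by omega) (by omega) ?_
          intro t ht ht'
          rw [hk1 t ht ht', hsm t ht ht'])
      exact hmin k hks ⟨by omega, by rw [hend]; exact key⟩

end count

/-- The one-sided restriction of a fixed point with a certificate is rich. -/
theorem richSeq {α : Type*} {F : α → ℤ → α} {P : ℤ} {o : α} {Fam : Set (Set α)} {L : Set α → α → ℤ → ℤ} {U : ℤ → α}
    (hB : Blk F P o) (hU : ∀ n r : ℤ, -1 ≤ r → r ≤ P → U (P * n + r) = F (U n) r) (hC : Cert F P Fam L)
    {u : ℕ → α} (hu : ∀ n : ℕ, u n = U n) : RichSeq u := by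
  have h := rich_of_returns (U := U) (fun l i j hij hp hs hk =>
    cr hB hU hC l Set.univ hC.univ i j hij hp hs trivial trivial trivial trivial
      (fun k h1 h2 _ _ => hk k h1 h2))
  intro i n
  have := h i n
  have e : factor u i n = fac U i n := by
    simp only [factor, fac]
    refine List.map_congr_left ?_
    intro k _
    rw [hu]; push_cast; rfl
  rw [e]; exact this

end Pool.Agent.E25
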