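import Mathlib.Tactic

/-!
Complete returns to palindromes in bi-infinite fixed points of uniform substitutions whose blocks are palindromes
with the marker `oo` exactly at the block boundaries.

`F c r` (`-1 ≤ r ≤ P`) is the block of the letter `c`, extended by the marker letter on both sides.
-/

set_option autoImplicit false

namespace Pool.Agent.E25

/-- The interval `[a, b)` of `u` is a palindrome. -/
def Pal {α : Type*} (u : ℤ → α) (a b : ℤ) : Prop :=
  ∀ x y : ℤ, a ≤ x → a ≤ y → x + y + 1 = a + b → u x = u y

/-- The words of length `l` at `i` and `j` are equal. -/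
def Same {α : Type*} (u v : ℤ → α) (i j l : ℤ) : Prop := ∀ t : ℤ, 0 ≤ t → t < l → u (i + t) = v (j + t)

/-- The prefixes of length `r` agree. -/
def Agr {α : Type*} (F : α → ℤ → α) (c d : α) (r : ℤ) : Prop := ∀ t : ℤ, 0 ≤ t → t < r → F c t = F d t

/-- The letters whose block has the prefix of length `r` of the block of `c`, followed by a letter of `B`. -/
def Nx {α : Type*} (F : α → ℤ → α) (c : α) (r : ℤ) (B : Set α) : Set α := {e | Agr F c e r ∧ F e r ∈ B}

/-- The word of length `l` that ends before `r` is a palindrome between two letters of `B`. -/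
def Pat {α : Type*} (g : ℤ → α) (B : Set α) (r l : ℤ) : Prop :=
  0 ≤ l ∧ l ≤ r ∧ g (r - l - 1) ∈ B ∧ g r ∈ B ∧ Pal g (r - l) r

/-- The data of a substitution of the type considered. -/
structure Blk {α : Type*} (F : α → ℤ → α) (P : ℤ) (o : α) : Prop where
  hP : 2 ≤ P
  pal : ∀ c r, -1 ≤ r → r ≤ P → F c (P - 1 - r) = F c r
  left : ∀ c, F c (-1) = o
  zero : ∀ c, F c 0 = o
  noo : ∀ c r, 0 < r → r < P → ¬ (F c (r - 1) = o ∧ F c r = o)
  inj : ∀ c d, Agr F c d P → c = d

/-- The certificate for the richness: `L B c r` is the length of the longest pattern. -/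
structure Cert {α : Type*} (F : α → ℤ → α) (P : ℤ) (Fam : Set (Set α)) (L : Set α → α → ℤ → ℤ) : Prop where
  univ : Set.univ ∈ Fam
  closed : ∀ B ∈ Fam, ∀ c r, 0 ≤ r → r ≤ P → F c r ∈ B → Nx F c r B ∈ Fam
  pat : ∀ B ∈ Fam, ∀ c r, 0 ≤ r → r ≤ P → F c r ∈ B →
    Pat (F c) B r (L B c r) ∨ ∀ t, -1 ≤ t → t < r → F c t ∉ B
  none : ∀ B ∈ Fam, ∀ c d r s, 0 ≤ r → r ≤ P → 0 ≤ s → s ≤ P → F c r ∈ B → F d s ∈ B →
    (∀ t, -1 ≤ t → t < r → F c t ∉ B) → (∀ t, -1 ≤ t → t < s → F d t ∉ B) → r = s ∧ Agr F c d r
  dist : ∀ B ∈ Fam, ∀ c d r s, 0 ≤ r → r ≤ P → 0 ≤ s → s ≤ P →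
    Pat (F c) B r (L B c r) → Pat (F d) B s (L B d s) → L B c r = L B d s →
    Same (F c) (F d) (r - L B c r) (s - L B c r) (L B c r) → r = s ∧ Agr F c d r

section basic

variable {α : Type*}

/-- A shorter pattern at the same end occurs earlier. -/
lemma reflect {g : ℤ → α} {B : Set α} {r l k : ℤ} (h : Pat g B r l) (h' : Pat g B r k) (hlt : k < l) :
    Pat g B (r - l + k) k ∧ Same g g (r - l) (r - k) k := by
  obtain ⟨h1, h2, h3, h4, h5⟩ := h
  obtain ⟨k1, k2, k3, k4, k5⟩ := h'
  have hs : Same g g (r - l) (r - k) k := by
    intro t ht ht'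
    rw [h5 (r - l + t) (r - 1 - t) (by omega) (by omega) (by omega)]
    exact k5 (r - 1 - t) (r - k + t) (by omega) (by omega) (by omega)
  refine ⟨⟨k1, by omega, ?_, ?_, ?_⟩, hs⟩
  · have : r - l + k - k - 1 = r - l - 1 := by ring
    rw [this]; exact h3
  · rw [h5 (r - l + k) (r - k - 1) (by omega) (by omega) (by omega)]; exact k3
  · intro x y hx hy hxy
    have e1 := hs (x - (r - l)) (by omega) (by omega)
    have e2 := hs (y - (r - l)) (by omega) (by omega)
    rw [show r - l + (x - (r - l)) = x by ring] at e1
    rw [show r - l + (y - (r - l)) = y by ring] at e2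
    rw [e1, e2]
    exact k5 _ _ (by omega) (by omega) (by omega)

end basic

section block

variable {α : Type*} {F : α → ℤ → α} {P : ℤ} {Fam : Set (Set α)} {L : Set α → α → ℤ → ℤ}

/-- The certified pattern is new at its node. -/
lemma new_pat (hC : Cert F P Fam L) {B : Set α} (hB : B ∈ Fam) (c : α) :
    ∀ n : ℕ, ∀ r : ℤ, r = n → r ≤ P → Pat (F c) B r (L B c r) →
      ∀ r' : ℤ, r' < r → Pat (F c) B r' (L B c r) →
        Same (F c) (F c) (r - L B c r) (r' - L B c r) (L B c r) → False := by
  intro n
  induction n using Nat.strong_induction_on with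
  | _ n ih =>
    intro r hr hrP hpat r' hr' hpat' hsame
    -- the first occurrence
    have hex : ∃ k : ℕ, (k : ℤ) < r ∧ Pat (F c) B k (L B c r) ∧
        Same (F c) (F c) (r - L B c r) (k - L B c r) (L B c r) := by
      refine ⟨r'.toNat, ?_⟩
      have : (r'.toNat : ℤ) = r' := Int.toNat_of_nonneg (by have := hpat'.1; have := hpat'.2.1; omega)
      rw [this]; exact ⟨hr', hpat', hsame⟩
    classical
    obtain ⟨hk1, hk2, hk3⟩ := Nat.find_spec hex
    set k := Nat.find hex with hkdef
    have hmin : ∀ m : ℕ, m < k → ¬ ((m : ℤ) < r ∧ Pat (F c) B m (L B c r) ∧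
        Same (F c) (F c) (r - L B c r) (m - L B c r) (L B c r)) := fun m hm => Nat.find_min hex hm
    have hkn : k < n := by omega
    have hl0 := hk2.1
    have hl1 := hk2.2.1
    rcases hC.pat B hB c k (by omega) (by omega) hk2.2.2.2.1 with hp | hnone
    · rcases lt_trichotomy (L B c k) (L B c r) with h | h | h
      · -- the certified pattern at k is shorter: it occurs earlier, contradiction to ih
        obtain ⟨e1, e2⟩ := reflect hk2 hp h
        have he1 := e1.2.1
        refine ih k hkn k rfl (by omega) hp (k - L B c r + L B c k) (by omega) e1 ?_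
        intro t ht ht'
        have := e2 t ht ht'
        rw [this.symm]
        congr 1; ring
      · have := hC.dist B hB c c r k (by omega) hrP (by omega) (by omega) hpat hp h.symm hk3
        omega
      · obtain ⟨e1, e2⟩ := reflect hp hk2 h
        have he0 := e1.1
        have he1 := e1.2.1
        have hcast : (((k : ℤ) - L B c k + L B c r).toNat : ℤ) = (k : ℤ) - L B c k + L B c r :=
          Int.toNat_of_nonneg (by omega)
        refine hmin ((k : ℤ) - L B c k + L B c r).toNat (by omega) ⟨by omega, ?_, ?_⟩
        · rw [hcast]; exact e1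
        · rw [hcast]
          intro t ht ht'
          rw [hk3 t ht ht', ← e2 t ht ht']
          congr 1; ring
    · exact hnone (k - L B c r - 1) (by omega) (by omega) hk2.2.2.1

/-- The first occurrence of a pattern in a block is certified. -/
lemma first_pat (hC : Cert F P Fam L) {B : Set α} (hB : B ∈ Fam) (c : α) {r l : ℤ} (hrP : r ≤ P)
    (hp : Pat (F c) B r l)
    (hfirst : ∀ r' : ℤ, r' < r → Pat (F c) B r' l → ¬ Same (F c) (F c) (r - l) (r' - l) l) :
    Pat (F c) B r (L B c r) ∧ L B c r = l := by
  have hl0 := hp.1
  have hl1 := hp.2.1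
  rcases hC.pat B hB c r (by omega) hrP hp.2.2.2.1 with h | h
  · refine ⟨h, ?_⟩
    rcases lt_trichotomy (L B c r) l with h' | h' | h'
    · exfalso
      obtain ⟨e1, e2⟩ := reflect hp h h'
      refine new_pat hC hB c r.toNat r (Int.toNat_of_nonneg (by omega)).symm hrP h (r - l + L B c r) (by omega)
        e1 ?_
      intro t ht ht'
      rw [← e2 t ht ht']
      congr 1; ring
    · exact h'
    · exfalso
      obtain ⟨e1, e2⟩ := reflect h hp h'
      refine hfirst (r - L B c r + l) (by omega) e1 ?_
      intro t ht ht'
      rw [← e2 t ht ht']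
      congr 1; ring
  · exact absurd hp.2.2.1 (h _ (by omega) (by omega))

/-- First occurrences in two blocks are at the same node. -/
lemma cross_pat (hC : Cert F P Fam L) {B : Set α} (hB : B ∈ Fam) {c d : α} {r s l : ℤ} (hrP : r ≤ P) (hsP : s ≤ P)
    (hp : Pat (F c) B r l) (hq : Pat (F d) B s l) (hsame : Same (F c) (F d) (r - l) (s - l) l)
    (hfc : ∀ r' : ℤ, r' < r → Pat (F c) B r' l → ¬ Same (F c) (F c) (r - l) (r' - l) l)
    (hfd : ∀ r' : ℤ, r' < s → Pat (F d) B r' l → ¬ Same (F d) (F d) (s - l) (r' - l) l) :
    r = s ∧ Agr F c d r := by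
  obtain ⟨h1, e1⟩ := first_pat hC hB c hrP hp hfc
  obtain ⟨h2, e2⟩ := first_pat hC hB d hsP hq hfd
  have hl0 := hp.1
  have hl1 := hp.2.1
  have hl2 := hq.2.1
  refine hC.dist B hB c d r s (by omega) hrP (by omega) hsP h1 h2 (by rw [e1, e2]) ?_
  rw [e1]; exact hsame

/-- Complete returns inside a block. -/
lemma cr_block (hC : Cert F P Fam L) {B : Set α} (hB : B ∈ Fam) (c : α) (l : ℤ) :
    ∀ n : ℕ, ∀ r : ℤ, r = n → r ≤ P → Pat (F c) B r l →
      ∀ r' : ℤ, r' < r → Pat (F c) B r' l → Same (F c) (F c) (r - l) (r' - l) l →
        (∀ k, r' < k → k < r → Pat (F c) B k l → ¬ Same (F c) (F c) (r - l) (k - l) l) →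
        Pal (F c) (r' - l) r := by
  intro n
  induction n using Nat.strong_induction_on with
  | _ n ih =>
    intro r hr hrP hp r' hr' hp' hsame hcons
    have hl0 := hp.1
    have hl1 := hp.2.1
    have hl1' := hp'.2.1
    rcases hC.pat B hB c r (by omega) hrP hp.2.2.2.1 with h | h
    · have hL0 := h.1
      have hL1 := h.2.1
      have hgt : l < L B c r := by
        by_contra hle
        push Not at hle
        rcases lt_or_eq_of_le hle with h' | h'
        · obtain ⟨e1, e2⟩ := reflect hp h h'
          refine new_pat hC hB c r.toNat r (Int.toNat_of_nonneg (by omega)).symm hrP h (r - l + L B c r) (by omega)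
            e1 ?_
          intro t ht ht'
          rw [← e2 t ht ht']
          congr 1; ring
        · refine new_pat hC hB c r.toNat r (Int.toNat_of_nonneg (by omega)).symm hrP h r' (by omega) ?_ ?_
          · rw [h']; exact hp'
          · rw [h']; exact hsame
      obtain ⟨e1, e2⟩ := reflect h hp hgt
      obtain ⟨-, -, w3, -, w5⟩ := h
      -- r0 = r - L + l is an occurrence
      have hsame0 : Same (F c) (F c) (r - l) (r - L B c r + l - l) l := by
        intro t ht ht'
        rw [← e2 t ht ht']
        congr 1; ring
      have hr0 : r - L B c r + l ≤ r' := by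
        by_contra hlt
        push Not at hlt
        exact hcons _ hlt (by omega) e1 hsame0
      rcases lt_or_eq_of_le hr0 with hlt | heq
      · -- mirror images
        set s2 := r - L B c r with hs2
        -- mirror of an occurrence with end e in (s2 + l, r) : end s2 + r - e + l
        have mir : ∀ e : ℤ, s2 + l < e → e < r → Pat (F c) B e l → Same (F c) (F c) (r - l) (e - l) l →
            Pat (F c) B (s2 + r - e + l) l ∧ Same (F c) (F c) (r - l) (s2 + r - e + l - l) l := by
          intro e he he' hpe hse
          obtain ⟨g1, g2, g3, g4, g5⟩ := hpe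
          have hs : Same (F c) (F c) (r - l) (s2 + r - e + l - l) l := by
            intro t ht ht'
            -- letter t of W is also letter l-1-t
            have a1 : F c (r - l + t) = F c (r - 1 - t) := hp.2.2.2.2 _ _ (by omega) (by omega) (by omega)
            have a2 : F c (r - 1 - t) = F c (e - 1 - t) := by
              have := hse (l - 1 - t) (by omega) (by omega)
              rw [show r - l + (l - 1 - t) = r - 1 - t by ring, show e - l + (l - 1 - t) = e - 1 - t by ring] at this
              exact this
            have a3 : F c (e - 1 - t) = F c (s2 + r - e + l - l + t) := by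
              refine w5 _ _ (by omega) (by omega) (by omega)
            rw [a1, a2, a3]
          refine ⟨⟨g1, by omega, ?_, ?_, ?_⟩, hs⟩
          · rw [w5 (s2 + r - e + l - l - 1) e (by omega) (by omega) (by omega)]; exact g4
          · have : F c (s2 + r - e + l) = F c (e - l - 1) := w5 _ _ (by omega) (by omega) (by omega)
            rw [this]; exact g3
          · intro x y hx hy hxy
            have b1 := hs (x - (s2 + r - e + l - l)) (by omega) (by omega)
            have b2 := hs (y - (s2 + r - e + l - l)) (by omega) (by omega)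
            rw [show s2 + r - e + l - l + (x - (s2 + r - e + l - l)) = x by ring] at b1
            rw [show s2 + r - e + l - l + (y - (s2 + r - e + l - l)) = y by ring] at b2
            rw [← b1, ← b2]
            exact hp.2.2.2.2 _ _ (by omega) (by omega) (by omega)
        obtain ⟨m1, m2⟩ := mir r' (by omega) hr' hp' hsame
        set q := s2 + r - r' + l with hq
        have hqr : q ≤ r' := by
          by_contra hlt'
          push Not at hlt'
          exact hcons q hlt' (by omega) m1 m2
        have hIH : Pal (F c) (s2 + l - l) q := by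
          refine ih q.toNat (by omega) q (Int.toNat_of_nonneg (by omega)).symm (by omega) m1 (s2 + l) (by omega) e1
            ?_ ?_
          · intro t ht ht'
            rw [← m2 t ht ht', hsame0 t ht ht']
          · intro k hk hk' hpk hsk
            have hsk' : Same (F c) (F c) (r - l) (k - l) l := by
              intro t ht ht'
              rw [m2 t ht ht', hsk t ht ht']
            obtain ⟨n1, n2⟩ := mir k (by omega) (by omega) hpk hsk'
            exact hcons (s2 + r - k + l) (by omega) (by omega) n1 n2
        intro x y hx hy hxy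
        rw [w5 x (s2 + r - 1 - x) (by omega) (by omega) (by omega),
          w5 y (s2 + r - 1 - y) (by omega) (by omega) (by omega)]
        exact hIH _ _ (by omega) (by omega) (by omega)
      · rw [← heq, show r - L B c r + l - l = r - L B c r by ring]; exact w5
    · exact absurd hp.2.2.1 (h _ (by omega) (by omega))

/-- Returns to a set of letters inside a block. -/
lemma ret_block (hC : Cert F P Fam L) {B : Set α} (hB : B ∈ Fam) (c : α) :
    ∀ n : ℕ, ∀ r : ℤ, r = n → r ≤ P → F c r ∈ B →
      ∀ r' : ℤ, -1 ≤ r' → r' < r → F c r' ∈ B → (∀ k, r' < k → k < r → F c k ∉ B) →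
        Pal (F c) (r' + 1) r := by
  intro n
  induction n using Nat.strong_induction_on with
  | _ n ih =>
    intro r hr hrP hp r' hr0 hr' hp' hcons
    rcases hC.pat B hB c r (by omega) hrP hp with h | h
    · obtain ⟨w1, w2, w3, w4, w5⟩ := h
      have hle : r - L B c r - 1 ≤ r' := by
        by_contra hlt
        push Not at hlt
        exact hcons _ hlt (by omega) w3
      rcases lt_or_eq_of_le hle with hlt | heq
      · have hmem : F c (r - L B c r + r - 1 - r') ∈ B := by
          rw [w5 (r - L B c r + r - 1 - r') r' (by omega) (by omega) (by omega)]; exact hp'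
        have hnn : 0 ≤ r - L B c r + r - 1 - r' := by omega
        have hIH : Pal (F c) (r - L B c r - 1 + 1) (r - L B c r + r - 1 - r') := by
          refine ih (r - L B c r + r - 1 - r').toNat (by omega) _ (Int.toNat_of_nonneg hnn).symm (by omega) hmem
            (r - L B c r - 1) (by omega) (by omega) w3 ?_
          intro k hk hk'
          rw [w5 k (r - L B c r + r - 1 - k) (by omega) (by omega) (by omega)]
          exact hcons _ (by omega) (by omega)
        intro x y hx hy hxy
        rw [w5 x (r - L B c r + r - 1 - x) (by omega) (by omega) (by omega),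
          w5 y (r - L B c r + r - 1 - y) (by omega) (by omega) (by omega)]
        exact hIH _ _ (by omega) (by omega) (by omega)
      · rw [show r' + 1 = r - L B c r by omega]; exact w5
    · exact absurd hp' (h _ hr0 hr')

end block

end Pool.Agent.E25
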